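import Pool.Agent.Q23.UG.Lift

/-!
# Bass units
-/

namespace Q23.UG

open Finset in
/-- **Bass units** in a commutative ring with an element `x` such that `x ^ N = 1`. -/
theorem bass {B : Type*} [CommRing B] (x : B) (N : ℕ) (hN : 0 < N) (hx : x ^ N = 1) (k : ℕ)
    (hk : Nat.Coprime k N) (hk0 : 0 < k) : ∃ u v : B, ∃ m : ℕ, 0 < m ∧ u * v = 1 ∧
      (x - 1) * u = (x - 1) * (∑ i ∈ range k, x ^ i) ^ m := by
  obtain ⟨i, q, hiq⟩ : ∃ i q : ℕ, k * i = 1 + N * q := by
    rcases Nat.lt_or_ge 1 N with h1 | h1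
    · obtain ⟨i, hi⟩ := Nat.exists_mul_mod_eq_one_of_coprime hk h1
      refine ⟨i, k * i / N, ?_⟩
      have := Nat.mod_add_div (k * i) N
      omega
    · have : N = 1 := by omega
      subst this
      exact ⟨1, k - 1, by omega⟩
  have hi : Nat.Coprime i N := by
    have h1 : Nat.Coprime (k * i) N := by
      rw [hiq]
      simp
    exact Nat.Coprime.coprime_mul_left h1
  have hpow : ∀ j : ℕ, Nat.Coprime j N → ∃ c : ℤ, (j : ℤ) ^ (Nat.totient N) = 1 + N * c := by
    intro j hj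
    have h1 := Nat.ModEq.pow_totient hj
    have h2 := (Nat.modEq_iff_dvd.mp h1.symm)
    obtain ⟨c, hc⟩ := h2
    refine ⟨c, ?_⟩
    push_cast at hc
    linarith
  obtain ⟨c, hc⟩ := hpow k hk
  obtain ⟨c', hc'⟩ := hpow i hi
  set m := Nat.totient N with hm
  have hm0 : 0 < m := Nat.totient_pos.mpr hN
  set σ := ∑ j ∈ range N, x ^ j with hσ
  set s := ∑ j ∈ range k, x ^ j with hs
  set s' := ∑ j ∈ range i, (x ^ k) ^ j with hs'
  have hxσ : (x - 1) * σ = 0 := by
    rw [mul_comm, hσ, geom_sum_mul, hx, sub_self]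
  have hxσ' : x * σ = σ := by
    have := hxσ
    rw [sub_mul, one_mul, sub_eq_zero] at this
    exact this
  have hxj : ∀ j : ℕ, x ^ j * σ = σ := by
    intro j
    induction j with
    | zero => simp
    | succ j ih => rw [pow_succ, mul_assoc, hxσ', ih]
  have hsσ : s * σ = (k : B) * σ := by
    rw [hs, sum_mul, sum_congr rfl (fun j _ => hxj j)]
    simp
  have hs'σ : s' * σ = (i : B) * σ := by
    rw [hs', sum_mul, sum_congr rfl (fun j _ => by rw [← pow_mul, hxj])]
    simp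
  have hσσ : σ * σ = (N : B) * σ := by
    conv_lhs => rw [hσ, sum_mul]
    rw [sum_congr rfl (fun j _ => hxj j)]
    simp
  have hss' : s * s' = 1 + (q : B) * σ := by
    have h1 : ∀ n : ℕ, s * ∑ j ∈ range n, (x ^ k) ^ j = ∑ j ∈ range (k * n), x ^ j := by
      intro n
      induction n with
      | zero => simp
      | succ n ih =>
        rw [sum_range_succ, mul_add, ih, Nat.mul_succ, sum_range_add]
        congr 1
        rw [hs, sum_mul]
        refine sum_congr rfl (fun j _ => ?_)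
        rw [← pow_mul, ← pow_add, add_comm]
    have h2 : ∀ n : ℕ, ∑ j ∈ range (N * n), x ^ j = (n : B) * σ := by
      intro n
      induction n with
      | zero => simp
      | succ n ih =>
        rw [Nat.mul_succ, sum_range_add, ih]
        have : ∑ j ∈ range N, x ^ (N * n + j) = σ := by
          rw [hσ]
          refine sum_congr rfl (fun j _ => ?_)
          rw [pow_add, pow_mul, hx, one_pow, one_mul]
        rw [this]
        push_cast
        ring
    rw [hs', h1, hiq, sum_range_add, sum_range_one, pow_zero]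
    congr 1
    have : ∑ j ∈ range (N * q), x ^ (1 + j) = x * ∑ j ∈ range (N * q), x ^ j := by
      rw [mul_sum]
      refine sum_congr rfl (fun j _ => ?_)
      rw [pow_add, pow_one]
    rw [this, h2, mul_left_comm, hxσ']
  have hd : ∀ n : ℕ, ∃ d : ℤ, (1 + (q : B) * σ) ^ n = 1 + (d : B) * σ ∧ (N : ℤ) * d = (1 + N * q) ^ n - 1 := by
    intro n
    induction n with
    | zero => exact ⟨0, by simp, by simp⟩
    | succ n ih =>
      obtain ⟨d, h1, h2⟩ := ih
      refine ⟨d + q + d * q * N, ?_, ?_⟩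
      · rw [pow_succ, h1]
        have : (1 + (d : B) * σ) * (1 + (q : B) * σ) = 1 + (d + q : B) * σ + (d * q : B) * (σ * σ) := by ring
        rw [this, hσσ]
        push_cast
        ring
      · rw [pow_succ]
        have : (N : ℤ) * (d + q + d * q * N) = (N * d + 1) * (1 + N * q) - 1 := by ring
        rw [this, h2]
        ring
  obtain ⟨d, hd1, hd2⟩ := hd m
  have hsm : ∀ n : ℕ, s ^ n * σ = ((k : ℤ) ^ n : ℤ) * σ := by
    intro n
    induction n with
    | zero => simp
    | succ n ih =>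
      rw [pow_succ, mul_assoc, hsσ, mul_left_comm, ih]
      push_cast
      ring
  have hs'm : ∀ n : ℕ, s' ^ n * σ = ((i : ℤ) ^ n : ℤ) * σ := by
    intro n
    induction n with
    | zero => simp
    | succ n ih =>
      rw [pow_succ, mul_assoc, hs'σ, mul_left_comm, ih]
      push_cast
      ring
  refine ⟨s ^ m - (c : B) * σ, s' ^ m - (c' : B) * σ, m, hm0, ?_, ?_⟩
  · have e1 : (s ^ m - (c : B) * σ) * (s' ^ m - (c' : B) * σ) =
        (s * s') ^ m - (c' : B) * (s ^ m * σ) - (c : B) * (s' ^ m * σ) + (c * c' : B) * (σ * σ) := by ring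
    rw [e1, hss', hd1, hsm, hs'm, hσσ]
    have e2 : (1 : B) + (d : B) * σ - (c' : B) * (((k : ℤ) ^ m : ℤ) * σ) - (c : B) * (((i : ℤ) ^ m : ℤ) * σ) + (c * c' : B) * ((N : B) * σ)
        = 1 + ((d - c' * (k : ℤ) ^ m - c * (i : ℤ) ^ m + c * c' * N : ℤ) : B) * σ := by
      push_cast
      ring
    rw [e2]
    have e3 : (d - c' * (k : ℤ) ^ m - c * (i : ℤ) ^ m + c * c' * N : ℤ) = 0 := by
      have hN' : (N : ℤ) ≠ 0 := by exact_mod_cast hN.ne'
      apply mul_left_cancel₀ hN'
      have hki : (1 + (N : ℤ) * q) ^ m = (k : ℤ) ^ m * (i : ℤ) ^ m := by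
        rw [← mul_pow]
        congr 1
        exact_mod_cast hiq.symm
      rw [hki] at hd2
      have : (N : ℤ) * (d - c' * (k : ℤ) ^ m - c * (i : ℤ) ^ m + c * c' * N) =
          N * d - (N * c') * (k : ℤ) ^ m - (N * c) * (i : ℤ) ^ m + (N * c) * (N * c') := by ring
      rw [this, hd2, hc, hc']
      ring
    rw [e3]
    simp
  · have : (x - 1) * (s ^ m - (c : B) * σ) = (x - 1) * s ^ m - (c : B) * ((x - 1) * σ) := by ring
    rw [this, hxσ, mul_zero, sub_zero]

open Polynomial in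
/-- The relation between `g - 1` and `g ^ k - 1` in a ring all of whose units have finite order. -/
theorem rel_units {R : Type*} [Ring R] (hT : TU R) (g : R) (N : ℕ) (hN : 0 < N) (hg : g ^ N = 1) (k : ℕ)
    (hk : Nat.Coprime k N) (hk0 : 0 < k) : ∃ M : ℕ, 0 < M ∧ (g - 1) ^ M = (g ^ k - 1) ^ M := by
  let B := ℤ[X] ⧸ Ideal.span {(X ^ N - 1 : ℤ[X])}
  let ψ : B →+* R := Ideal.Quotient.lift (Ideal.span {(X ^ N - 1 : ℤ[X])}) (aeval g : ℤ[X] →ₐ[ℤ] R).toRingHom (by
    intro a ha
    rw [Ideal.mem_span_singleton] at ha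
    obtain ⟨b, rfl⟩ := ha
    simp [hg])
  let x : B := Ideal.Quotient.mk _ X
  have hψx : ψ x = g := by
    show (aeval g : ℤ[X] →ₐ[ℤ] R) X = g
    simp
  have hxN : x ^ N = 1 := by
    have h1 : (Ideal.Quotient.mk (Ideal.span {(X ^ N - 1 : ℤ[X])})) (X ^ N - 1) = 0 :=
      Ideal.Quotient.eq_zero_iff_mem.mpr (Ideal.mem_span_singleton_self _)
    rw [map_sub, map_pow, map_one, sub_eq_zero] at h1
    exact h1
  obtain ⟨u, v, m, hm, huv, hu⟩ := bass x N hN hxN k hk hk0
  have hvu : v * u = 1 := by rw [mul_comm]; exact huv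
  obtain ⟨j, hj, hj1⟩ := tor_of_unit hT (⟨ψ u, ψ v, by rw [← map_mul, huv, map_one], by rw [← map_mul, hvu, map_one]⟩ : Rˣ)
  have hj1' : (ψ u) ^ j = 1 := hj1
  refine ⟨m * j, by positivity, ?_⟩
  have h1 : (g - 1) ^ j = ψ ((x - 1) ^ j * (∑ i ∈ Finset.range k, x ^ i) ^ (m * j)) := by
    have : (x - 1) ^ j * (∑ i ∈ Finset.range k, x ^ i) ^ (m * j) = ((x - 1) * u) ^ j := by
      rw [hu, mul_pow, ← pow_mul]
    rw [this, mul_pow, map_mul, map_pow ψ u, hj1', mul_one, map_pow, map_sub, map_one, hψx]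
  have hmj : m * j = (m * j - j) + j := by
    have : j ≤ m * j := Nat.le_mul_of_pos_left j hm
    omega
  have h2 : (g - 1) ^ (m * j) = ψ ((x - 1) ^ (m * j) * (∑ i ∈ Finset.range k, x ^ i) ^ (m * j)) := by
    calc (g - 1) ^ (m * j) = (g - 1) ^ (m * j - j) * (g - 1) ^ j := by rw [← pow_add, ← hmj]
      _ = ψ ((x - 1) ^ (m * j - j)) * ψ ((x - 1) ^ j * (∑ i ∈ Finset.range k, x ^ i) ^ (m * j)) := by
          rw [h1, map_pow, map_sub, map_one, hψx]
      _ = _ := by rw [← map_mul, ← mul_assoc, ← pow_add, ← hmj]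
  rw [h2, ← mul_pow, mul_comm, geom_sum_mul, map_pow, map_sub, map_pow, map_one, hψx]

end Q23.UG
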