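import Mathlib

/-!
# Sums of two roots of unity
-/

set_option autoImplicit false

namespace Q23.UG

theorem rel_24 {C : Type*} [CommRing C] [CharZero C] (u : C) (h1 : (u - 2 = 0) ∨ (u + 2 = 0) ∨ (u + 1 = 0) ∨ (u = 0) ∨ (u - 1 = 0) ∨ (u ^ 2 - 2 = 0) ∨ (u ^ 2 - 3 = 0) ∨ (u ^ 4 - 4 * u ^ 2 + 1 = 0))
    (h2 : ((1 - u) - 2 = 0) ∨ ((1 - u) + 2 = 0) ∨ ((1 - u) + 1 = 0) ∨ ((1 - u) = 0) ∨ ((1 - u) - 1 = 0) ∨ ((1 - u) ^ 2 - 2 = 0) ∨ ((1 - u) ^ 2 - 3 = 0) ∨ ((1 - u) ^ 4 - 4 * (1 - u) ^ 2 + 1 = 0)) : u = 2 ∨ u = -1 ∨ u = 0 ∨ u = 1 := by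
  rcases h1 with h1 | h1 | h1 | h1 | h1 | h1 | h1 | h1
  · rcases h2 with h2 | h2 | h2 | h2 | h2 | h2 | h2 | h2
    · exact absurd (show ((3 : ℕ) : C) = 0 by push_cast; linear_combination ((-1)) * h1 + ((-1)) * h2) (Nat.cast_ne_zero.mpr (by norm_num))
    · exact absurd (show ((1 : ℕ) : C) = 0 by push_cast; linear_combination ((1)) * h1 + ((1)) * h2) (Nat.cast_ne_zero.mpr (by norm_num))
    · exact Or.inl (by linear_combination h1)
    · exact absurd (show ((1 : ℕ) : C) = 0 by push_cast; linear_combination ((-1)) * h1 + ((-1)) * h2) (Nat.cast_ne_zero.mpr (by norm_num))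
    · exact absurd (show ((2 : ℕ) : C) = 0 by push_cast; linear_combination ((-1)) * h1 + ((-1)) * h2) (Nat.cast_ne_zero.mpr (by norm_num))
    · exact absurd (show ((1 : ℕ) : C) = 0 by push_cast; linear_combination ((1)*u) * h1 + ((-1)) * h2) (Nat.cast_ne_zero.mpr (by norm_num))
    · exact absurd (show ((2 : ℕ) : C) = 0 by push_cast; linear_combination ((1)*u) * h1 + ((-1)) * h2) (Nat.cast_ne_zero.mpr (by norm_num))
    · exact absurd (show ((2 : ℕ) : C) = 0 by push_cast; linear_combination ((-2)*u + (-2)*u^2 + (1)*u^3) * h1 + ((-1)) * h2) (Nat.cast_ne_zero.mpr (by norm_num))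
  · rcases h2 with h2 | h2 | h2 | h2 | h2 | h2 | h2 | h2
    · exact absurd (show ((1 : ℕ) : C) = 0 by push_cast; linear_combination ((1)) * h1 + ((1)) * h2) (Nat.cast_ne_zero.mpr (by norm_num))
    · exact absurd (show ((5 : ℕ) : C) = 0 by push_cast; linear_combination ((1)) * h1 + ((1)) * h2) (Nat.cast_ne_zero.mpr (by norm_num))
    · exact absurd (show ((4 : ℕ) : C) = 0 by push_cast; linear_combination ((1)) * h1 + ((1)) * h2) (Nat.cast_ne_zero.mpr (by norm_num))
    · exact absurd (show ((3 : ℕ) : C) = 0 by push_cast; linear_combination ((1)) * h1 + ((1)) * h2) (Nat.cast_ne_zero.mpr (by norm_num))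
    · exact absurd (show ((2 : ℕ) : C) = 0 by push_cast; linear_combination ((1)) * h1 + ((1)) * h2) (Nat.cast_ne_zero.mpr (by norm_num))
    · exact absurd (show ((7 : ℕ) : C) = 0 by push_cast; linear_combination ((4) + (-1)*u) * h1 + ((1)) * h2) (Nat.cast_ne_zero.mpr (by norm_num))
    · exact absurd (show ((6 : ℕ) : C) = 0 by push_cast; linear_combination ((4) + (-1)*u) * h1 + ((1)) * h2) (Nat.cast_ne_zero.mpr (by norm_num))
    · exact absurd (show ((46 : ℕ) : C) = 0 by push_cast; linear_combination ((24) + (-14)*u + (6)*u^2 + (-1)*u^3) * h1 + ((1)) * h2) (Nat.cast_ne_zero.mpr (by norm_num))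
  · rcases h2 with h2 | h2 | h2 | h2 | h2 | h2 | h2 | h2
    · exact Or.inr (Or.inl (by linear_combination h1))
    · exact absurd (show ((4 : ℕ) : C) = 0 by push_cast; linear_combination ((1)) * h1 + ((1)) * h2) (Nat.cast_ne_zero.mpr (by norm_num))
    · exact absurd (show ((3 : ℕ) : C) = 0 by push_cast; linear_combination ((1)) * h1 + ((1)) * h2) (Nat.cast_ne_zero.mpr (by norm_num))
    · exact absurd (show ((2 : ℕ) : C) = 0 by push_cast; linear_combination ((1)) * h1 + ((1)) * h2) (Nat.cast_ne_zero.mpr (by norm_num))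
    · exact absurd (show ((1 : ℕ) : C) = 0 by push_cast; linear_combination ((1)) * h1 + ((1)) * h2) (Nat.cast_ne_zero.mpr (by norm_num))
    · exact absurd (show ((2 : ℕ) : C) = 0 by push_cast; linear_combination ((3) + (-1)*u) * h1 + ((1)) * h2) (Nat.cast_ne_zero.mpr (by norm_num))
    · exact absurd (show ((1 : ℕ) : C) = 0 by push_cast; linear_combination ((3) + (-1)*u) * h1 + ((1)) * h2) (Nat.cast_ne_zero.mpr (by norm_num))
    · exact absurd (show ((1 : ℕ) : C) = 0 by push_cast; linear_combination ((3) + (-7)*u + (5)*u^2 + (-1)*u^3) * h1 + ((1)) * h2) (Nat.cast_ne_zero.mpr (by norm_num))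
  · rcases h2 with h2 | h2 | h2 | h2 | h2 | h2 | h2 | h2
    · exact absurd (show ((1 : ℕ) : C) = 0 by push_cast; linear_combination ((-1)) * h1 + ((-1)) * h2) (Nat.cast_ne_zero.mpr (by norm_num))
    · exact absurd (show ((3 : ℕ) : C) = 0 by push_cast; linear_combination ((1)) * h1 + ((1)) * h2) (Nat.cast_ne_zero.mpr (by norm_num))
    · exact absurd (show ((2 : ℕ) : C) = 0 by push_cast; linear_combination ((1)) * h1 + ((1)) * h2) (Nat.cast_ne_zero.mpr (by norm_num))
    · exact absurd (show ((1 : ℕ) : C) = 0 by push_cast; linear_combination ((1)) * h1 + ((1)) * h2) (Nat.cast_ne_zero.mpr (by norm_num))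
    · exact Or.inr (Or.inr (Or.inl (by linear_combination h1)))
    · exact absurd (show ((1 : ℕ) : C) = 0 by push_cast; linear_combination ((-2) + (1)*u) * h1 + ((-1)) * h2) (Nat.cast_ne_zero.mpr (by norm_num))
    · exact absurd (show ((2 : ℕ) : C) = 0 by push_cast; linear_combination ((-2) + (1)*u) * h1 + ((-1)) * h2) (Nat.cast_ne_zero.mpr (by norm_num))
    · exact absurd (show ((2 : ℕ) : C) = 0 by push_cast; linear_combination ((4) + (2)*u + (-4)*u^2 + (1)*u^3) * h1 + ((-1)) * h2) (Nat.cast_ne_zero.mpr (by norm_num))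
  · rcases h2 with h2 | h2 | h2 | h2 | h2 | h2 | h2 | h2
    · exact absurd (show ((2 : ℕ) : C) = 0 by push_cast; linear_combination ((-1)) * h1 + ((-1)) * h2) (Nat.cast_ne_zero.mpr (by norm_num))
    · exact absurd (show ((2 : ℕ) : C) = 0 by push_cast; linear_combination ((1)) * h1 + ((1)) * h2) (Nat.cast_ne_zero.mpr (by norm_num))
    · exact absurd (show ((1 : ℕ) : C) = 0 by push_cast; linear_combination ((1)) * h1 + ((1)) * h2) (Nat.cast_ne_zero.mpr (by norm_num))
    · exact Or.inr (Or.inr (Or.inr (by linear_combination h1)))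
    · exact absurd (show ((1 : ℕ) : C) = 0 by push_cast; linear_combination ((-1)) * h1 + ((-1)) * h2) (Nat.cast_ne_zero.mpr (by norm_num))
    · exact absurd (show ((2 : ℕ) : C) = 0 by push_cast; linear_combination ((-1) + (1)*u) * h1 + ((-1)) * h2) (Nat.cast_ne_zero.mpr (by norm_num))
    · exact absurd (show ((3 : ℕ) : C) = 0 by push_cast; linear_combination ((-1) + (1)*u) * h1 + ((-1)) * h2) (Nat.cast_ne_zero.mpr (by norm_num))
    · exact absurd (show ((1 : ℕ) : C) = 0 by push_cast; linear_combination ((-3) + (1)*u + (3)*u^2 + (-1)*u^3) * h1 + ((1)) * h2) (Nat.cast_ne_zero.mpr (by norm_num))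
  · rcases h2 with h2 | h2 | h2 | h2 | h2 | h2 | h2 | h2
    · exact absurd (show ((1 : ℕ) : C) = 0 by push_cast; linear_combination ((-1)) * h1 + ((1) + (-1)*u) * h2) (Nat.cast_ne_zero.mpr (by norm_num))
    · exact absurd (show ((7 : ℕ) : C) = 0 by push_cast; linear_combination ((1)) * h1 + ((3) + (1)*u) * h2) (Nat.cast_ne_zero.mpr (by norm_num))
    · exact absurd (show ((2 : ℕ) : C) = 0 by push_cast; linear_combination ((1)) * h1 + ((2) + (1)*u) * h2) (Nat.cast_ne_zero.mpr (by norm_num))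
    · exact absurd (show ((1 : ℕ) : C) = 0 by push_cast; linear_combination ((-1)) * h1 + ((-1) + (-1)*u) * h2) (Nat.cast_ne_zero.mpr (by norm_num))
    · exact absurd (show ((2 : ℕ) : C) = 0 by push_cast; linear_combination ((-1)) * h1 + ((-1)*u) * h2) (Nat.cast_ne_zero.mpr (by norm_num))
    · exact absurd (show ((7 : ℕ) : C) = 0 by push_cast; linear_combination ((-3) + (2)*u) * h1 + ((-1) + (-2)*u) * h2) (Nat.cast_ne_zero.mpr (by norm_num))
    · exact absurd (show ((4 : ℕ) : C) = 0 by push_cast; linear_combination ((-2) + (1)*u) * h1 + ((-1)*u) * h2) (Nat.cast_ne_zero.mpr (by norm_num))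
    · exact absurd (show ((2 : ℕ) : C) = 0 by push_cast; linear_combination ((-4) + (4)*u + (5)*u^2 + (-2)*u^3) * h1 + ((3) + (2)*u) * h2) (Nat.cast_ne_zero.mpr (by norm_num))
  · rcases h2 with h2 | h2 | h2 | h2 | h2 | h2 | h2 | h2
    · exact absurd (show ((2 : ℕ) : C) = 0 by push_cast; linear_combination ((-1)) * h1 + ((1) + (-1)*u) * h2) (Nat.cast_ne_zero.mpr (by norm_num))
    · exact absurd (show ((6 : ℕ) : C) = 0 by push_cast; linear_combination ((1)) * h1 + ((3) + (1)*u) * h2) (Nat.cast_ne_zero.mpr (by norm_num))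
    · exact absurd (show ((1 : ℕ) : C) = 0 by push_cast; linear_combination ((1)) * h1 + ((2) + (1)*u) * h2) (Nat.cast_ne_zero.mpr (by norm_num))
    · exact absurd (show ((2 : ℕ) : C) = 0 by push_cast; linear_combination ((-1)) * h1 + ((-1) + (-1)*u) * h2) (Nat.cast_ne_zero.mpr (by norm_num))
    · exact absurd (show ((3 : ℕ) : C) = 0 by push_cast; linear_combination ((-1)) * h1 + ((-1)*u) * h2) (Nat.cast_ne_zero.mpr (by norm_num))
    · exact absurd (show ((4 : ℕ) : C) = 0 by push_cast; linear_combination ((-1) + (1)*u) * h1 + ((-1) + (-1)*u) * h2) (Nat.cast_ne_zero.mpr (by norm_num))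
    · exact absurd (show ((11 : ℕ) : C) = 0 by push_cast; linear_combination ((-3) + (2)*u) * h1 + ((-1) + (-2)*u) * h2) (Nat.cast_ne_zero.mpr (by norm_num))
    · exact absurd (show ((23 : ℕ) : C) = 0 by push_cast; linear_combination ((1) + (-12)*u + (-19)*u^2 + (8)*u^3) * h1 + ((-13) + (-8)*u) * h2) (Nat.cast_ne_zero.mpr (by norm_num))
  · rcases h2 with h2 | h2 | h2 | h2 | h2 | h2 | h2 | h2
    · exact absurd (show ((2 : ℕ) : C) = 0 by push_cast; linear_combination ((-1)) * h1 + ((-3) + (3)*u + (1)*u^2 + (-1)*u^3) * h2) (Nat.cast_ne_zero.mpr (by norm_num))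
    · exact absurd (show ((46 : ℕ) : C) = 0 by push_cast; linear_combination ((1)) * h1 + ((15) + (5)*u + (3)*u^2 + (1)*u^3) * h2) (Nat.cast_ne_zero.mpr (by norm_num))
    · exact absurd (show ((1 : ℕ) : C) = 0 by push_cast; linear_combination ((1)) * h1 + ((2)*u^2 + (1)*u^3) * h2) (Nat.cast_ne_zero.mpr (by norm_num))
    · exact absurd (show ((2 : ℕ) : C) = 0 by push_cast; linear_combination ((-1)) * h1 + ((3) + (3)*u + (-1)*u^2 + (-1)*u^3) * h2) (Nat.cast_ne_zero.mpr (by norm_num))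
    · exact absurd (show ((1 : ℕ) : C) = 0 by push_cast; linear_combination ((1)) * h1 + ((-4)*u + (1)*u^3) * h2) (Nat.cast_ne_zero.mpr (by norm_num))
    · exact absurd (show ((2 : ℕ) : C) = 0 by push_cast; linear_combination ((5) + (-2)*u) * h1 + ((3) + (-8)*u + (-1)*u^2 + (2)*u^3) * h2) (Nat.cast_ne_zero.mpr (by norm_num))
    · exact absurd (show ((23 : ℕ) : C) = 0 by push_cast; linear_combination ((-21) + (8)*u) * h1 + ((-22) + (26)*u + (5)*u^2 + (-8)*u^3) * h2) (Nat.cast_ne_zero.mpr (by norm_num))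
    · exact absurd (show ((5 : ℕ) : C) = 0 by push_cast; linear_combination ((47) + (4)*u + (-42)*u^2 + (12)*u^3) * h1 + ((21) + (44)*u + (-6)*u^2 + (-12)*u^3) * h2) (Nat.cast_ne_zero.mpr (by norm_num))

theorem rel_36 {C : Type*} [CommRing C] [CharZero C] (u : C) (h1 : (u - 2 = 0) ∨ (u + 2 = 0) ∨ (u + 1 = 0) ∨ (u = 0) ∨ (u - 1 = 0) ∨ (u ^ 2 - 3 = 0) ∨ (u ^ 3 - 3 * u + 1 = 0) ∨ (u ^ 3 - 3 * u - 1 = 0) ∨ (u ^ 6 - 6 * u ^ 4 + 9 * u ^ 2 - 3 = 0))
    (h2 : ((1 - u) - 2 = 0) ∨ ((1 - u) + 2 = 0) ∨ ((1 - u) + 1 = 0) ∨ ((1 - u) = 0) ∨ ((1 - u) - 1 = 0) ∨ ((1 - u) ^ 2 - 3 = 0) ∨ ((1 - u) ^ 3 - 3 * (1 - u) + 1 = 0) ∨ ((1 - u) ^ 3 - 3 * (1 - u) - 1 = 0) ∨ ((1 - u) ^ 6 - 6 * (1 - u) ^ 4 + 9 * (1 - u) ^ 2 - 3 = 0)) : u = 2 ∨ u = -1 ∨ u = 0 ∨ u = 1 := by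
  rcases h1 with h1 | h1 | h1 | h1 | h1 | h1 | h1 | h1 | h1
  · rcases h2 with h2 | h2 | h2 | h2 | h2 | h2 | h2 | h2 | h2
    · exact absurd (show ((3 : ℕ) : C) = 0 by push_cast; linear_combination ((-1)) * h1 + ((-1)) * h2) (Nat.cast_ne_zero.mpr (by norm_num))
    · exact absurd (show ((1 : ℕ) : C) = 0 by push_cast; linear_combination ((1)) * h1 + ((1)) * h2) (Nat.cast_ne_zero.mpr (by norm_num))
    · exact Or.inl (by linear_combination h1)
    · exact absurd (show ((1 : ℕ) : C) = 0 by push_cast; linear_combination ((-1)) * h1 + ((-1)) * h2) (Nat.cast_ne_zero.mpr (by norm_num))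
    · exact absurd (show ((2 : ℕ) : C) = 0 by push_cast; linear_combination ((-1)) * h1 + ((-1)) * h2) (Nat.cast_ne_zero.mpr (by norm_num))
    · exact absurd (show ((2 : ℕ) : C) = 0 by push_cast; linear_combination ((1)*u) * h1 + ((-1)) * h2) (Nat.cast_ne_zero.mpr (by norm_num))
    · exact absurd (show ((3 : ℕ) : C) = 0 by push_cast; linear_combination ((-2) + (-1)*u + (1)*u^2) * h1 + ((1)) * h2) (Nat.cast_ne_zero.mpr (by norm_num))
    · exact absurd (show ((1 : ℕ) : C) = 0 by push_cast; linear_combination ((-2) + (-1)*u + (1)*u^2) * h1 + ((1)) * h2) (Nat.cast_ne_zero.mpr (by norm_num))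
    · exact absurd (show ((1 : ℕ) : C) = 0 by push_cast; linear_combination ((-6)*u^2 + (-1)*u^3 + (4)*u^4 + (-1)*u^5) * h1 + ((1)) * h2) (Nat.cast_ne_zero.mpr (by norm_num))
  · rcases h2 with h2 | h2 | h2 | h2 | h2 | h2 | h2 | h2 | h2
    · exact absurd (show ((1 : ℕ) : C) = 0 by push_cast; linear_combination ((1)) * h1 + ((1)) * h2) (Nat.cast_ne_zero.mpr (by norm_num))
    · exact absurd (show ((5 : ℕ) : C) = 0 by push_cast; linear_combination ((1)) * h1 + ((1)) * h2) (Nat.cast_ne_zero.mpr (by norm_num))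
    · exact absurd (show ((4 : ℕ) : C) = 0 by push_cast; linear_combination ((1)) * h1 + ((1)) * h2) (Nat.cast_ne_zero.mpr (by norm_num))
    · exact absurd (show ((3 : ℕ) : C) = 0 by push_cast; linear_combination ((1)) * h1 + ((1)) * h2) (Nat.cast_ne_zero.mpr (by norm_num))
    · exact absurd (show ((2 : ℕ) : C) = 0 by push_cast; linear_combination ((1)) * h1 + ((1)) * h2) (Nat.cast_ne_zero.mpr (by norm_num))
    · exact absurd (show ((6 : ℕ) : C) = 0 by push_cast; linear_combination ((4) + (-1)*u) * h1 + ((1)) * h2) (Nat.cast_ne_zero.mpr (by norm_num))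
    · exact absurd (show ((19 : ℕ) : C) = 0 by push_cast; linear_combination ((10) + (-5)*u + (1)*u^2) * h1 + ((1)) * h2) (Nat.cast_ne_zero.mpr (by norm_num))
    · exact absurd (show ((17 : ℕ) : C) = 0 by push_cast; linear_combination ((10) + (-5)*u + (1)*u^2) * h1 + ((1)) * h2) (Nat.cast_ne_zero.mpr (by norm_num))
    · exact absurd (show ((321 : ℕ) : C) = 0 by push_cast; linear_combination ((160) + (-80)*u + (46)*u^2 + (-25)*u^3 + (8)*u^4 + (-1)*u^5) * h1 + ((1)) * h2) (Nat.cast_ne_zero.mpr (by norm_num))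
  · rcases h2 with h2 | h2 | h2 | h2 | h2 | h2 | h2 | h2 | h2
    · exact Or.inr (Or.inl (by linear_combination h1))
    · exact absurd (show ((4 : ℕ) : C) = 0 by push_cast; linear_combination ((1)) * h1 + ((1)) * h2) (Nat.cast_ne_zero.mpr (by norm_num))
    · exact absurd (show ((3 : ℕ) : C) = 0 by push_cast; linear_combination ((1)) * h1 + ((1)) * h2) (Nat.cast_ne_zero.mpr (by norm_num))
    · exact absurd (show ((2 : ℕ) : C) = 0 by push_cast; linear_combination ((1)) * h1 + ((1)) * h2) (Nat.cast_ne_zero.mpr (by norm_num))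
    · exact absurd (show ((1 : ℕ) : C) = 0 by push_cast; linear_combination ((1)) * h1 + ((1)) * h2) (Nat.cast_ne_zero.mpr (by norm_num))
    · exact absurd (show ((1 : ℕ) : C) = 0 by push_cast; linear_combination ((3) + (-1)*u) * h1 + ((1)) * h2) (Nat.cast_ne_zero.mpr (by norm_num))
    · exact absurd (show ((3 : ℕ) : C) = 0 by push_cast; linear_combination ((4) + (-4)*u + (1)*u^2) * h1 + ((1)) * h2) (Nat.cast_ne_zero.mpr (by norm_num))
    · exact absurd (show ((1 : ℕ) : C) = 0 by push_cast; linear_combination ((4) + (-4)*u + (1)*u^2) * h1 + ((1)) * h2) (Nat.cast_ne_zero.mpr (by norm_num))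
    · exact absurd (show ((1 : ℕ) : C) = 0 by push_cast; linear_combination ((12)*u^2 + (-16)*u^3 + (7)*u^4 + (-1)*u^5) * h1 + ((1)) * h2) (Nat.cast_ne_zero.mpr (by norm_num))
  · rcases h2 with h2 | h2 | h2 | h2 | h2 | h2 | h2 | h2 | h2
    · exact absurd (show ((1 : ℕ) : C) = 0 by push_cast; linear_combination ((-1)) * h1 + ((-1)) * h2) (Nat.cast_ne_zero.mpr (by norm_num))
    · exact absurd (show ((3 : ℕ) : C) = 0 by push_cast; linear_combination ((1)) * h1 + ((1)) * h2) (Nat.cast_ne_zero.mpr (by norm_num))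
    · exact absurd (show ((2 : ℕ) : C) = 0 by push_cast; linear_combination ((1)) * h1 + ((1)) * h2) (Nat.cast_ne_zero.mpr (by norm_num))
    · exact absurd (show ((1 : ℕ) : C) = 0 by push_cast; linear_combination ((1)) * h1 + ((1)) * h2) (Nat.cast_ne_zero.mpr (by norm_num))
    · exact Or.inr (Or.inr (Or.inl (by linear_combination h1)))
    · exact absurd (show ((2 : ℕ) : C) = 0 by push_cast; linear_combination ((-2) + (1)*u) * h1 + ((-1)) * h2) (Nat.cast_ne_zero.mpr (by norm_num))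
    · exact absurd (show ((1 : ℕ) : C) = 0 by push_cast; linear_combination ((3)*u + (-1)*u^2) * h1 + ((-1)) * h2) (Nat.cast_ne_zero.mpr (by norm_num))
    · exact absurd (show ((3 : ℕ) : C) = 0 by push_cast; linear_combination ((3)*u + (-1)*u^2) * h1 + ((-1)) * h2) (Nat.cast_ne_zero.mpr (by norm_num))
    · exact absurd (show ((1 : ℕ) : C) = 0 by push_cast; linear_combination ((12)*u + (-4)*u^2 + (-9)*u^3 + (6)*u^4 + (-1)*u^5) * h1 + ((1)) * h2) (Nat.cast_ne_zero.mpr (by norm_num))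
  · rcases h2 with h2 | h2 | h2 | h2 | h2 | h2 | h2 | h2 | h2
    · exact absurd (show ((2 : ℕ) : C) = 0 by push_cast; linear_combination ((-1)) * h1 + ((-1)) * h2) (Nat.cast_ne_zero.mpr (by norm_num))
    · exact absurd (show ((2 : ℕ) : C) = 0 by push_cast; linear_combination ((1)) * h1 + ((1)) * h2) (Nat.cast_ne_zero.mpr (by norm_num))
    · exact absurd (show ((1 : ℕ) : C) = 0 by push_cast; linear_combination ((1)) * h1 + ((1)) * h2) (Nat.cast_ne_zero.mpr (by norm_num))
    · exact Or.inr (Or.inr (Or.inr (by linear_combination h1)))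
    · exact absurd (show ((1 : ℕ) : C) = 0 by push_cast; linear_combination ((-1)) * h1 + ((-1)) * h2) (Nat.cast_ne_zero.mpr (by norm_num))
    · exact absurd (show ((3 : ℕ) : C) = 0 by push_cast; linear_combination ((-1) + (1)*u) * h1 + ((-1)) * h2) (Nat.cast_ne_zero.mpr (by norm_num))
    · exact absurd (show ((1 : ℕ) : C) = 0 by push_cast; linear_combination ((-2) + (-2)*u + (1)*u^2) * h1 + ((1)) * h2) (Nat.cast_ne_zero.mpr (by norm_num))
    · exact absurd (show ((1 : ℕ) : C) = 0 by push_cast; linear_combination ((2) + (2)*u + (-1)*u^2) * h1 + ((-1)) * h2) (Nat.cast_ne_zero.mpr (by norm_num))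
    · exact absurd (show ((3 : ℕ) : C) = 0 by push_cast; linear_combination ((-4) + (-4)*u + (8)*u^2 + (4)*u^3 + (-5)*u^4 + (1)*u^5) * h1 + ((-1)) * h2) (Nat.cast_ne_zero.mpr (by norm_num))
  · rcases h2 with h2 | h2 | h2 | h2 | h2 | h2 | h2 | h2 | h2
    · exact absurd (show ((2 : ℕ) : C) = 0 by push_cast; linear_combination ((-1)) * h1 + ((1) + (-1)*u) * h2) (Nat.cast_ne_zero.mpr (by norm_num))
    · exact absurd (show ((6 : ℕ) : C) = 0 by push_cast; linear_combination ((1)) * h1 + ((3) + (1)*u) * h2) (Nat.cast_ne_zero.mpr (by norm_num))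
    · exact absurd (show ((1 : ℕ) : C) = 0 by push_cast; linear_combination ((1)) * h1 + ((2) + (1)*u) * h2) (Nat.cast_ne_zero.mpr (by norm_num))
    · exact absurd (show ((2 : ℕ) : C) = 0 by push_cast; linear_combination ((-1)) * h1 + ((-1) + (-1)*u) * h2) (Nat.cast_ne_zero.mpr (by norm_num))
    · exact absurd (show ((3 : ℕ) : C) = 0 by push_cast; linear_combination ((-1)) * h1 + ((-1)*u) * h2) (Nat.cast_ne_zero.mpr (by norm_num))
    · exact absurd (show ((11 : ℕ) : C) = 0 by push_cast; linear_combination ((-3) + (2)*u) * h1 + ((-1) + (-2)*u) * h2) (Nat.cast_ne_zero.mpr (by norm_num))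
    · exact absurd (show ((37 : ℕ) : C) = 0 by push_cast; linear_combination ((-15) + (-1)*u + (3)*u^2) * h1 + ((8) + (3)*u) * h2) (Nat.cast_ne_zero.mpr (by norm_num))
    · exact absurd (show ((3 : ℕ) : C) = 0 by push_cast; linear_combination ((-3) + (-1)*u + (1)*u^2) * h1 + ((2) + (1)*u) * h2) (Nat.cast_ne_zero.mpr (by norm_num))
    · exact absurd (show ((37 : ℕ) : C) = 0 by push_cast; linear_combination ((12) + (14)*u + (-288)*u^2 + (-66)*u^3 + (179)*u^4 + (-42)*u^5) * h1 + ((73) + (42)*u) * h2) (Nat.cast_ne_zero.mpr (by norm_num))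
  · rcases h2 with h2 | h2 | h2 | h2 | h2 | h2 | h2 | h2 | h2
    · exact absurd (show ((3 : ℕ) : C) = 0 by push_cast; linear_combination ((1)) * h1 + ((-2) + (-1)*u + (1)*u^2) * h2) (Nat.cast_ne_zero.mpr (by norm_num))
    · exact absurd (show ((19 : ℕ) : C) = 0 by push_cast; linear_combination ((1)) * h1 + ((6) + (3)*u + (1)*u^2) * h2) (Nat.cast_ne_zero.mpr (by norm_num))
    · exact absurd (show ((3 : ℕ) : C) = 0 by push_cast; linear_combination ((1)) * h1 + ((1) + (2)*u + (1)*u^2) * h2) (Nat.cast_ne_zero.mpr (by norm_num))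
    · exact absurd (show ((1 : ℕ) : C) = 0 by push_cast; linear_combination ((-1)) * h1 + ((2) + (-1)*u + (-1)*u^2) * h2) (Nat.cast_ne_zero.mpr (by norm_num))
    · exact absurd (show ((1 : ℕ) : C) = 0 by push_cast; linear_combination ((1)) * h1 + ((-3) + (1)*u^2) * h2) (Nat.cast_ne_zero.mpr (by norm_num))
    · exact absurd (show ((37 : ℕ) : C) = 0 by push_cast; linear_combination ((11) + (-3)*u) * h1 + ((-13) + (-5)*u + (3)*u^2) * h2) (Nat.cast_ne_zero.mpr (by norm_num))
    · exact absurd (show ((3 : ℕ) : C) = 0 by push_cast; linear_combination ((-2) + (-5)*u + (2)*u^2) * h1 + ((-5) + (1)*u + (2)*u^2) * h2) (Nat.cast_ne_zero.mpr (by norm_num))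
    · exact absurd (show ((17 : ℕ) : C) = 0 by push_cast; linear_combination ((-22) + (-21)*u + (12)*u^2) * h1 + ((-13) + (15)*u + (12)*u^2) * h2) (Nat.cast_ne_zero.mpr (by norm_num))
    · exact absurd (show ((37 : ℕ) : C) = 0 by push_cast; linear_combination ((258) + (762)*u + (-435)*u^2 + (-535)*u^3 + (402)*u^4 + (-69)*u^5) * h1 + ((-221) + (12)*u + (69)*u^2) * h2) (Nat.cast_ne_zero.mpr (by norm_num))
  · rcases h2 with h2 | h2 | h2 | h2 | h2 | h2 | h2 | h2 | h2
    · exact absurd (show ((1 : ℕ) : C) = 0 by push_cast; linear_combination ((1)) * h1 + ((-2) + (-1)*u + (1)*u^2) * h2) (Nat.cast_ne_zero.mpr (by norm_num))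
    · exact absurd (show ((17 : ℕ) : C) = 0 by push_cast; linear_combination ((1)) * h1 + ((6) + (3)*u + (1)*u^2) * h2) (Nat.cast_ne_zero.mpr (by norm_num))
    · exact absurd (show ((1 : ℕ) : C) = 0 by push_cast; linear_combination ((1)) * h1 + ((1) + (2)*u + (1)*u^2) * h2) (Nat.cast_ne_zero.mpr (by norm_num))
    · exact absurd (show ((3 : ℕ) : C) = 0 by push_cast; linear_combination ((-1)) * h1 + ((2) + (-1)*u + (-1)*u^2) * h2) (Nat.cast_ne_zero.mpr (by norm_num))
    · exact absurd (show ((1 : ℕ) : C) = 0 by push_cast; linear_combination ((-1)) * h1 + ((3) + (-1)*u^2) * h2) (Nat.cast_ne_zero.mpr (by norm_num))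
    · exact absurd (show ((3 : ℕ) : C) = 0 by push_cast; linear_combination ((3) + (-1)*u) * h1 + ((-3) + (-1)*u + (1)*u^2) * h2) (Nat.cast_ne_zero.mpr (by norm_num))
    · exact absurd (show ((17 : ℕ) : C) = 0 by push_cast; linear_combination ((14) + (-39)*u + (12)*u^2) * h1 + ((-31) + (-3)*u + (12)*u^2) * h2) (Nat.cast_ne_zero.mpr (by norm_num))
    · exact absurd (show ((19 : ℕ) : C) = 0 by push_cast; linear_combination ((2) + (-15)*u + (6)*u^2) * h1 + ((-7) + (3)*u + (6)*u^2) * h2) (Nat.cast_ne_zero.mpr (by norm_num))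
    · exact absurd (show ((3 : ℕ) : C) = 0 by push_cast; linear_combination ((-10) + (30)*u + (-3)*u^2 + (-29)*u^3 + (18)*u^4 + (-3)*u^5) * h1 + ((-7) + (3)*u^2) * h2) (Nat.cast_ne_zero.mpr (by norm_num))
  · rcases h2 with h2 | h2 | h2 | h2 | h2 | h2 | h2 | h2 | h2
    · exact absurd (show ((1 : ℕ) : C) = 0 by push_cast; linear_combination ((1)) * h1 + ((-4) + (4)*u + (5)*u^2 + (-5)*u^3 + (-1)*u^4 + (1)*u^5) * h2) (Nat.cast_ne_zero.mpr (by norm_num))
    · exact absurd (show ((321 : ℕ) : C) = 0 by push_cast; linear_combination ((1)) * h1 + ((108) + (36)*u + (9)*u^2 + (3)*u^3 + (3)*u^4 + (1)*u^5) * h2) (Nat.cast_ne_zero.mpr (by norm_num))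
    · exact absurd (show ((1 : ℕ) : C) = 0 by push_cast; linear_combination ((1)) * h1 + ((2) + (1)*u + (-4)*u^2 + (-2)*u^3 + (2)*u^4 + (1)*u^5) * h2) (Nat.cast_ne_zero.mpr (by norm_num))
    · exact absurd (show ((1 : ℕ) : C) = 0 by push_cast; linear_combination ((1)) * h1 + ((4) + (4)*u + (-5)*u^2 + (-5)*u^3 + (1)*u^4 + (1)*u^5) * h2) (Nat.cast_ne_zero.mpr (by norm_num))
    · exact absurd (show ((3 : ℕ) : C) = 0 by push_cast; linear_combination ((-1)) * h1 + ((-9)*u + (6)*u^3 + (-1)*u^5) * h2) (Nat.cast_ne_zero.mpr (by norm_num))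
    · exact absurd (show ((37 : ℕ) : C) = 0 by push_cast; linear_combination ((115) + (-42)*u) * h1 + ((-191) + (254)*u + (168)*u^2 + (-230)*u^3 + (-31)*u^4 + (42)*u^5) * h2) (Nat.cast_ne_zero.mpr (by norm_num))
    · exact absurd (show ((37 : ℕ) : C) = 0 by push_cast; linear_combination ((-140) + (-150)*u + (69)*u^2) * h1 + ((383) + (450)*u + (-318)*u^2 + (-383)*u^3 + (57)*u^4 + (69)*u^5) * h2) (Nat.cast_ne_zero.mpr (by norm_num))
    · exact absurd (show ((3 : ℕ) : C) = 0 by push_cast; linear_combination ((-4) + (-6)*u + (3)*u^2) * h1 + ((3) + (6)*u + (-12)*u^2 + (-13)*u^3 + (3)*u^4 + (3)*u^5) * h2) (Nat.cast_ne_zero.mpr (by norm_num))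
    · exact absurd (show ((2627 : ℕ) : C) = 0 by push_cast; linear_combination ((-1272) + (12)*u + (1017)*u^2 + (-1918)*u^3 + (1188)*u^4 + (-216)*u^5) * h1 + ((-1189) + (36)*u + (231)*u^2 + (-674)*u^3 + (108)*u^4 + (216)*u^5) * h2) (Nat.cast_ne_zero.mpr (by norm_num))

end Q23.UG
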