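import Pool.Agent.Q23.UG.Red

/-!
# Groups of units of exponent `n` which contain the unipotent elements of the algebra they span
-/

namespace Q23.UG

universe u v

/-- A variant of `reduced_of_noLF` with central coefficients. -/
theorem reduced_of_noLF' {A : Type*} [Ring A] (hLF : NoLF A) (hG : Gd A) (hB : Bd A)
    (hgen : ∀ a : A, a ∈ AddSubgroup.closure {y : A | ∃ c u : A, (∀ r, c * r = r * c) ∧ Tor u ∧ y = c * u}) :
    Rd A := by
  have hA := sp_of_noLF hLF hG
  intro x hx
  by_contra hx0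
  obtain ⟨P, hP, hxP⟩ := exists_pr hA x hx0
  have hst := star hA hLF hG hB
  have h1 : ∀ a : A, x * a * x ∈ P := by
    intro a
    have ha := hgen a
    induction ha using AddSubgroup.closure_induction with
    | mem u hu =>
      obtain ⟨c, u, hc, hu, rfl⟩ := hu
      have : x * (c * u) * x = c * (x * u * x) := by
        rw [← mul_assoc, ← hc x, mul_assoc, mul_assoc, mul_assoc]
      rw [this]
      exact P.mul_mem_left _ (xhx_mem hst hP x u hx hu)
    | zero => rw [mul_zero, zero_mul]; exact P.zero_mem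
    | add y z _ _ h1 h2 => rw [mul_add, add_mul]; exact P.add_mem h1 h2
    | neg y _ h1 => rw [mul_neg, neg_mul]; exact P.neg_mem h1
  rcases hP.pr x x h1 with h | h <;> exact hxP h

/-- The case of a ring spanned by `G` over its centre. -/
theorem clo_core (n : ℕ) (hn : 0 < n) {S : Type u} [Ring S] (G : Subgroup Sˣ) (hG : ∀ x ∈ G, x ^ n = 1)
    (hU : ∀ w : S, IsNilpotent w → ∃ u ∈ G, (u : S) = 1 + w)
    (hgen : ∀ a : S, a ∈ AddSubgroup.closure {y : S | ∃ (c : S) (u : Sˣ), (∀ r, c * r = r * c) ∧ u ∈ G ∧ y = c * u})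
    (H : Subgroup Sˣ) (hHG : H ≤ G) (hH : H.FG)
    (hD : ∀ (D : Type u) [Ring D], IsDomain D → ∀ f : S →+* D, Function.Surjective f →
      Finite (H.map (Units.map (f : S →* D)))) :
    Finite H := by
  obtain ⟨L, hL2, hLF, hmax⟩ := exists_max_lf S
  have hpow : ∀ u ∈ G, (u : S) ^ n = 1 := by
    intro u hu
    rw [← Units.val_pow_eq_pow_val, hG u hu, Units.val_one]
  have hGd : Gd (S ⧸ L) := by
    constructor
    · intro a b ha hb
      obtain ⟨a', rfl⟩ := Ideal.Quotient.mk_surjective a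
      obtain ⟨b', rfl⟩ := Ideal.Quotient.mk_surjective b
      obtain ⟨a0, ha0, ha1⟩ := lift_nil L hLF a' ⟨2, by rw [sq, ha]⟩
      obtain ⟨b0, hb0, hb1⟩ := lift_nil L hLF b' ⟨2, by rw [sq, hb]⟩
      obtain ⟨x, hx, hx1⟩ := hU a0 ha0
      obtain ⟨y, hy, hy1⟩ := hU b0 hb0
      rw [← ha1, ← hb1, ← map_one (Ideal.Quotient.mk L), ← map_add, ← map_add, ← map_mul, ← hx1, ← hy1, ← Units.val_mul]
      exact ⟨n, hn, by rw [← map_pow, hpow _ (G.mul_mem hx hy), map_one]⟩
    · intro w hw
      obtain ⟨w', rfl⟩ := Ideal.Quotient.mk_surjective w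
      obtain ⟨w0, hw0, h⟩ := lift_nil L hLF w' hw
      obtain ⟨x, hx, hx1⟩ := hU w0 hw0
      rw [← h, ← map_one (Ideal.Quotient.mk L), ← map_add, ← hx1]
      exact ⟨n, hn, by rw [← map_pow, hpow _ hx, map_one]⟩
  have hBd : Bd (S ⧸ L) := by
    intro p hp
    refine ⟨n, fun w hpw hw => ?_⟩
    refine nil_index p hp n hn w hpw hw ?_
    obtain ⟨w', rfl⟩ := Ideal.Quotient.mk_surjective w
    obtain ⟨w0, hw0, h⟩ := lift_nil L hLF w' hw
    obtain ⟨x, hx, hx1⟩ := hU w0 hw0
    rw [← h, ← map_one (Ideal.Quotient.mk L), ← map_add, ← hx1, ← map_pow, hpow _ hx, map_one]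
  have hRd : Rd (S ⧸ L) := by
    refine reduced_of_noLF' (noLF_quot L hLF hmax) hGd hBd ?_
    intro a
    obtain ⟨x, rfl⟩ := Ideal.Quotient.mk_surjective a
    have hx := hgen x
    induction hx using AddSubgroup.closure_induction with
    | mem y hy =>
      obtain ⟨c, z, hc, hz, rfl⟩ := hy
      refine AddSubgroup.subset_closure ⟨Ideal.Quotient.mk L c, Ideal.Quotient.mk L (z : S), ?_, ⟨n, hn, ?_⟩, ?_⟩
      · intro r
        obtain ⟨r, rfl⟩ := Ideal.Quotient.mk_surjective r
        rw [← map_mul, hc, map_mul]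
      · rw [← map_pow, hpow _ hz, map_one]
      · rw [map_mul]
    | zero => rw [map_zero]; exact AddSubgroup.zero_mem _
    | add y z _ _ h1 h2 => rw [map_add]; exact AddSubgroup.add_mem _ h1 h2
    | neg y _ h1 => rw [map_neg]; exact AddSubgroup.neg_mem _ h1
  let φ : H →* (S ⧸ L)ˣ := (Units.map (Ideal.Quotient.mk L : S →* S ⧸ L)).comp H.subtype
  have hφ : ∀ u : H, ((φ u : (S ⧸ L)ˣ) : S ⧸ L) = Ideal.Quotient.mk L ((u : Sˣ) : S) := fun u => rfl
  have : Group.FG H := (Group.fg_iff_subgroup_fg H).mpr hH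
  have hrange : Finite φ.range := by
    refine fin_red hRd φ.range ((Group.fg_iff_subgroup_fg _).mp inferInstance) ?_
    intro Q _ hdom
    have h1 := hD _ hdom ((Ideal.Quotient.mk Q).comp (Ideal.Quotient.mk L))
      (Ideal.Quotient.mk_surjective.comp Ideal.Quotient.mk_surjective)
    have h2 : φ.range.map (Units.map (Ideal.Quotient.mk Q : S ⧸ L →* (S ⧸ L) ⧸ Q)) =
        H.map (Units.map (((Ideal.Quotient.mk Q).comp (Ideal.Quotient.mk L) : S →+* (S ⧸ L) ⧸ Q) : S →* (S ⧸ L) ⧸ Q)) := by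
      ext x
      constructor
      · rintro ⟨_, ⟨u, rfl⟩, rfl⟩
        exact ⟨u, u.2, rfl⟩
      · rintro ⟨u, hu, rfl⟩
        exact ⟨_, ⟨⟨u, hu⟩, rfl⟩, rfl⟩
    rw [h2]
    exact h1
  have hker : Finite φ.ker := by
    have hfg : Group.FG φ.ker := inferInstance
    have h1 : (φ.ker.map H.subtype).FG := by
      rw [← Group.fg_iff_subgroup_fg]
      exact Group.fg_of_surjective (f := (φ.ker.equivMapOfInjective H.subtype (Subgroup.subtype_injective H)).toMonoidHom)
        (φ.ker.equivMapOfInjective H.subtype (Subgroup.subtype_injective H)).surjective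
    have h2 : Finite (φ.ker.map H.subtype) := by
      refine fin_cong' L hLF _ h1 ?_ ?_
      · rintro _ ⟨u, _, rfl⟩
        exact ⟨n, hn, hpow _ (hHG u.2)⟩
      rintro _ ⟨u, hu, rfl⟩
      rw [← Ideal.Quotient.eq_zero_iff_mem, map_sub, map_one, sub_eq_zero]
      have h3 : φ u = 1 := hu
      have h4 := hφ u
      rw [h3, Units.val_one] at h4
      exact h4.symm
    exact Finite.of_equiv _ (φ.ker.equivMapOfInjective H.subtype (Subgroup.subtype_injective H)).symm.toEquiv
  exact φ.finite_iff_finite_ker_range.mpr ⟨hker, hrange⟩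

/-- Unipotent-closed groups: `G` contains `1 + w` for every nilpotent element `w` of the subalgebra
generated by `G`. -/
def UCl (K : Type*) {R : Type*} [CommRing K] [Ring R] [Algebra K R] (G : Subgroup Rˣ) : Prop :=
  ∀ w ∈ Algebra.adjoin K (Units.val '' (G : Set Rˣ)), IsNilpotent w → ∃ u ∈ G, (u : R) = 1 + w

/-- The elements of the subalgebra generated by a group of units are sums of multiples of elements of the group. -/
theorem span_group (K : Type*) {R : Type*} [CommRing K] [Ring R] [Algebra K R] (G : Subgroup Rˣ) (a : R)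
    (ha : a ∈ Algebra.adjoin K (Units.val '' (G : Set Rˣ))) :
    a ∈ AddSubgroup.closure {y : R | ∃ (c : K) (u : Rˣ), u ∈ G ∧ y = algebraMap K R c * u} := by
  induction ha using Algebra.adjoin_induction with
  | mem x hx =>
    obtain ⟨u, hu, rfl⟩ := hx
    exact AddSubgroup.subset_closure ⟨1, u, hu, by rw [map_one, one_mul]⟩
  | algebraMap r => exact AddSubgroup.subset_closure ⟨r, 1, G.one_mem, by rw [Units.val_one, mul_one]⟩
  | add x y hx hy h1 h2 => exact AddSubgroup.add_mem _ h1 h2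
  | mul x y hx hy h1 h2 =>
    clear hx hy
    induction h1 using AddSubgroup.closure_induction with
    | mem z hz =>
      induction h2 using AddSubgroup.closure_induction with
      | mem w hw =>
        obtain ⟨c, g, hg, rfl⟩ := hz
        obtain ⟨d, h, hh, rfl⟩ := hw
        refine AddSubgroup.subset_closure ⟨c * d, g * h, G.mul_mem hg hh, ?_⟩
        rw [map_mul, Units.val_mul, mul_assoc, ← mul_assoc (g : R), ← Algebra.commutes d (g : R)]
        simp only [mul_assoc]
      | zero => rw [mul_zero]; exact AddSubgroup.zero_mem _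
      | add y z _ _ h1 h2 => rw [mul_add]; exact AddSubgroup.add_mem _ h1 h2
      | neg y _ h1 => rw [mul_neg]; exact AddSubgroup.neg_mem _ h1
    | zero => rw [zero_mul]; exact AddSubgroup.zero_mem _
    | add y z _ _ h1 h2 => rw [add_mul]; exact AddSubgroup.add_mem _ h1 h2
    | neg y _ h1 => rw [neg_mul]; exact AddSubgroup.neg_mem _ h1

/-- **Main theorem, general form.** A finitely generated subgroup `H` of a unipotent-closed group `G` of
exponent `n` is finite if its images in the domains which are `K`-algebras are finite. -/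
theorem clo_main (n : ℕ) (hn : 0 < n) (K : Type v) {R : Type u} [CommRing K] [Ring R] [Algebra K R] (G : Subgroup Rˣ)
    (hG : ∀ x ∈ G, x ^ n = 1) (hU : UCl K G) (H : Subgroup Rˣ) (hHG : H ≤ G) (hH : H.FG)
    (hD : ∀ (D : Type u) [Ring D] [Algebra K D], IsDomain D →
      ∀ f : Algebra.adjoin K (Units.val '' (G : Set Rˣ)) →ₐ[K] D, Function.Surjective f →
      ∀ ψ : G →* Dˣ, (∀ (u : Rˣ) (hu : u ∈ G), (ψ ⟨u, hu⟩ : D) = f ⟨u, Algebra.subset_adjoin ⟨u, hu, rfl⟩⟩) →
      Finite ((H.subgroupOf G).map ψ)) : Finite H := by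
  classical
  let S := Algebra.adjoin K (Units.val '' (G : Set Rˣ))
  have hmem : ∀ u ∈ G, (u : R) ∈ S := fun u hu => Algebra.subset_adjoin ⟨u, hu, rfl⟩
  let ι : G →* Sˣ :=
    { toFun := fun u => ⟨⟨((u : Rˣ) : R), hmem _ u.2⟩, ⟨((u⁻¹ : G) : Rˣ), hmem _ (u⁻¹).2⟩,
        Subtype.ext (by simp), Subtype.ext (by simp)⟩
      map_one' := Units.ext (Subtype.ext rfl)
      map_mul' := fun u v => Units.ext (Subtype.ext rfl) }
  have hι : Function.Injective ι := by
    intro u v h
    have := congrArg (fun w : Sˣ => ((w : S) : R)) h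
    exact Subtype.ext (Units.ext this)
  have h1 : ∀ x ∈ ι.range, x ^ n = 1 := by
    rintro _ ⟨u, rfl⟩
    rw [← map_pow, show u ^ n = 1 from Subtype.ext (hG u u.2), map_one]
  have h2 : ∀ w : S, IsNilpotent w → ∃ u ∈ ι.range, (u : S) = 1 + w := by
    intro w hw
    obtain ⟨u, hu, hu1⟩ := hU w w.2 (hw.map S.val)
    exact ⟨ι ⟨u, hu⟩, ⟨_, rfl⟩, Subtype.ext hu1⟩
  have h3 : ∀ a : S, a ∈ AddSubgroup.closure {y : S | ∃ (c : S) (u : Sˣ), (∀ r, c * r = r * c) ∧ u ∈ ι.range ∧ y = c * u} := by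
    intro a
    have h4 := span_group K G a a.2
    have h5 : AddSubgroup.closure {y : R | ∃ (c : K) (u : Rˣ), u ∈ G ∧ y = algebraMap K R c * u} ≤
        (AddSubgroup.closure {y : S | ∃ (c : S) (u : Sˣ), (∀ r, c * r = r * c) ∧ u ∈ ι.range ∧ y = c * u}).map
          (S.val : S →+* R).toAddMonoidHom := by
      rw [AddSubgroup.closure_le]
      rintro _ ⟨c, u, hu, rfl⟩
      refine ⟨algebraMap K S c * (ι ⟨u, hu⟩ : Sˣ), AddSubgroup.subset_closure ⟨algebraMap K S c, ι ⟨u, hu⟩,
        fun r => Algebra.commutes c r, ⟨_, rfl⟩, rfl⟩, rfl⟩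
    obtain ⟨b, hb, hb1⟩ := h5 h4
    have : b = a := Subtype.ext hb1
    rw [← this]
    exact hb
  have h5 : Finite ((H.subgroupOf G).map ι) := by
    refine clo_core n hn ι.range h1 h2 h3 _ ?_ ?_ ?_
    · rintro _ ⟨u, _, rfl⟩
      exact ⟨u, rfl⟩
    · rw [← Group.fg_iff_subgroup_fg]
      have h6 : Group.FG H := (Group.fg_iff_subgroup_fg H).mpr hH
      have h7 : Group.FG (H.subgroupOf G) := Group.fg_of_surjective (f := (Subgroup.subgroupOfEquivOfLe hHG).symm.toMonoidHom)
        (Subgroup.subgroupOfEquivOfLe hHG).symm.surjective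
      exact Group.fg_of_surjective (f := ι.subgroupMap (H.subgroupOf G)) (MonoidHom.subgroupMap_surjective _ _)
    · intro D _ hdom f hf
      letI : Algebra K D := RingHom.toAlgebra' (f.comp (algebraMap K S)) (by
        intro c x
        obtain ⟨y, rfl⟩ := hf x
        rw [RingHom.comp_apply, ← map_mul, Algebra.commutes, map_mul])
      let f' : S →ₐ[K] D := { f with commutes' := fun r => rfl }
      have h6 := hD D hdom f' hf ((Units.map (f : S →* D)).comp ι) (fun u hu => rfl)
      rw [← Subgroup.map_map] at h6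
      exact h6
  have h6 : Finite (H.subgroupOf G) := Finite.of_equiv _ ((H.subgroupOf G).equivMapOfInjective ι hι).symm.toEquiv
  exact Finite.of_equiv _ (Subgroup.subgroupOfEquivOfLe hHG).toEquiv

end Q23.UG
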