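import Pool.Agent.Q23.UG.Corner

/-!
# The core: rings without locally finite ideals in which the units of finite order form a group
-/

namespace Q23.UG

variable {A : Type*} [Ring A]

/-- The units of finite order form a group which contains `1 + w` for all nilpotent `w`. -/
structure Good (A : Type*) [Ring A] : Prop where
  mul : ∀ u v : A, Tor u → Tor v → Tor (u * v)
  nil : ∀ w : A, IsNilpotent w → Tor (1 + w)

/-- The weaker condition which is sufficient for reducedness. -/
structure Gd (A : Type*) [Ring A] : Prop where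
  nil2 : ∀ a b : A, a * a = 0 → b * b = 0 → Tor ((1 + a) * (1 + b))
  nil : ∀ w : A, IsNilpotent w → Tor (1 + w)

theorem Good.gd (h : Good A) : Gd A :=
  ⟨fun a b ha hb => h.mul _ _ (h.nil _ ⟨2, by rw [sq, ha]⟩) (h.nil _ ⟨2, by rw [sq, hb]⟩), h.nil⟩

/-- Bounded index on the `p`-torsion part, for every prime `p`. -/
def Bd (A : Type*) [Ring A] : Prop :=
  ∀ p : ℕ, p.Prime → ∃ N : ℕ, ∀ w : A, p • w = 0 → IsNilpotent w → w ^ N = 0

theorem per_swap (w x : A) (h : Per (x * w)) : Per (w * x) := by
  obtain ⟨i, j, hi, hij, hh⟩ := h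
  have key : ∀ n : ℕ, (w * x) ^ (n + 1) = w * (x * w) ^ n * x := by
    intro n
    induction n with
    | zero => simp
    | succ n ih =>
      rw [pow_succ, ih, pow_succ]
      simp only [mul_assoc]
  exact ⟨i + 1, j + 1, by omega, by omega, by rw [key, key, hh]⟩

theorem sq_tor (x : A) (hx : x * x = 0) (k : ℕ) (h : (1 + x) ^ k = 1) : k • x = 0 := by
  have key : ∀ n : ℕ, (1 + x) ^ n = 1 + n • x := by
    intro n
    induction n with
    | zero => simp
    | succ n ih =>
      rw [pow_succ, ih, succ_nsmul]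
      have : (1 + n • x) * (1 + x) = 1 + (n • x + x) + n • (x * x) := by
        rw [mul_add, mul_one, add_mul, one_mul, smul_mul_assoc]; abel
      rw [this, hx, smul_zero, add_zero]
  rw [key] at h
  simpa using h

theorem alg2 (a b : A) (ha : a * a = 0) (hb : b * b = 0) (h : Tor ((1 + a) * (1 + b))) (m : ℕ) (hm : 0 < m)
    (hma : m • a = 0) : Per (a * b) := by
  obtain ⟨k, hk, hk1⟩ := h
  set u := (1 + a) * (1 + b) with hu
  set V := AddSubgroup.closure ((fun x : A => x * (a * b)) '' (Set.range (fun i : ℕ => u ^ i))) with hV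
  have hVfin : (V : Set A).Finite := by
    refine fin_clos _ ((pows_finite u k hk hk1).image _) ?_
    rintro _ ⟨x, -, rfl⟩
    exact ⟨m, hm, by simp only; rw [← mul_smul_comm, ← smul_mul_assoc m a b, hma, zero_mul, mul_zero]⟩
  have hVu : ∀ v ∈ V, u * v ∈ V := by
    intro v hv
    induction hv using AddSubgroup.closure_induction with
    | mem y hy =>
      obtain ⟨_, ⟨i, rfl⟩, rfl⟩ := hy
      refine AddSubgroup.subset_closure ⟨u ^ (i + 1), ⟨i + 1, rfl⟩, ?_⟩
      simp only
      rw [pow_succ', mul_assoc]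
    | zero => rw [mul_zero]; exact V.zero_mem
    | add y z _ _ h1 h2 => rw [mul_add]; exact V.add_mem h1 h2
    | neg y _ h1 => rw [mul_neg]; exact V.neg_mem h1
  have hVun : ∀ n : ℕ, ∀ v ∈ V, u ^ n * v ∈ V := by
    intro n
    induction n with
    | zero => intro v hv; simpa using hv
    | succ n ih =>
      intro v hv
      rw [pow_succ, mul_assoc]
      exact ih _ (hVu v hv)
  have hinv : u ^ (k - 1) = (1 - b) * (1 - a) := by
    have h1 : u * ((1 - b) * (1 - a)) = 1 := by
      have : u * ((1 - b) * (1 - a)) = 1 - a * a - b * b - a * (b * b) + (b * b) * a + a * (b * b) * a := by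
        rw [hu]; noncomm_ring
      rw [this, ha, hb]; simp
    have h2 : u ^ (k - 1) * u = 1 := by
      rw [← pow_succ, show k - 1 + 1 = k by omega, hk1]
    calc u ^ (k - 1) = u ^ (k - 1) * (u * ((1 - b) * (1 - a))) := by rw [h1, mul_one]
      _ = (1 - b) * (1 - a) := by rw [← mul_assoc, h2, one_mul]
  have ht : a * b + b * a = u + u ^ (k - 1) - 2 • (1 : A) := by
    rw [hinv, hu]; noncomm_ring
  have hVt : ∀ v ∈ V, (a * b + b * a) * v ∈ V := by
    intro v hv
    rw [ht, sub_mul, add_mul, smul_mul_assoc, one_mul]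
    exact V.sub_mem (V.add_mem (hVu v hv) (hVun _ v hv)) (V.nsmul_mem hv 2)
  refine periodic_of_finite (a * b) V hVfin ?_
  intro i hi
  induction i, hi using Nat.le_induction with
  | base =>
    refine AddSubgroup.subset_closure ⟨1, ⟨0, by simp⟩, ?_⟩
    simp
  | succ i hi ih =>
    have e : (a * b) ^ (i + 1) = (a * b + b * a) * (a * b) ^ i := by
      obtain ⟨i', rfl⟩ : ∃ i', i = i' + 1 := ⟨i - 1, by omega⟩
      rw [pow_succ' (a * b) (i' + 1), add_mul]
      have : b * a * (a * b) ^ (i' + 1) = 0 := by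
        rw [pow_succ']
        calc b * a * (a * b * (a * b) ^ i') = b * (a * a) * b * (a * b) ^ i' := by noncomm_ring
          _ = 0 := by rw [ha]; simp
      rw [this, add_zero]
    rw [e]
    exact hVt _ ih

theorem per_xbx (hG : Gd A) (x b : A) (hx : x * x = 0) (hb : b * b = 0) (m : ℕ) (hm : 0 < m) (hmx : m • x = 0)
    (r : A) : Per (r * (x * b * x)) := by
  have ha : (x * r * x) * (x * r * x) = 0 := by
    calc (x * r * x) * (x * r * x) = x * r * (x * x) * r * x := by noncomm_ring
      _ = 0 := by rw [hx]; simp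
  have h1 : Per ((x * r * x) * b) := by
    refine alg2 _ b ha hb (hG.nil2 _ _ ha hb) m hm ?_
    rw [← mul_smul_comm, hmx, mul_zero]
  have h2 : Per (x * (r * x * b)) := by
    rwa [show x * (r * x * b) = x * r * x * b by simp only [mul_assoc]]
  have h3 := per_swap _ _ h2
  rwa [show r * x * b * x = r * (x * b * x) by simp only [mul_assoc]] at h3

theorem no_alg_left' (hA : SP A) (hLF : NoLF A) (hB : Bd A) (m : ℕ) (hm : 0 < m) (d : A) (hd : m • d = 0)
    (hper : ∀ r : A, Per (r * d)) : d = 0 := by
  induction m using Nat.strong_induction_on with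
  | _ m ih =>
    rcases Nat.lt_or_ge 1 m with h1 | h1
    · obtain ⟨p, hp, ⟨q, rfl⟩⟩ := Nat.exists_prime_and_dvd (show m ≠ 1 by omega)
      have hq : 0 < q := Nat.pos_of_mul_pos_left hm |> fun h => by
        rcases Nat.eq_zero_or_pos q with h0 | h0
        · rw [h0, mul_zero] at hm; omega
        · exact h0
      obtain ⟨N, hN⟩ := hB p hp
      have h2 : q • d = 0 := by
        refine no_alg_left hA hLF p hp.pos N hN _ ?_ ?_
        · rw [smul_smul, hd]
        · intro r
          rw [mul_smul_comm, ← smul_mul_assoc]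
          exact hper _
      exact ih q (by nlinarith [hp.two_le]) hq h2
    · have : m = 1 := by omega
      subst this
      simpa using hd

/-- `x b x = 0` for all square-zero elements. -/
theorem star (hA : SP A) (hLF : NoLF A) (hG : Gd A) (hB : Bd A) (x b : A) (hx : x * x = 0) (hb : b * b = 0) :
    x * b * x = 0 := by
  obtain ⟨k, hk, hk1⟩ := hG.nil x ⟨2, by rw [sq, hx]⟩
  have hkx := sq_tor x hx k hk1
  refine no_alg_left' hA hLF hB k hk _ ?_ (per_xbx hG x b hx hb k hk hkx)
  rw [← mul_smul_comm, hkx, mul_zero]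

section Cycle

variable (hst : ∀ x b : A, x * x = 0 → b * b = 0 → x * b * x = 0) {P : Ideal A} (hP : IsPr P)

include hst hP

theorem anti (x y : A) (hx : x * x = 0) (hy : y * y = 0) (h : x * y ∉ P) : y * x ∈ P := by
  refine (hP.pr (x * y) (y * x) (fun r => ?_)).resolve_left h
  have h1 : x * (y * r * y) * x = 0 := hst x (y * r * y) hx (by
    calc y * r * y * (y * r * y) = y * r * (y * y) * r * y := by noncomm_ring
      _ = 0 := by rw [hy]; simp)
  have : x * y * r * (y * x) = 0 := by rw [← h1]; noncomm_ring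
  rw [this]
  exact P.zero_mem

theorem repl (w x y : A) (hx : x * x = 0) (hy : y * y = 0) (hwx : w * x ∉ P) (hxy : x * y ∉ P) :
    ∃ y' : A, y' * y' = 0 ∧ w * y' ∉ P ∧ ∀ v : A, y * v ∉ P → y' * v ∉ P := by
  by_cases hwy : w * y ∈ P
  swap
  · exact ⟨y, hy, hwy, fun v h => h⟩
  have hyx : y * x ∈ P := anti hst hP x y hx hy hxy
  obtain ⟨r, hr⟩ : ∃ r, w * x * r * (x * y) ∉ P := by
    by_contra hcon
    push Not at hcon
    rcases hP.pr _ _ hcon with h | h
    · exact hwx h
    · exact hxy h
  have hxyx : x * y * x = 0 := hst x y hx hy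
  have hform : (1 + x * r * x) * y * (1 - x * r * x) = y + x * r * x * y - y * x * r * x := by
    have : (1 + x * r * x) * y * (1 - x * r * x) = y + x * r * x * y - y * x * r * x - x * r * (x * y * x) * r * x := by
      noncomm_ring
    rw [this, hxyx]; simp
  refine ⟨(1 + x * r * x) * y * (1 - x * r * x), ?_, ?_, ?_⟩
  · calc (1 + x * r * x) * y * (1 - x * r * x) * ((1 + x * r * x) * y * (1 - x * r * x))
        = (1 + x * r * x) * (y * y) * (1 - x * r * x) - (1 + x * r * x) * y * (x * r * (x * x) * r * x) * y * (1 - x * r * x) := by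
          noncomm_ring
      _ = 0 := by rw [hx, hy]; simp
  · rw [hform]
    intro hcon
    apply hr
    have e : w * x * r * (x * y) = w * (y + x * r * x * y - y * x * r * x) - w * y + w * y * (x * r * x) := by
      noncomm_ring
    rw [e]
    exact P.add_mem (P.sub_mem hcon hwy) (hP.mul_right _ hwy)
  · intro v hv hcon
    apply hv
    rw [hform] at hcon
    have h1 : y * v + x * r * x * y * v ∈ P := by
      have e : y * v + x * r * x * y * v = (y + x * r * x * y - y * x * r * x) * v + y * x * (r * x * v) := by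
        noncomm_ring
      rw [e]
      exact P.add_mem hcon (hP.mul_right _ hyx)
    have h2 : x * y * v ∈ P := by
      have e : x * y * v = x * (y * v + x * r * x * y * v) - (x * x) * (r * x * y * v) := by noncomm_ring
      rw [e, hx, zero_mul, sub_zero]
      exact P.mul_mem_left _ h1
    have e : y * v = (y * v + x * r * x * y * v) - x * r * (x * y * v) := by noncomm_ring
    rw [e]
    exact P.sub_mem h1 (P.mul_mem_left _ h2)

omit hst hP in
/-- Paths of square-zero elements with nonzero consecutive products modulo `P`. -/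
def Path (P : Ideal A) : ℕ → A → A → Prop
  | 0, x, w => x * w ∉ P
  | (k + 1), x, w => ∃ y : A, y * y = 0 ∧ x * y ∉ P ∧ Path P k y w

theorem no_cycle (k : ℕ) : ∀ x w : A, x * x = 0 → w * w = 0 → w * x ∉ P → Path P k x w → False := by
  induction k with
  | zero =>
    intro x w hx hw h1 h2
    exact h1 (anti hst hP x w hx hw h2)
  | succ k ih =>
    intro x w hx hw h1 h2
    obtain ⟨y, hy, hxy, hpath⟩ := h2
    obtain ⟨y', hy', hwy', htr⟩ := repl hst hP w x y hx hy h1 hxy
    refine ih y' w hy' hw hwy' ?_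
    cases k with
    | zero => exact htr w hpath
    | succ k =>
      obtain ⟨z, hz, hyz, h3⟩ := hpath
      exact ⟨z, hz, htr z hyz, h3⟩

theorem xhx_mem (x h : A) (hx : x * x = 0) (hh : Tor h) : x * h * x ∈ P := by
  by_contra hcon
  obtain ⟨n, hn, hn1⟩ := hh
  rcases Nat.lt_or_ge 1 n with h1 | h1
  swap
  · have : n = 1 := by omega
    subst this
    rw [pow_one] at hn1
    rw [hn1, mul_one, hx] at hcon
    exact hcon P.zero_mem
  set h' := h ^ (n - 1) with hh'
  have hl : h' * h = 1 := by rw [hh', ← pow_succ, show n - 1 + 1 = n by omega, hn1]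
  have hr : h * h' = 1 := by rw [hh', ← pow_succ', show n - 1 + 1 = n by omega, hn1]
  have hli : ∀ i : ℕ, h' ^ i * h ^ i = 1 := fun i => by
    have hc : Commute h' h := by rw [Commute, SemiconjBy, hl, hr]
    rw [← hc.mul_pow, hl, one_pow]
  have hri : ∀ i : ℕ, h ^ i * h' ^ i = 1 := fun i => by
    have hc : Commute h h' := by rw [Commute, SemiconjBy, hl, hr]
    rw [← hc.mul_pow, hr, one_pow]
  set c : ℕ → A := fun i => h ^ i * x * h' ^ i with hc
  have hcsq : ∀ i, c i * c i = 0 := by
    intro i
    calc c i * c i = h ^ i * x * (h' ^ i * h ^ i) * x * h' ^ i := by simp only [hc, mul_assoc]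
      _ = 0 := by rw [hli, mul_one, mul_assoc (h ^ i), hx]; simp
  have hstep : ∀ i, c i * c (i + 1) ∉ P := by
    intro i hmem
    apply hcon
    have e : x * h * x = h' ^ i * (c i * c (i + 1)) * h ^ (i + 1) := by
      have e1 : c i * c (i + 1) = h ^ i * (x * h * x) * h' ^ (i + 1) := by
        have : c i * c (i + 1) = h ^ i * x * (h' ^ i * h ^ i) * h * x * h' ^ (i + 1) := by
          simp only [hc, pow_succ, mul_assoc]
        rw [this, hli]; simp only [mul_one, mul_assoc]
      rw [e1]
      calc x * h * x = (h' ^ i * h ^ i) * (x * h * x) * (h' ^ (i + 1) * h ^ (i + 1)) := by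
            rw [hli, hli]; simp
        _ = _ := by simp only [mul_assoc]
    rw [e]
    exact hP.mul_right _ (P.mul_mem_left _ hmem)
  have hpath : ∀ k i, Path P k (c i) (c (i + k + 1)) := by
    intro k
    induction k with
    | zero => intro i; exact hstep i
    | succ k ih =>
      intro i
      refine ⟨c (i + 1), hcsq _, hstep i, ?_⟩
      have := ih (i + 1)
      rwa [show i + 1 + k + 1 = i + (k + 1) + 1 by ring] at this
  have hcn : c n = c 0 := by
    have : h' ^ n = 1 := by rw [hh', ← pow_mul, mul_comm, pow_mul, hn1, one_pow]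
    simp only [hc, hn1, this, pow_zero]
  have h2 := hpath (n - 2) 1
  rw [show 1 + (n - 2) + 1 = n by omega, hcn] at h2
  exact no_cycle hst hP (n - 2) (c 1) (c 0) (hcsq 1) (hcsq 0) (hstep 0) h2

end Cycle

/-- Semiprimeness. -/
theorem sp_of_noLF (hLF : NoLF A) (hG : Gd A) : SP A := by
  intro z hz
  have hII : ∀ x ∈ idl z, ∀ y ∈ idl z, x * y = 0 := by
    intro x hx y hy
    rw [mem_idl] at hx hy
    induction hx using AddSubgroup.closure_induction with
    | mem x hx =>
      obtain ⟨u, v, rfl⟩ := hx
      induction hy using AddSubgroup.closure_induction with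
      | mem y hy =>
        obtain ⟨u', v', rfl⟩ := hy
        calc u * z * v * (u' * z * v') = u * (z * (v * u') * z) * v' := by noncomm_ring
          _ = 0 := by rw [hz]; simp
      | zero => rw [mul_zero]
      | add y z _ _ h1 h2 => rw [mul_add, h1, h2, add_zero]
      | neg y _ h1 => rw [mul_neg, h1, neg_zero]
    | zero => rw [zero_mul]
    | add y z _ _ h1 h2 => rw [add_mul, h1, h2, add_zero]
    | neg y _ h1 => rw [neg_mul, h1, neg_zero]
  have hlf : LF (idl z : Set A) := by
    intro s hs hsI
    refine ncl_fin (Z := s) hs ?_ ?_ s AddSubgroup.subset_closure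
    · intro x hx
      have hxx := hII x (hsI hx) x (hsI hx)
      obtain ⟨k, hk, hk1⟩ := hG.nil x ⟨2, by rw [sq, hxx]⟩
      exact ⟨k, hk, sq_tor x hxx k hk1⟩
    · intro x hx y hy
      rw [hII x (hsI hx) y (hsI hy)]
      exact AddSubgroup.zero_mem _
  have h1 := hLF (idl z) inferInstance hlf
  have h2 := self_mem_idl z
  rw [h1] at h2
  simpa using h2

/-- **Core theorem.** -/
theorem reduced_of_noLF (hLF : NoLF A) (hG : Gd A) (hB : Bd A)
    (hgen : ∀ a : A, a ∈ AddSubgroup.closure {u : A | Tor u}) : Rd A := by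
  have hA := sp_of_noLF hLF hG
  intro x hx
  by_contra hx0
  obtain ⟨P, hP, hxP⟩ := exists_pr hA x hx0
  have hst := star hA hLF hG hB
  have h1 : ∀ a : A, x * a * x ∈ P := by
    intro a
    have ha := hgen a
    induction ha using AddSubgroup.closure_induction with
    | mem u hu => exact xhx_mem hst hP x u hx hu
    | zero => rw [mul_zero, zero_mul]; exact P.zero_mem
    | add y z _ _ h1 h2 => rw [mul_add, add_mul]; exact P.add_mem h1 h2
    | neg y _ h1 => rw [mul_neg, neg_mul]; exact P.neg_mem h1
  rcases hP.pr x x h1 with h | h <;> exact hxP h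

theorem Rd.per_idem (hR : Rd A) (x : A) (hx : Per x) : ∃ K : ℕ, 0 < K ∧ x ^ K * x ^ K = x ^ K ∧
    (∀ r, x ^ K * r = r * x ^ K) ∧ x * x ^ K = x := by
  obtain ⟨K, hK, hKi⟩ := hx.idem
  refine ⟨K, hK, hKi, hR.central _ hKi, ?_⟩
  have h1 : x * (1 - x ^ K) = 0 := by
    apply hR.nil _ K
    have hcomm : Commute x (1 - x ^ K) := (Commute.one_right x).sub_right (Commute.self_pow x K)
    rw [hcomm.mul_pow]
    obtain ⟨K', rfl⟩ : ∃ K', K = K' + 1 := ⟨K - 1, by omega⟩
    rw [pow_succ' (1 - x ^ (K' + 1)), ← mul_assoc, mul_sub, mul_one, hKi, sub_self, zero_mul]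
  rw [mul_sub, mul_one, sub_eq_zero] at h1
  exact h1.symm

theorem tor_one : Tor (1 : A) := ⟨1, one_pos, by simp⟩

theorem tor_neg_one : Tor (-1 : A) := ⟨2, two_pos, by simp⟩

/-- **Commutativity.** In a reduced ring in which the units of finite order form a group, the units
`g` of finite order such that `m (g - 1) = 0` for some `m > 0` commute with each other. -/
theorem comm_tor (hR : Rd A) (hmul : ∀ u v : A, Tor u → Tor v → Tor (u * v)) (m : ℕ) (hm : 0 < m) (g h : A)
    (hg : Tor g) (hh : Tor h) (hmg : m • (g - 1) = 0) : g * h = h * g := by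
  by_contra hgh
  obtain ⟨P, hP, hc⟩ := exists_pr hR.sp (g * h - h * g) (sub_ne_zero.mpr hgh)
  have := hP.two
  have hmem : ∀ x, (Ideal.Quotient.mk P) x = 0 ↔ x ∈ P := fun x => Ideal.Quotient.eq_zero_iff_mem
  -- central idempotents are trivial modulo `P`
  have htriv : ∀ e : A, e * e = e → e ∈ P ∨ 1 - e ∈ P := by
    intro e he
    refine hP.pr e (1 - e) (fun r => ?_)
    rw [hR.central e he, mul_assoc, mul_sub, mul_one, he, sub_self, mul_zero]
    exact P.zero_mem
  -- `x = g - 1` is periodic
  set x := g - 1 with hx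
  have hperx : Per x := by
    obtain ⟨k, hk, hk1⟩ := hg
    set V := AddSubgroup.closure ((fun y : A => y * x) '' (Set.range (fun i : ℕ => g ^ i))) with hV
    have hVfin : (V : Set A).Finite := by
      refine fin_clos _ ((pows_finite g k hk hk1).image _) ?_
      rintro _ ⟨y, -, rfl⟩
      exact ⟨m, hm, by simp only; rw [← mul_smul_comm, hmg, mul_zero]⟩
    have hVx : ∀ v ∈ V, x * v ∈ V := by
      intro v hv
      induction hv using AddSubgroup.closure_induction with
      | mem y hy =>
        obtain ⟨_, ⟨i, rfl⟩, rfl⟩ := hy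
        have : x * (g ^ i * x) = g ^ (i + 1) * x - g ^ i * x := by
          rw [pow_succ', hx, sub_mul, one_mul, mul_assoc]
        simp only
        rw [this]
        exact V.sub_mem (AddSubgroup.subset_closure ⟨_, ⟨i + 1, rfl⟩, rfl⟩) (AddSubgroup.subset_closure ⟨_, ⟨i, rfl⟩, rfl⟩)
      | zero => rw [mul_zero]; exact V.zero_mem
      | add y z _ _ h1 h2 => rw [mul_add]; exact V.add_mem h1 h2
      | neg y _ h1 => rw [mul_neg]; exact V.neg_mem h1
    refine periodic_of_finite x V hVfin ?_
    intro i hi
    induction i, hi using Nat.le_induction with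
    | base => exact AddSubgroup.subset_closure ⟨1, ⟨0, by simp⟩, by simp⟩
    | succ i hi ih => rw [pow_succ']; exact hVx _ ih
  obtain ⟨K, hK, hKi, hKc, hKx⟩ := hR.per_idem x hperx
  set e := x ^ K with he
  have hme : m • e = 0 := by
    rw [he, show K = (K - 1) + 1 by omega, pow_succ, ← mul_smul_comm, hmg, mul_zero]
  have heP : e ∉ P := by
    intro hmemP
    apply hc
    have hxP : x ∈ P := by rw [← hKx]; exact P.mul_mem_left _ hmemP
    have e2 : g * h - h * g = x * h - h * x := by rw [hx]; noncomm_ring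
    rw [e2]
    exact P.sub_mem (hP.mul_right _ hxP) (P.mul_mem_left _ hxP)
  have h1e : 1 - e ∈ P := (htriv e hKi).resolve_left heP
  -- the key: `1 + w` modulo `P`
  have key : ∀ w : A, Tor w → (1 + w ∈ P ∨ ∃ v : A, Tor v ∧ (1 + w) - v ∈ P) := by
    intro w hw
    obtain ⟨k, hk, hk1⟩ := hw
    set z := e * (1 + w) with hz
    have hperz : Per z := by
      set V := AddSubgroup.closure ((fun y : A => e * y) '' (Set.range (fun i : ℕ => w ^ i))) with hV
      have hVfin : (V : Set A).Finite := by
        refine fin_clos _ ((pows_finite w k hk hk1).image _) ?_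
        rintro _ ⟨y, -, rfl⟩
        exact ⟨m, hm, by simp only; rw [← smul_mul_assoc, hme, zero_mul]⟩
      have hVz : ∀ v ∈ V, z * v ∈ V := by
        intro v hv
        induction hv using AddSubgroup.closure_induction with
        | mem y hy =>
          obtain ⟨_, ⟨i, rfl⟩, rfl⟩ := hy
          have : z * (e * w ^ i) = e * w ^ i + e * w ^ (i + 1) := by
            rw [hz, ← mul_assoc, mul_assoc e, ← hKc (1 + w), ← mul_assoc, hKi, mul_assoc, add_mul, one_mul, mul_add, pow_succ']
          simp only
          rw [this]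
          exact V.add_mem (AddSubgroup.subset_closure ⟨_, ⟨i, rfl⟩, rfl⟩) (AddSubgroup.subset_closure ⟨_, ⟨i + 1, rfl⟩, rfl⟩)
        | zero => rw [mul_zero]; exact V.zero_mem
        | add y z _ _ h1 h2 => rw [mul_add]; exact V.add_mem h1 h2
        | neg y _ h1 => rw [mul_neg]; exact V.neg_mem h1
      refine periodic_of_finite z V hVfin ?_
      intro i hi
      induction i, hi using Nat.le_induction with
      | base =>
        show z ^ 1 ∈ V
        rw [pow_one, hz, mul_add]
        exact V.add_mem (AddSubgroup.subset_closure ⟨1, ⟨0, by simp⟩, by simp⟩) (AddSubgroup.subset_closure ⟨w, ⟨1, by simp⟩, by simp⟩)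
      | succ i hi ih => rw [pow_succ']; exact hVz _ ih
    obtain ⟨L, hL, hLi, hLc, hLz⟩ := hR.per_idem z hperz
    set f := z ^ L with hf
    have hsplit : 1 + w = z + (1 - e) * (1 + w) := by rw [hz]; noncomm_ring
    rcases htriv f hLi with h | h
    · left
      rw [hsplit]
      refine P.add_mem ?_ (hP.mul_right _ h1e)
      rw [← hLz]
      exact P.mul_mem_left _ h
    · right
      refine ⟨z + (1 - f), ⟨L, hL, ?_⟩, ?_⟩
      · have hzf : z * (1 - f) = 0 := by rw [mul_sub, mul_one, hLz, sub_self]
        have hfz : (1 - f) * z = 0 := by rw [sub_mul, one_mul, hLc, hLz, sub_self]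
        have hff : (1 - f) * (1 - f) = 1 - f := by
          have : (1 - f) * (1 - f) = 1 - f - f + f * f := by noncomm_ring
          rw [this, hLi]; noncomm_ring
        have hpow : ∀ n : ℕ, (z + (1 - f)) ^ (n + 1) = z ^ (n + 1) + (1 - f) := by
          intro n
          induction n with
          | zero => simp
          | succ n ih =>
            rw [pow_succ, ih, mul_add, add_mul, add_mul, hfz, add_zero, hff, ← pow_succ]
            have : z ^ (n + 1) * (1 - f) = 0 := by rw [pow_succ, mul_assoc, hzf, mul_zero]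
            rw [this, zero_add]
        obtain ⟨L', rfl⟩ : ∃ L', L = L' + 1 := ⟨L - 1, by omega⟩
        rw [hpow, ← hf]
        abel
      · have : 1 + w - (z + (1 - f)) = (1 - e) * (1 + w) - (1 - f) := by rw [hz]; noncomm_ring
        rw [this]
        exact P.sub_mem (hP.mul_right _ h1e) h
  -- the division ring
  let S : Subring (A ⧸ P) :=
    { carrier := {q | q = 0 ∨ ∃ v : A, Tor v ∧ Ideal.Quotient.mk P v = q}
      zero_mem' := Or.inl rfl
      one_mem' := Or.inr ⟨1, tor_one, map_one _⟩
      mul_mem' := by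
        rintro a b (rfl | ⟨v, hv, rfl⟩) hb
        · left; rw [zero_mul]
        · rcases hb with rfl | ⟨v', hv', rfl⟩
          · left; rw [mul_zero]
          · right; exact ⟨v * v', hmul v v' hv hv', map_mul _ _ _⟩
      add_mem' := by
        rintro a b (rfl | ⟨v, hv, rfl⟩) hb
        · rw [zero_add]; exact hb
        · rcases hb with rfl | ⟨v', hv', rfl⟩
          · rw [add_zero]; right; exact ⟨v, hv, rfl⟩
          · obtain ⟨k, hk, hk1⟩ := hv
            have hv : Tor v := ⟨k, hk, hk1⟩
            have hvi : Tor (v ^ (k - 1)) := by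
              refine ⟨k, hk, ?_⟩
              rw [← pow_mul, mul_comm, pow_mul, hk1, one_pow]
            have e1 : v * (v ^ (k - 1) * v') = v' := by
              rw [← mul_assoc, ← pow_succ', show k - 1 + 1 = k by omega, hk1, one_mul]
            have e2 : v + v' = v * (1 + v ^ (k - 1) * v') := by rw [mul_add, mul_one, e1]
            rw [← map_add, e2]
            rcases key _ (hmul _ _ hvi hv') with h | ⟨y, hy, hy2⟩
            · left
              rw [hmem]
              exact P.mul_mem_left _ h
            · right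
              refine ⟨v * y, hmul _ _ hv hy, ?_⟩
              rw [eq_comm, ← sub_eq_zero, ← map_sub, hmem, ← mul_sub]
              exact P.mul_mem_left _ hy2
      neg_mem' := by
        rintro a (rfl | ⟨v, hv, rfl⟩)
        · left; rw [neg_zero]
        · right; exact ⟨(-1) * v, hmul _ _ tor_neg_one hv, by rw [map_mul, map_neg, map_one, neg_one_mul]⟩ }
  have hcl : ∀ q : S, q = 0 ∨ ∃ k : ℕ, 0 < k ∧ q ^ k = 1 := by
    rintro ⟨q, rfl | ⟨v, ⟨k, hk, hk1⟩, rfl⟩⟩
    · left; rfl
    · right
      refine ⟨k, hk, ?_⟩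
      apply Subtype.ext
      show (Ideal.Quotient.mk P v) ^ k = 1
      rw [← map_pow, hk1, map_one]
  have hnt : Nontrivial S := by
    refine ⟨⟨0, 1, ?_⟩⟩
    intro h01
    apply hc
    have h2 : (0 : A ⧸ P) = 1 := congrArg Subtype.val h01
    have h3 : (1 : A) ∈ P := by rw [← hmem, map_one, ← h2]
    rw [← mul_one (g * h - h * g)]
    exact P.mul_mem_left _ h3
  let D : DivisionRing S := DivisionRing.ofIsUnitOrEqZero (fun q => by
    rcases hcl q with h | ⟨k, hk, h⟩
    · exact Or.inr h
    · left
      obtain ⟨k', rfl⟩ : ∃ k', k = k' + 1 := ⟨k - 1, by omega⟩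
      exact ⟨⟨q, q ^ k', by rw [← pow_succ', h], by rw [← pow_succ, h]⟩, rfl⟩)
  have h3 := @jac_div S D (fun x hx => (hcl x).resolve_left hx) ⟨Ideal.Quotient.mk P g, Or.inr ⟨g, hg, rfl⟩⟩
    ⟨Ideal.Quotient.mk P h, Or.inr ⟨h, hh, rfl⟩⟩
  have h4 : Ideal.Quotient.mk P g * Ideal.Quotient.mk P h = Ideal.Quotient.mk P h * Ideal.Quotient.mk P g :=
    congrArg Subtype.val h3
  apply hc
  rw [← hmem, map_sub, map_mul, map_mul, h4, sub_self]

end Q23.UG
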