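import Pool.Agent.Q23.UG.Lf

/-!
# Jacobson's theorem: a division ring with periodic multiplicative group is commutative
-/

namespace Q23.UG

open Polynomial in
/-- A nonzero linear map `δ` with `δ ^ q = δ` over the field with `q` elements has a nonzero
eigenvalue. -/
theorem eig_exists (K : Type*) [Field K] [Fintype K] (V : Type*) [AddCommGroup V] [Module K V]
    (δ : Module.End K V) (h : δ ^ (Fintype.card K) = δ) (hne : δ ≠ 0) :
    ∃ c : K, c ≠ 0 ∧ ∃ x : V, x ≠ 0 ∧ δ x = c • x := by
  classical
  by_contra hcon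
  push Not at hcon
  have hinj : ∀ s : Finset K, 0 ∉ s → ∀ x : V, aeval δ (∏ c ∈ s, (X - C c)) x = 0 → x = 0 := by
    intro s
    induction s using Finset.induction_on with
    | empty => intro _ x hx; simpa using hx
    | @insert c s hc ih =>
      intro h0 x hx
      rw [Finset.prod_insert hc, mul_comm, map_mul, Module.End.mul_apply] at hx
      have h1 := ih (fun h => h0 (Finset.mem_insert_of_mem h)) _ hx
      by_contra hx0
      refine hcon c (fun h => h0 (by rw [h]; exact Finset.mem_insert_self _ _)) x hx0 ?_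
      simp only [map_sub, aeval_X, aeval_C, LinearMap.sub_apply, Module.algebraMap_end_apply] at h1
      rwa [sub_eq_zero] at h1
  have hprod : (∏ c : K, (X - C c)) = X ^ (Fintype.card K) - (X : K[X]) := by
    have h1 : (X ^ (Fintype.card K) - X : K[X]).Monic := by
      apply monic_X_pow_sub
      rw [degree_X]
      exact_mod_cast Fintype.one_lt_card
    have h2 : Multiset.card (roots (X ^ (Fintype.card K) - X : K[X])) = natDegree (X ^ (Fintype.card K) - X : K[X]) := by
      rw [FiniteField.roots_X_pow_card_sub_X, FiniteField.X_pow_card_sub_X_natDegree_eq _ Fintype.one_lt_card]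
      simp
    have h3 := prod_multiset_X_sub_C_of_monic_of_roots_card_eq h1 h2
    rw [← h3, FiniteField.roots_X_pow_card_sub_X]
    rfl
  apply hne
  ext x
  have h4 : aeval δ (∏ c : K, (X - C c)) x = 0 := by
    rw [hprod]
    simp [h]
  rw [← Finset.mul_prod_erase Finset.univ _ (Finset.mem_univ (0 : K)), mul_comm, map_mul, Module.End.mul_apply] at h4
  have := hinj _ (Finset.notMem_erase _ _) _ h4
  simpa using this

/-- A finite multiplicative set of elements of finite additive order generates a finite subring. -/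
theorem fin_subring {D : Type*} [Ring D] (G : Set D) (hG : G.Finite) (h1 : (1 : D) ∈ G)
    (hmul : ∀ x ∈ G, ∀ y ∈ G, x * y ∈ G) (tors : ∀ x ∈ G, ∃ m : ℕ, 0 < m ∧ m • x = 0) :
    ((Subring.closure G : Subring D) : Set D).Finite := by
  refine (fin_clos G hG tors).subset ?_
  intro x hx
  have hm : ∀ x ∈ AddSubgroup.closure G, ∀ y ∈ AddSubgroup.closure G, x * y ∈ AddSubgroup.closure G := by
    intro x hx y hy
    induction hx using AddSubgroup.closure_induction with
    | mem x hx =>
      induction hy using AddSubgroup.closure_induction with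
      | mem y hy => exact AddSubgroup.subset_closure (hmul x hx y hy)
      | zero => rw [mul_zero]; exact AddSubgroup.zero_mem _
      | add y z _ _ h1 h2 => rw [mul_add]; exact AddSubgroup.add_mem _ h1 h2
      | neg y _ h1 => rw [mul_neg]; exact AddSubgroup.neg_mem _ h1
    | zero => rw [zero_mul]; exact AddSubgroup.zero_mem _
    | add y z _ _ h1 h2 => rw [add_mul]; exact AddSubgroup.add_mem _ h1 h2
    | neg y _ h1 => rw [neg_mul]; exact AddSubgroup.neg_mem _ h1
  have : ∀ x ∈ Subring.closure G, x ∈ AddSubgroup.closure G := by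
    intro x hx
    induction hx using Subring.closure_induction with
    | mem x hx => exact AddSubgroup.subset_closure hx
    | zero => exact AddSubgroup.zero_mem _
    | one => exact AddSubgroup.subset_closure h1
    | add x y _ _ h1 h2 => exact AddSubgroup.add_mem _ h1 h2
    | neg x _ h1 => exact AddSubgroup.neg_mem _ h1
    | mul x y _ _ h1 h2 => exact hm x h1 y h2
  exact this x hx

/-- Powers of an element of finite order. -/
theorem pows_finite {M : Type*} [Monoid M] (x : M) (k : ℕ) (hk : 0 < k) (h : x ^ k = 1) :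
    (Set.range (fun i : ℕ => x ^ i)).Finite := by
  refine ((Set.finite_Iio k).image (fun i : ℕ => x ^ i)).subset ?_
  rintro _ ⟨i, rfl⟩
  refine ⟨i % k, Nat.mod_lt _ hk, ?_⟩
  simp only
  conv_rhs => rw [← Nat.mod_add_div i k, pow_add, pow_mul, h, one_pow, mul_one]

/-- **Jacobson.** A division ring in which all nonzero elements have finite multiplicative order is
commutative. -/
theorem jac_div (D : Type*) [DivisionRing D] (h : ∀ x : D, x ≠ 0 → ∃ k : ℕ, 0 < k ∧ x ^ k = 1) :
    ∀ a b : D, a * b = b * a := by
  classical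
  -- positive characteristic
  have hchar : ∃ m : ℕ, 0 < m ∧ (m : D) = 0 := by
    by_cases h2 : (2 : D) = 0
    · exact ⟨2, by norm_num, by exact_mod_cast h2⟩
    · obtain ⟨k, hk, hk2⟩ := h 2 h2
      refine ⟨2 ^ k - 1, ?_, ?_⟩
      · have : 2 ≤ 2 ^ k := by
          calc 2 = 2 ^ 1 := by norm_num
            _ ≤ 2 ^ k := Nat.pow_le_pow_right (by norm_num) hk
        omega
      · rw [Nat.cast_sub Nat.one_le_two_pow]
        push_cast
        rw [hk2, sub_self]
  obtain ⟨m, hm, hm0⟩ := hchar
  obtain ⟨p, hpc⟩ := CharP.exists D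
  have hp0 : p ≠ 0 := by
    rintro rfl
    have := (CharP.cast_eq_zero_iff D 0 m).mp hm0
    rw [zero_dvd_iff] at this
    omega
  have hp : p.Prime := (CharP.char_is_prime_or_zero D p).resolve_right hp0
  have : Fact p.Prime := ⟨hp⟩
  have htors : ∀ x : D, ∃ m : ℕ, 0 < m ∧ m • x = 0 := fun x => ⟨p, hp.pos, by
    rw [nsmul_eq_mul, CharP.cast_eq_zero, zero_mul]⟩
  intro a b0
  by_contra hab
  have ha0 : a ≠ 0 := by
    rintro rfl
    simp at hab
  obtain ⟨k, hk, hka⟩ := h a ha0
  -- the finite field generated by `a`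
  set G : Set D := Set.range (fun i : ℕ => a ^ i) with hG
  have hGfin : G.Finite := pows_finite a k hk hka
  have hcomm : ∀ x ∈ G, ∀ y ∈ G, x * y = y * x := by
    rintro _ ⟨i, rfl⟩ _ ⟨j, rfl⟩
    simp only [← pow_add, add_comm]
  set K : Subring D := Subring.closure G with hK
  have hKfin : (K : Set D).Finite := fin_subring G hGfin ⟨0, by simp⟩ (by
    rintro _ ⟨i, rfl⟩ _ ⟨j, rfl⟩
    exact ⟨i + j, by simp [pow_add]⟩) (fun x _ => htors x)
  have : Finite K := hKfin
  letI : Fintype K := Fintype.ofFinite K
  letI : CommRing K := Subring.closureCommRingOfComm hcomm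
  letI : Field K := Fintype.fieldOfDomain K
  have hKcomm : ∀ x : K, (x : D) * a = a * x := by
    intro x
    have h1 : a ∈ K := Subring.subset_closure ⟨1, by simp⟩
    have h2 : x * ⟨a, h1⟩ = ⟨a, h1⟩ * x := mul_comm _ _
    exact congrArg Subtype.val h2
  -- the linear map
  let δ : Module.End K D :=
    { toFun := fun x => a * x - x * a
      map_add' := fun x y => by simp only [mul_add, add_mul]; abel
      map_smul' := fun c x => by
        simp only [RingHom.id_apply, Subring.smul_def, smul_eq_mul, mul_sub]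
        rw [← mul_assoc, ← hKcomm, mul_assoc, mul_assoc] }
  have hδ : ∀ x, δ x = a * x - x * a := fun x => rfl
  -- `δ ^ (p ^ s) = δ`
  have hcardK : ∃ s : ℕ, Fintype.card K = p ^ s := by
    have : CharP K p := by
      constructor
      intro x
      rw [← CharP.cast_eq_zero_iff D p x]
      constructor
      · intro hx
        have := congrArg (Subring.subtype K) hx
        simpa using this
      · intro hx
        apply Subtype.ext
        simpa using hx
    obtain ⟨s, -, hs⟩ := FiniteField.card K p
    exact ⟨s, hs⟩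
  obtain ⟨s, hs⟩ := hcardK
  have hpow : ∀ j : ℕ, ∀ x : D, (δ ^ (p ^ j)) x = a ^ (p ^ j) * x - x * a ^ (p ^ j) := by
    intro j x
    have e1 : ∀ n : ℕ, ∀ x : D, (δ ^ n) x = ((AddMonoid.End.mulLeft a - (AddMonoid.End.mulRight a)) ^ n) x := by
      intro n
      induction n with
      | zero => intro x; rfl
      | succ n ih =>
        intro x
        rw [pow_succ, pow_succ, Module.End.mul_apply, ih]
        rfl
    have : CharP (AddMonoid.End D) p := by
      constructor
      intro n
      rw [← CharP.cast_eq_zero_iff D p n]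
      constructor
      · intro hn
        have := congrArg (fun f : AddMonoid.End D => f 1) hn
        simpa using this
      · intro hn
        ext x
        have : ((n : AddMonoid.End D)) x = n • x := by simp
        rw [this, nsmul_eq_mul, hn, zero_mul]
        rfl
    have hc : Commute (AddMonoid.End.mulLeft a) (AddMonoid.End.mulRight a) := by
      ext x
      show a * (x * a) = (a * x) * a
      rw [mul_assoc]
    have hl : ∀ n : ℕ, ∀ x : D, ((AddMonoid.End.mulLeft a) ^ n) x = a ^ n * x := by
      intro n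
      induction n with
      | zero => intro x; simp
      | succ n ih =>
        intro x
        rw [pow_succ]
        show ((AddMonoid.End.mulLeft a) ^ n) (a * x) = _
        rw [ih, pow_succ, mul_assoc]
    have hr : ∀ n : ℕ, ∀ x : D, ((AddMonoid.End.mulRight a) ^ n) x = x * a ^ n := by
      intro n
      induction n with
      | zero => intro x; simp
      | succ n ih =>
        intro x
        rw [pow_succ]
        show ((AddMonoid.End.mulRight a) ^ n) (x * a) = _
        rw [ih, pow_succ', ← mul_assoc]
    rw [e1, sub_pow_char_pow_of_commute (p := p) j hc]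
    rw [← hl, ← hr]
    rfl
  have haq : a ^ (p ^ s) = a := by
    have h1 : a ∈ K := Subring.subset_closure ⟨1, by simp⟩
    have h2 := FiniteField.pow_card (⟨a, h1⟩ : K)
    rw [hs] at h2
    have := congrArg (Subring.subtype K) h2
    simpa using this
  have hδq : δ ^ (Fintype.card K) = δ := by
    rw [hs]
    ext x
    rw [hpow, haq]
    rfl
  have hδ0 : δ ≠ 0 := by
    intro h0
    apply hab
    have : δ b0 = 0 := by rw [h0]; rfl
    rwa [hδ, sub_eq_zero] at this
  obtain ⟨c, hc, b, hb, hcb⟩ := eig_exists K D δ hδq hδ0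
  -- `b` normalizes `K`
  have hcb' : a * b - b * a = c * b := hcb
  have ha1 : a ∈ K := Subring.subset_closure ⟨1, by simp⟩
  have hba : b * a * b⁻¹ = a - c := by
    have : b * a = (a - c) * b := by rw [sub_mul, ← hcb']; abel
    rw [this, mul_assoc, mul_inv_cancel₀ hb, mul_one]
  have hnorm : ∀ x ∈ K, b * x * b⁻¹ ∈ K := by
    intro x hx
    induction hx using Subring.closure_induction with
    | mem x hx =>
      obtain ⟨i, rfl⟩ := hx
      have : b * a ^ i * b⁻¹ = (a - c) ^ i := by
        rw [← hba]
        induction i with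
        | zero => simp [mul_inv_cancel₀ hb]
        | succ i ih =>
          rw [pow_succ, pow_succ, ← ih]
          simp only [mul_assoc, inv_mul_cancel_left₀ hb]
      simp only
      rw [this]
      exact K.pow_mem (K.sub_mem ha1 c.2) i
    | zero => simpa using K.zero_mem
    | one => rw [mul_one, mul_inv_cancel₀ hb]; exact K.one_mem
    | add x y _ _ h1 h2 => rw [mul_add, add_mul]; exact K.add_mem h1 h2
    | neg x _ h1 => rw [mul_neg, neg_mul]; exact K.neg_mem h1
    | mul x y _ _ h1 h2 =>
      have : b * (x * y) * b⁻¹ = (b * x * b⁻¹) * (b * y * b⁻¹) := by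
        simp only [mul_assoc, inv_mul_cancel_left₀ hb]
      rw [this]
      exact K.mul_mem h1 h2
  have hnormi : ∀ i : ℕ, ∀ x ∈ K, ∃ y ∈ K, b ^ i * x = y * b ^ i := by
    intro i
    induction i with
    | zero => intro x hx; exact ⟨x, hx, by simp⟩
    | succ i ih =>
      intro x hx
      obtain ⟨y, hy, hxy⟩ := ih (b * x * b⁻¹) (hnorm x hx)
      refine ⟨y, hy, ?_⟩
      have : b * x = (b * x * b⁻¹) * b := by rw [mul_assoc _ b⁻¹, inv_mul_cancel₀ hb, mul_one]
      rw [pow_succ, mul_assoc, this, ← mul_assoc, hxy, mul_assoc]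
  obtain ⟨kb, hkb, hkb1⟩ := h b hb
  set H : Set D := (fun q : D × D => q.1 * q.2) '' ((K : Set D) ×ˢ (Set.range (fun i : ℕ => b ^ i))) with hH
  have hHfin : H.Finite := (hKfin.prod (pows_finite b kb hkb hkb1)).image _
  have hSfin : ((Subring.closure H : Subring D) : Set D).Finite := by
    refine fin_subring H hHfin ?_ ?_ (fun x _ => htors x)
    · exact ⟨(1, 1), ⟨K.one_mem, ⟨0, by simp⟩⟩, by simp⟩
    · rintro _ ⟨⟨x, _⟩, ⟨hx, ⟨i, rfl⟩⟩, rfl⟩ _ ⟨⟨y, _⟩, ⟨hy, ⟨j, rfl⟩⟩, rfl⟩
      obtain ⟨z, hz, hyz⟩ := hnormi i y hy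
      refine ⟨(x * z, b ^ (i + j)), ⟨K.mul_mem hx hz, ⟨i + j, rfl⟩⟩, ?_⟩
      simp only at hx hy hyz ⊢
      rw [pow_add, show x * b ^ i * (y * b ^ j) = x * (b ^ i * y) * b ^ j by simp only [mul_assoc], hyz]
      simp only [mul_assoc]
  have : Finite (Subring.closure H) := hSfin
  have hfield := Finite.isDomain_to_isField (Subring.closure H)
  have haH : a ∈ Subring.closure H := Subring.subset_closure ⟨(a, 1), ⟨ha1, ⟨0, by simp⟩⟩, by simp⟩
  have hbH : b ∈ Subring.closure H := Subring.subset_closure ⟨(1, b), ⟨K.one_mem, ⟨1, by simp⟩⟩, by simp⟩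
  have h3 := hfield.mul_comm ⟨a, haH⟩ ⟨b, hbH⟩
  have h4 : a * b = b * a := congrArg Subtype.val h3
  rw [h4, sub_self] at hcb'
  have h5 : (c : D) ≠ 0 := by
    intro h
    apply hc
    exact Subtype.ext h
  exact (mul_ne_zero h5 hb) hcb'.symm

end Q23.UG
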