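import Pool.Agent.Q23.UG.Semi
import Pool.Agent.Q23.UG.Jac

/-!
# Reduced corners and locally finite ideals
-/

namespace Q23.UG

variable {A : Type*} [Ring A]

/-- Reduced rings. -/
def Rd (A : Type*) [Ring A] : Prop := ∀ x : A, x * x = 0 → x = 0

/-- Periodic elements. -/
def Per (x : A) : Prop := ∃ i j : ℕ, 0 < i ∧ i < j ∧ x ^ i = x ^ j

/-- Elements of finite multiplicative order. -/
def Tor (x : A) : Prop := ∃ k : ℕ, 0 < k ∧ x ^ k = 1

theorem Rd.sp (h : Rd A) : SP A := fun z hz => h z (by simpa using hz 1)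

theorem Rd.nil (h : Rd A) (x : A) (n : ℕ) (hx : x ^ n = 0) : x = 0 := by
  have h1 : IsReduced A := (isReduced_iff_pow_one_lt 2 (by norm_num)).mpr (fun x hx => h x (by rwa [sq] at hx))
  exact IsReduced.eq_zero x ⟨n, hx⟩

theorem Rd.central (h : Rd A) (e : A) (he : e * e = e) (r : A) : e * r = r * e := by
  have h1 : e * r - e * r * e = 0 := by
    apply h
    have : (e * r - e * r * e) * (e * r - e * r * e) = e * r * (e * r) - e * r * (e * r) * e - e * r * (e * e) * r + e * r * (e * e) * r * e := by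
      noncomm_ring
    rw [this, he]; noncomm_ring
  have h2 : r * e - e * r * e = 0 := by
    apply h
    have : (r * e - e * r * e) * (r * e - e * r * e) = r * e * (r * e) - r * (e * e) * (r * e) - e * r * e * (r * e) + e * r * (e * e) * r * e := by
      noncomm_ring
    rw [this, he]; noncomm_ring
  rw [sub_eq_zero] at h1 h2
  rw [h1, h2]

theorem Per.idem {x : A} (h : Per x) : ∃ K : ℕ, 0 < K ∧ x ^ K * x ^ K = x ^ K := by
  obtain ⟨i, j, _, hij, hh⟩ := h
  obtain ⟨K, hK, _, hK2⟩ := idem_pow x i j hij hh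
  exact ⟨K, hK, hK2⟩

/-- **Jacobson.** A reduced ring with periodic elements is commutative. -/
theorem jac_ring (C : Type*) [Ring C] (hred : Rd C) (hper : ∀ x : C, Per x) : ∀ a b : C, a * b = b * a := by
  intro a b
  by_contra hab
  obtain ⟨P, hP, hc⟩ := exists_pr hred.sp (a * b - b * a) (sub_ne_zero.mpr hab)
  have := hP.two
  have hcl : ∀ q : C ⧸ P, q = 0 ∨ ∃ k : ℕ, 0 < k ∧ q ^ k = 1 := by
    intro q
    obtain ⟨x, rfl⟩ := Ideal.Quotient.mk_surjective q
    obtain ⟨K, hK, hidem⟩ := (hper x).idem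
    have hcen := hred.central _ hidem
    have h1 : x * (1 - x ^ K) = 0 := by
      apply hred.nil _ K
      have hcomm : Commute x (1 - x ^ K) := (Commute.one_right x).sub_right (Commute.self_pow x K)
      rw [hcomm.mul_pow]
      obtain ⟨K', rfl⟩ : ∃ K', K = K' + 1 := ⟨K - 1, by omega⟩
      rw [pow_succ' (1 - x ^ (K' + 1)), ← mul_assoc, mul_sub, mul_one, hidem, sub_self, zero_mul]
    rcases hP.pr (x ^ K) (1 - x ^ K) (fun r => by
      rw [hcen r, mul_assoc, mul_sub, mul_one, hidem, sub_self, mul_zero]; exact P.zero_mem) with h2 | h2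
    · left
      rw [Ideal.Quotient.eq_zero_iff_mem]
      rw [mul_sub, mul_one, sub_eq_zero] at h1
      rw [h1]
      exact P.mul_mem_left _ h2
    · right
      refine ⟨K, hK, ?_⟩
      rw [← map_pow, eq_comm, ← sub_eq_zero, ← map_one (Ideal.Quotient.mk P), ← map_sub]
      exact Ideal.Quotient.eq_zero_iff_mem.mpr h2
  have hnt : Nontrivial (C ⧸ P) := by
    refine ⟨⟨Ideal.Quotient.mk P (a * b - b * a), 0, ?_⟩⟩
    rw [Ne, Ideal.Quotient.eq_zero_iff_mem]
    exact hc
  let D : DivisionRing (C ⧸ P) := DivisionRing.ofIsUnitOrEqZero (fun q => by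
    rcases hcl q with h | ⟨k, hk, h⟩
    · exact Or.inr h
    · left
      obtain ⟨k', rfl⟩ : ∃ k', k = k' + 1 := ⟨k - 1, by omega⟩
      exact ⟨⟨q, q ^ k', by rw [← pow_succ', h], by rw [← pow_succ, h]⟩, rfl⟩)
  have h3 := @jac_div (C ⧸ P) D (fun x hx => (hcl x).resolve_left hx) (Ideal.Quotient.mk P a) (Ideal.Quotient.mk P b)
  apply hc
  rw [← Ideal.Quotient.eq_zero_iff_mem, map_sub, map_mul, map_mul, sub_eq_zero]
  exact h3

/-- The two-sided ideal generated by `a`. -/
def idl (a : A) : Ideal A where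
  carrier := AddSubgroup.closure {y : A | ∃ u v, y = u * a * v}
  add_mem' := fun h1 h2 => AddSubgroup.add_mem _ h1 h2
  zero_mem' := AddSubgroup.zero_mem _
  smul_mem' := by
    intro r w hw
    simp only [smul_eq_mul]
    change w ∈ AddSubgroup.closure {y : A | ∃ u v, y = u * a * v} at hw
    show r * w ∈ AddSubgroup.closure {y : A | ∃ u v, y = u * a * v}
    induction hw using AddSubgroup.closure_induction with
    | mem y hy =>
      obtain ⟨u, v, rfl⟩ := hy
      exact AddSubgroup.subset_closure ⟨r * u, v, by simp only [mul_assoc]⟩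
    | zero => rw [mul_zero]; exact AddSubgroup.zero_mem _
    | add y z _ _ h1 h2 => rw [mul_add]; exact AddSubgroup.add_mem _ h1 h2
    | neg y _ h1 => rw [mul_neg]; exact AddSubgroup.neg_mem _ h1

theorem mem_idl {a x : A} : x ∈ idl a ↔ x ∈ AddSubgroup.closure {y : A | ∃ u v, y = u * a * v} := Iff.rfl

theorem self_mem_idl (a : A) : a ∈ idl a := AddSubgroup.subset_closure ⟨1, 1, by simp⟩

instance idl_two (a : A) : (idl a).IsTwoSided := by
  constructor
  intro w r hw
  rw [mem_idl] at hw ⊢
  induction hw using AddSubgroup.closure_induction with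
  | mem y hy =>
    obtain ⟨u, v, rfl⟩ := hy
    exact AddSubgroup.subset_closure ⟨u, v * r, by simp only [mul_assoc]⟩
  | zero => rw [zero_mul]; exact AddSubgroup.zero_mem _
  | add y z _ _ h1 h2 => rw [add_mul]; exact AddSubgroup.add_mem _ h1 h2
  | neg y _ h1 => rw [neg_mul]; exact AddSubgroup.neg_mem _ h1

/-- Finitary description of the elements of `idl a`. -/
theorem idl_fin (a : A) (s : Set A) (hs : s.Finite) (hsa : s ⊆ (idl a : Set A)) :
    ∃ P : Set (A × A), P.Finite ∧ s ⊆ (AddSubgroup.closure ((fun q : A × A => q.1 * a * q.2) '' P) : Set A) := by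
  have h1 : ∀ x ∈ idl a, ∃ P : Set (A × A), P.Finite ∧ x ∈ AddSubgroup.closure ((fun q : A × A => q.1 * a * q.2) '' P) := by
    intro x hx
    rw [mem_idl] at hx
    induction hx using AddSubgroup.closure_induction with
    | mem y hy =>
      obtain ⟨u, v, rfl⟩ := hy
      exact ⟨{(u, v)}, Set.finite_singleton _, AddSubgroup.subset_closure ⟨(u, v), rfl, rfl⟩⟩
    | zero => exact ⟨∅, Set.finite_empty, AddSubgroup.zero_mem _⟩
    | add y z _ _ h1 h2 =>
      obtain ⟨P, hP, h1⟩ := h1
      obtain ⟨Q, hQ, h2⟩ := h2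
      refine ⟨P ∪ Q, hP.union hQ, AddSubgroup.add_mem _ ?_ ?_⟩
      · exact AddSubgroup.closure_mono (Set.image_mono Set.subset_union_left) h1
      · exact AddSubgroup.closure_mono (Set.image_mono Set.subset_union_right) h2
    | neg y _ h1 =>
      obtain ⟨P, hP, h1⟩ := h1
      exact ⟨P, hP, AddSubgroup.neg_mem _ h1⟩
  induction s, hs using Set.Finite.induction_on with
  | empty => exact ⟨∅, Set.finite_empty, Set.empty_subset _⟩
  | @insert x s hx hs ih =>
    obtain ⟨P, hP, h2⟩ := ih ((Set.subset_insert _ _).trans hsa)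
    obtain ⟨Q, hQ, h3⟩ := h1 x (hsa (Set.mem_insert _ _))
    refine ⟨P ∪ Q, hP.union hQ, Set.insert_subset ?_ ?_⟩
    · exact AddSubgroup.closure_mono (Set.image_mono Set.subset_union_right) h3
    · exact h2.trans (AddSubgroup.closure_mono (Set.image_mono Set.subset_union_left))

/-- A non-unital subring is contained in every additive subgroup generated by a multiplicative set
which contains the generators. -/
theorem ncl_fin {Z : Set A} (hZ : Z.Finite) (tors : ∀ x ∈ Z, ∃ m : ℕ, 0 < m ∧ m • x = 0)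
    (hmul : ∀ x ∈ Z, ∀ y ∈ Z, x * y ∈ AddSubgroup.closure Z) (s : Set A)
    (hs : s ⊆ (AddSubgroup.closure Z : Set A)) : ((ncl s : NonUnitalSubring A) : Set A).Finite := by
  refine (fin_clos Z hZ tors).subset ?_
  intro x hx
  have hm : ∀ x ∈ AddSubgroup.closure Z, ∀ y ∈ AddSubgroup.closure Z, x * y ∈ AddSubgroup.closure Z := by
    intro x hx y hy
    induction hx using AddSubgroup.closure_induction with
    | mem x hx =>
      induction hy using AddSubgroup.closure_induction with
      | mem y hy => exact hmul x hx y hy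
      | zero => rw [mul_zero]; exact AddSubgroup.zero_mem _
      | add y z _ _ h1 h2 => rw [mul_add]; exact AddSubgroup.add_mem _ h1 h2
      | neg y _ h1 => rw [mul_neg]; exact AddSubgroup.neg_mem _ h1
    | zero => rw [zero_mul]; exact AddSubgroup.zero_mem _
    | add y z _ _ h1 h2 => rw [add_mul]; exact AddSubgroup.add_mem _ h1 h2
    | neg y _ h1 => rw [neg_mul]; exact AddSubgroup.neg_mem _ h1
  have : ∀ x ∈ ncl s, x ∈ AddSubgroup.closure Z := by
    intro x hx
    induction hx using NonUnitalSubring.closure_induction with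
    | mem x hx => exact hs hx
    | zero => exact AddSubgroup.zero_mem _
    | add x y _ _ h1 h2 => exact AddSubgroup.add_mem _ h1 h2
    | neg x _ h1 => exact AddSubgroup.neg_mem _ h1
    | mul x y _ _ h1 h2 => exact hm x h1 y h2
  exact this x hx

/-- Finitely many commuting periodic torsion elements generate a finite subring. -/
theorem comm_fin (T : Set A) (hT : T.Finite) (hc : ∀ x ∈ T, ∀ y ∈ T, x * y = y * x) (hp : ∀ x ∈ T, Per x)
    (m : ℕ) (hm : 0 < m) (hmT : ∀ x ∈ T, m • x = 0) : ((ncl T : NonUnitalSubring A) : Set A).Finite := by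
  have h1 : ((Submonoid.closure T : Submonoid A) : Set A).Finite := by
    induction T, hT using Set.Finite.induction_on with
    | empty => simp
    | @insert a s ha hs ih =>
      have h2 := ih (fun x hx y hy => hc x (Set.mem_insert_of_mem _ hx) y (Set.mem_insert_of_mem _ hy))
        (fun x hx => hp x (Set.mem_insert_of_mem _ hx)) (fun x hx => hmT x (Set.mem_insert_of_mem _ hx))
      have hac : ∀ y ∈ Submonoid.closure s, a * y = y * a := by
        intro y hy
        induction hy using Submonoid.closure_induction with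
        | mem y hy => exact hc a (Set.mem_insert _ _) y (Set.mem_insert_of_mem _ hy)
        | one => simp
        | mul y z _ _ h1 h2 => rw [← mul_assoc, h1, mul_assoc, h2, mul_assoc]
      have hpow : (Set.range (fun i : ℕ => a ^ i)).Finite := by
        obtain ⟨i, j, hi, hij, hh⟩ := hp a (Set.mem_insert _ _)
        refine ((Set.finite_Iio j).image (fun i : ℕ => a ^ i)).subset ?_
        rintro _ ⟨n, rfl⟩
        induction n using Nat.strong_induction_on with
        | _ n ih =>
          rcases lt_or_ge n j with hn | hn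
          · exact ⟨n, hn, rfl⟩
          · obtain ⟨l, rfl⟩ := Nat.exists_eq_add_of_le hn
            obtain ⟨n', hn', hn2⟩ := ih (i + l) (by omega)
            refine ⟨n', hn', ?_⟩
            simp only at hn2 ⊢
            rw [hn2, pow_add, pow_add, hh]
      refine ((hpow.prod h2).image (fun q : A × A => q.1 * q.2)).subset ?_
      intro x hx
      have hx' : x ∈ Submonoid.closure (insert a s) := hx
      clear hx
      induction hx' using Submonoid.closure_induction with
      | mem y hy =>
        rcases hy with rfl | hy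
        · exact ⟨(y, 1), ⟨⟨1, by simp⟩, Submonoid.one_mem _⟩, by simp⟩
        · exact ⟨(1, y), ⟨⟨0, by simp⟩, Submonoid.subset_closure hy⟩, by simp⟩
      | one => exact ⟨(1, 1), ⟨⟨0, by simp⟩, Submonoid.one_mem _⟩, by simp⟩
      | mul y z _ _ h1 h2 =>
        obtain ⟨⟨_, t⟩, ⟨⟨i, rfl⟩, ht⟩, rfl⟩ := h1
        obtain ⟨⟨_, t'⟩, ⟨⟨j, rfl⟩, ht'⟩, rfl⟩ := h2
        refine ⟨(a ^ (i + j), t * t'), ⟨⟨i + j, rfl⟩, Submonoid.mul_mem _ ht ht'⟩, ?_⟩
        simp only at ht ht' ⊢
        have h5 : Commute t (a ^ j) := Commute.pow_right (hac t ht).symm j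
        rw [pow_add, mul_assoc, mul_assoc, ← mul_assoc (a ^ j), ← h5.eq]
        simp only [mul_assoc]
  refine ncl_fin (Z := {x | x ∈ Submonoid.closure T ∧ m • x = 0}) (h1.subset (fun x hx => hx.1)) (fun x hx => ⟨m, hm, hx.2⟩) ?_ T ?_
  · rintro x ⟨hx1, hx2⟩ y ⟨hy1, hy2⟩
    refine AddSubgroup.subset_closure ⟨Submonoid.mul_mem _ hx1 hy1, ?_⟩
    rw [← smul_mul_assoc, hx2, zero_mul]
  · intro x hx
    exact AddSubgroup.subset_closure ⟨Submonoid.subset_closure hx, hmT x hx⟩

/-- If the corner `g A g` is reduced with periodic elements, then the ideal generated by `g` is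
locally finite. -/
theorem lf_of_corner (g : A) (hg : g * g = g) (m : ℕ) (hm : 0 < m) (hmg : m • g = 0)
    (hred : ∀ z : A, g * z = z → z * g = z → z * z = 0 → z = 0)
    (hper : ∀ z : A, g * z = z → z * g = z → Per z) : LF (idl g : Set A) := by
  -- the corner is commutative
  have hcomm : ∀ x y : A, g * x = x → x * g = x → g * y = y → y * g = y → x * y = y * x := by
    intro x y h1 h2 h3 h4
    have hi : IsIdempotentElem g := hg
    have key := jac_ring hi.Corner (by
      intro z hz
      have hz1 := z.2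
      rw [Subsemigroup.mem_corner_iff hi] at hz1
      apply Subtype.ext
      exact hred z.1 hz1.1 hz1.2 (congrArg Subtype.val hz)) (by
      intro z
      have hz1 := z.2
      rw [Subsemigroup.mem_corner_iff hi] at hz1
      obtain ⟨i, j, h0, hij, h⟩ := hper z.1 hz1.1 hz1.2
      refine ⟨i, j, h0, hij, ?_⟩
      have hpow : ∀ n : ℕ, 0 < n → ((z ^ n : hi.Corner) : hi.Corner).1 = z.1 ^ n := by
        intro n hn
        induction n, hn using Nat.le_induction with
        | base => simp
        | succ n _ ih =>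
          rw [pow_succ, pow_succ, ← ih]
          rfl
      apply Subtype.ext
      rw [hpow i h0, hpow j (by omega), h])
    have := key ⟨x, (Subsemigroup.mem_corner_iff hi).mpr ⟨h1, h2⟩⟩ ⟨y, (Subsemigroup.mem_corner_iff hi).mpr ⟨h3, h4⟩⟩
    exact congrArg Subtype.val this
  intro s hs hsI
  obtain ⟨P, hP, hsP⟩ := idl_fin g s hs hsI
  set T : Set A := (fun q : (A × A) × (A × A) => g * q.1.2 * q.2.1 * g) '' (P ×ˢ P) with hT
  have hTfin : T.Finite := (hP.prod hP).image _
  have hTg : ∀ x ∈ T, g * x = x ∧ x * g = x := by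
    rintro _ ⟨⟨⟨u, v⟩, ⟨u', v'⟩⟩, _, rfl⟩
    simp only
    constructor
    · simp only [← mul_assoc, hg]
    · simp only [mul_assoc, hg]
  have hW : ((ncl T : NonUnitalSubring A) : Set A).Finite := by
    refine comm_fin T hTfin (fun x hx y hy => hcomm x y (hTg x hx).1 (hTg x hx).2 (hTg y hy).1 (hTg y hy).2)
      (fun x hx => hper x (hTg x hx).1 (hTg x hx).2) m hm (fun x hx => ?_)
    rw [← (hTg x hx).1, ← smul_mul_assoc, hmg, zero_mul]
  set W1 : Set A := insert g ((ncl T : NonUnitalSubring A) : Set A) with hW1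
  have hW1g : ∀ x ∈ W1, g * x = x ∧ x * g = x := by
    rintro x (rfl | hx)
    · exact ⟨hg, hg⟩
    · have hx' : x ∈ ncl T := hx
      clear hx
      induction hx' using NonUnitalSubring.closure_induction with
      | mem x hx => exact hTg x hx
      | zero => simp
      | add x y _ _ h1 h2 => rw [mul_add, add_mul, h1.1, h1.2, h2.1, h2.2]; exact ⟨rfl, rfl⟩
      | neg x _ h1 => rw [mul_neg, neg_mul, h1.1, h1.2]; exact ⟨rfl, rfl⟩
      | mul x y _ _ h1 h2 => rw [← mul_assoc, h1.1, mul_assoc, h2.2]; exact ⟨rfl, rfl⟩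
  set Z : Set A := (fun q : ((A × A) × (A × A)) × A => q.1.1.1 * q.2 * q.1.2.2) '' ((P ×ˢ P) ×ˢ W1) with hZ
  have hZfin : Z.Finite := ((hP.prod hP).prod (hW.insert _)).image _
  refine ncl_fin hZfin ?_ ?_ s ?_
  · rintro _ ⟨⟨⟨⟨u, v⟩, ⟨u', v'⟩⟩, w⟩, ⟨_, hw⟩, rfl⟩
    refine ⟨m, hm, ?_⟩
    simp only at hw ⊢
    rw [← (hW1g w hw).1, ← smul_mul_assoc, ← mul_smul_comm, ← smul_mul_assoc m g w, hmg]
    simp
  · rintro _ ⟨⟨⟨⟨u1, v1⟩, ⟨u1', v1'⟩⟩, w1⟩, ⟨⟨hP1, hP1'⟩, hw1⟩, rfl⟩ _ ⟨⟨⟨⟨u2, v2⟩, ⟨u2', v2'⟩⟩, w2⟩, ⟨⟨hP2, hP2'⟩, hw2⟩, rfl⟩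
    refine AddSubgroup.subset_closure ⟨⟨⟨⟨u1, v1⟩, ⟨u2', v2'⟩⟩, w1 * (g * v1' * u2 * g) * w2⟩, ⟨⟨hP1, hP2'⟩, ?_⟩, ?_⟩
    · have ht : g * v1' * u2 * g ∈ ncl T := NonUnitalSubring.subset_closure ⟨⟨⟨u1', v1'⟩, ⟨u2, v2⟩⟩, ⟨hP1', hP2⟩, rfl⟩
      have h1 : w1 * (g * v1' * u2 * g) ∈ ncl T := by
        rcases hw1 with h | h
        · change w1 = g at h
          subst h
          have : w1 * (w1 * v1' * u2 * w1) = w1 * v1' * u2 * w1 := by simp only [← mul_assoc, hg]
          rw [this]; exact ht
        · exact (ncl T).mul_mem h ht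
      right
      rcases hw2 with h | h
      · change w2 = g at h
        subst h
        have : w1 * (w2 * v1' * u2 * w2) * w2 = w1 * (w2 * v1' * u2 * w2) := by simp only [mul_assoc, hg]
        show w1 * (w2 * v1' * u2 * w2) * w2 ∈ ncl T
        rw [this]; exact h1
      · exact (ncl T).mul_mem h1 h
    · simp only at hw1 hw2 ⊢
      have e1 := (hW1g w1 hw1).2
      have e2 := (hW1g w2 hw2).1
      calc u1 * (w1 * (g * v1' * u2 * g) * w2) * v2' = u1 * (w1 * g) * v1' * u2 * (g * w2) * v2' := by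
            simp only [mul_assoc]
        _ = u1 * w1 * v1' * (u2 * w2 * v2') := by rw [e1, e2]; simp only [mul_assoc]
  · refine hsP.trans ?_
    show ((AddSubgroup.closure _ : AddSubgroup A) : Set A) ⊆ _
    rw [SetLike.coe_subset_coe, AddSubgroup.closure_le]
    rintro _ ⟨⟨u, v⟩, hq, rfl⟩
    exact AddSubgroup.subset_closure ⟨⟨⟨⟨u, v⟩, ⟨u, v⟩⟩, g⟩, ⟨⟨hq, hq⟩, Set.mem_insert _ _⟩, rfl⟩

/-- The descent to a reduced corner. -/
theorem corner_exists (hA : SP A) (m : ℕ) : ∀ k : ℕ, ∀ e : A, e * e = e → e ≠ 0 → m • e = 0 →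
    (∀ z : A, e * z = z → z * e = z → Per z) →
    (∀ w : A, e * w = w → w * e = w → IsNilpotent w → w ^ (k + 1) = 0) →
    ∃ g : A, g * g = g ∧ g ≠ 0 ∧ m • g = 0 ∧ (∀ z : A, g * z = z → z * g = z → Per z) ∧
      (∀ z : A, g * z = z → z * g = z → z * z = 0 → z = 0) := by
  intro k
  induction k with
  | zero =>
    intro e he he0 hme hper hnil
    refine ⟨e, he, he0, hme, hper, fun z h1 h2 h3 => ?_⟩
    have := hnil z h1 h2 ⟨2, by rw [sq, h3]⟩
    simpa using this
  | succ k ih =>
    intro e he he0 hme hper hnil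
    by_cases hc : ∃ c : A, e * c = c ∧ c * e = c ∧ c * c = 0 ∧ c ≠ 0
    swap
    · push Not at hc
      exact ⟨e, he, he0, hme, hper, fun z h1 h2 h3 => hc z h1 h2 h3⟩
    obtain ⟨c, hec, hce, hcc, hc0⟩ := hc
    -- a non-nilpotent element `s c`
    have hs : ∃ x : A, ¬ IsNilpotent (e * x * e * c) := by
      by_contra hcon
      push Not at hcon
      apply hc0
      apply levitzki hA (k + 1 + 1)
      intro x
      have h1 : (e * x * e * c) ^ (k + 1 + 1) = 0 := by
        refine hnil _ ?_ ?_ (hcon x)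
        · simp only [← mul_assoc, he]
        · simp only [mul_assoc, hce]
      have h2 : ∀ n : ℕ, (c * x) ^ n * c = c * (e * x * e * c) ^ n := by
        intro n
        induction n with
        | zero => simp
        | succ n ih =>
          have this : c * x * c = c * (e * x * e * c) := by
            calc c * x * c = (c * e) * x * (e * c) := by rw [hce, hec]
              _ = _ := by simp only [mul_assoc]
          calc (c * x) ^ (n + 1) * c = (c * x) ^ n * (c * x * c) := by rw [pow_succ, mul_assoc]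
            _ = ((c * x) ^ n * c) * (e * x * e * c) := by rw [this]; simp only [mul_assoc]
            _ = c * (e * x * e * c) ^ (n + 1) := by rw [ih, pow_succ]; simp only [mul_assoc]
      rw [h2, h1, mul_zero]
    obtain ⟨x, hx⟩ := hs
    set s := e * x * e with hsdef
    have hes : e * s = s := by rw [hsdef]; simp only [← mul_assoc, he]
    have hse : s * e = s := by rw [hsdef]; simp only [mul_assoc, he]
    obtain ⟨K, hK, hKi⟩ := (hper (s * c) (by rw [← mul_assoc, hes]) (by rw [mul_assoc, hce])).idem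
    set g := (s * c) ^ K with hg
    have hg0 : g ≠ 0 := fun h => hx ⟨K, h⟩
    obtain ⟨s', hs'⟩ : ∃ s', g = s' * c := by
      refine ⟨(s * c) ^ (K - 1) * s, ?_⟩
      rw [hg]
      conv_lhs => rw [show K = (K - 1) + 1 by omega]
      rw [pow_succ, mul_assoc _ s c]
    have heg : e * g = g := by
      rw [hg]
      conv_lhs => rw [show K = (K - 1) + 1 by omega]
      conv_rhs => rw [show K = (K - 1) + 1 by omega]
      rw [pow_succ', ← mul_assoc, ← mul_assoc, hes]
    have hge : g * e = g := by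
      rw [hs', mul_assoc, hce]
    have hgc : g * c = 0 := by rw [hs', mul_assoc, hcc, mul_zero]
    -- matrix units
    set a0 := g * s' with ha0
    set b := c * g with hb
    set a := e * (a0 - a0 * g) * e with ha
    have hgb : g * b = 0 := by rw [hb, ← mul_assoc, hgc, zero_mul]
    have ha0b : a0 * b = g := by
      rw [ha0, hb, mul_assoc, ← mul_assoc s', ← hs', hKi, hKi]
    have hag : a * g = 0 := by
      rw [ha, mul_assoc, heg, mul_assoc, sub_mul, mul_assoc a0 g g, hKi, sub_self, mul_zero]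
    have hga0 : g * a0 = a0 := by rw [ha0, ← mul_assoc, hKi]
    have hga : g * a = a := by
      have : a = (a0 - a0 * g) * e := by
        rw [ha, mul_sub, ← mul_assoc e a0 g, show e * a0 = a0 by rw [ha0, ← mul_assoc, heg]]
      rw [this, ← mul_assoc, mul_sub, ← mul_assoc g a0 g, hga0]
    have heb : e * b = b := by rw [hb, ← mul_assoc, hec]
    have hab : a * b = g := by
      have e0 : a = (a0 - a0 * g) * e := by
        rw [ha, mul_sub, ← mul_assoc e a0 g, show e * a0 = a0 by rw [ha0, ← mul_assoc, heg]]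
      rw [e0, mul_assoc, heb, sub_mul, ha0b, mul_assoc, hgb, mul_zero, sub_zero]
    have haa : a * a = 0 := by
      calc a * a = a * (g * a) := by rw [hga]
        _ = 0 := by rw [← mul_assoc, hag, zero_mul]
    have hea : e * a = a := by rw [ha, ← mul_assoc, ← mul_assoc, he]
    have hae : a * e = a := by rw [ha, mul_assoc, he]
    refine ih g hKi hg0 ?_ ?_ ?_
    · rw [← heg, ← smul_mul_assoc, hme, zero_mul]
    · intro z h1 h2
      refine hper z ?_ ?_
      · rw [← h1, ← mul_assoc, heg]
      · rw [← h2, mul_assoc, hge]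
    · intro y h1 h2 hy
      have hay : a * y = 0 := by rw [← h1, ← mul_assoc, hag, zero_mul]
      have hpow : ∀ j : ℕ, (y + a) ^ (j + 1) = y ^ (j + 1) + y ^ j * a := by
        intro j
        induction j with
        | zero => simp
        | succ j ihj =>
          rw [pow_succ, ihj]
          have : (y ^ (j + 1) + y ^ j * a) * (y + a) = y ^ (j + 1) * y + y ^ (j + 1) * a + y ^ j * (a * y) + y ^ j * (a * a) := by
            noncomm_ring
          rw [this, hay, haa, mul_zero, add_zero, add_zero, ← pow_succ]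
      have hnil' : IsNilpotent (y + a) := by
        obtain ⟨n, hn⟩ := hy
        exact ⟨n + 1, by rw [hpow, hn, pow_succ, hn, zero_mul, zero_mul, add_zero]⟩
      have h3 := hnil (y + a) (by rw [mul_add, hea, ← h1, ← mul_assoc, heg]) (by rw [add_mul, hae, ← h2, mul_assoc, hge]) hnil'
      rw [hpow] at h3
      have h4 : (y ^ (k + 1 + 1) + y ^ (k + 1) * a) * b = 0 := by rw [h3, zero_mul]
      have hyb : y * b = 0 := by rw [← h2, mul_assoc, hgb, mul_zero]
      rw [add_mul, mul_assoc _ a b, hab, pow_succ, mul_assoc, hyb, mul_zero, zero_add, pow_succ, mul_assoc, h2] at h4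
      rw [pow_succ]
      exact h4

/-- If all elements of the left ideal `A d` are periodic, then `d = 0`. -/
theorem no_alg_left (hA : SP A) (hLF : NoLF A) (m : ℕ) (hm : 0 < m) (N : ℕ)
    (hN : ∀ w : A, m • w = 0 → IsNilpotent w → w ^ N = 0) (d : A) (hd : m • d = 0)
    (hper : ∀ r : A, Per (r * d)) : d = 0 := by
  by_contra hd0
  have hx : ∃ x : A, ¬ IsNilpotent (x * d) := by
    by_contra hcon
    push Not at hcon
    apply hd0
    apply levitzki hA N
    intro x
    have h1 : (x * d) ^ N = 0 := hN _ (by rw [← mul_smul_comm, hd, mul_zero]) (hcon x)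
    have h2 : ∀ n : ℕ, (d * x) ^ n * d = d * (x * d) ^ n := by
      intro n
      induction n with
      | zero => simp
      | succ n ih =>
        calc (d * x) ^ (n + 1) * d = ((d * x) ^ n * d) * (x * d) := by rw [pow_succ]; simp only [mul_assoc]
          _ = d * (x * d) ^ (n + 1) := by rw [ih, pow_succ, mul_assoc]
    rw [h2, h1, mul_zero]
  obtain ⟨x, hx⟩ := hx
  obtain ⟨K, hK, hKi⟩ := (hper x).idem
  set e := (x * d) ^ K with he
  have he0 : e ≠ 0 := fun h => hx ⟨K, h⟩
  obtain ⟨y, hy⟩ : ∃ y, e = y * d := by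
    refine ⟨(x * d) ^ (K - 1) * x, ?_⟩
    rw [he]
    conv_lhs => rw [show K = (K - 1) + 1 by omega]
    rw [pow_succ, mul_assoc]
  have hme : m • e = 0 := by rw [hy, ← mul_smul_comm, hd, mul_zero]
  obtain ⟨g, hg, hg0, hmg, hgper, hgred⟩ := corner_exists hA m N e hKi he0 hme (fun z _ h2 => by
    rw [← h2, hy, ← mul_assoc]; exact hper _) (fun w h1 _ h3 => by
    rw [pow_succ, hN w (by rw [← h1, ← smul_mul_assoc, hme, zero_mul]) h3, zero_mul])
  have h1 := hLF (idl g) inferInstance (lf_of_corner g hg m hm hmg hgred hgper)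
  apply hg0
  have h2 := self_mem_idl g
  rw [h1] at h2
  simpa using h2

end Q23.UG
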