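import Pool.Agent.Q23.UG.Bass

/-!
# Roots of unity: the elements of finite order of a torsion-free reduced ring
-/

namespace Q23.UG

theorem totient_small (d : ℕ) (hd : 0 < d) (h : Nat.totient d ≤ 2) : d = 1 ∨ d = 2 ∨ d = 3 ∨ d = 4 ∨ d = 6 := by
  have hpos : 0 < Nat.totient d := Nat.totient_pos.mpr hd
  have hdvd : ∀ c, c ∣ d → Nat.totient c ≤ 2 := fun c hc =>
    (Nat.le_of_dvd hpos (Nat.totient_dvd_of_dvd hc)).trans h
  have h8 : ¬ 8 ∣ d := fun hc => by
    have := hdvd 8 hc
    rw [show Nat.totient 8 = 4 by decide] at this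
    omega
  have h9 : ¬ 9 ∣ d := fun hc => by
    have := hdvd 9 hc
    rw [show Nat.totient 9 = 6 by decide] at this
    omega
  have h12 : ¬ 12 ∣ d := fun hc => by
    have := hdvd 12 hc
    rw [show Nat.totient 12 = 4 by decide] at this
    omega
  have hd12 : d ∣ 12 := by
    rw [Nat.dvd_iff_prime_pow_dvd_dvd]
    intro p k hp hpk
    rcases Nat.eq_zero_or_pos k with rfl | hk
    · simp
    have hp3 : p ≤ 3 := by
      have h1 := hdvd p ((dvd_pow_self p hk.ne').trans hpk)
      rw [Nat.totient_prime hp] at h1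
      omega
    have hp2 := hp.two_le
    interval_cases p
    · have hk2 : k ≤ 2 := by
        by_contra hcon
        exact h8 (((pow_dvd_pow 2 (show 3 ≤ k by omega)).trans hpk))
      interval_cases k <;> decide
    · have hk2 : k ≤ 1 := by
        by_contra hcon
        exact h9 (((pow_dvd_pow 3 (show 2 ≤ k by omega)).trans hpk))
      interval_cases k
      decide
  have hle : d ≤ 12 := Nat.le_of_dvd (by norm_num) hd12
  interval_cases d <;> simp_all <;> revert hd12 <;> decide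

theorem complex_case (α : ℂ) (N : ℕ) (hN : 0 < N) (hα : α ^ N = 1)
    (h : ∀ k : ℕ, 0 < k → Nat.Coprime k N → ∃ M : ℕ, 0 < M ∧ (α - 1) ^ M = (α ^ k - 1) ^ M) :
    α ^ 12 = 1 ∧ α + α ^ 11 = α ^ 5 + α ^ 7 := by
  have hnorm : ‖α‖ = 1 := Complex.norm_eq_one_of_pow_eq_one hα hN.ne'
  have hnk : ∀ k : ℕ, ‖α ^ k‖ = 1 := fun k => by rw [norm_pow, hnorm, one_pow]
  have hre : ∀ z w : ℂ, ‖z‖ = 1 → ‖w‖ = 1 → ‖z - 1‖ = ‖w - 1‖ → z.re = w.re := by
    intro z w hz hw hzw
    have h1 : Complex.normSq (z - 1) = Complex.normSq (w - 1) := by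
      rw [Complex.normSq_eq_norm_sq, Complex.normSq_eq_norm_sq, hzw]
    have h2 : Complex.normSq z = 1 := by rw [Complex.normSq_eq_norm_sq, hz]; norm_num
    have h3 : Complex.normSq w = 1 := by rw [Complex.normSq_eq_norm_sq, hw]; norm_num
    rw [Complex.normSq_apply] at h1 h2 h3
    rw [Complex.normSq_apply] at h1
    simp only [Complex.sub_re, Complex.one_re, Complex.sub_im, Complex.one_im, sub_zero] at h1
    nlinarith
  set d := orderOf α with hd
  have hdN : d ∣ N := orderOf_dvd_of_pow_eq_one hα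
  have hdpos : 0 < d := Nat.pos_of_dvd_of_pos hdN hN
  have hprim : IsPrimitiveRoot α d := IsPrimitiveRoot.orderOf α
  have hkey : ∀ k : ℕ, Nat.Coprime k d → (α ^ k).re = α.re := by
    intro k hk
    -- lift `k` to a residue coprime to `N`
    obtain ⟨k', hk'0, hk'N, hk'd⟩ : ∃ k' : ℕ, 0 < k' ∧ Nat.Coprime k' N ∧ k' ≡ k [MOD d] := by
      have : NeZero N := ⟨hN.ne'⟩
      have : NeZero d := ⟨hdpos.ne'⟩
      obtain ⟨u, hu⟩ := ZMod.unitsMap_surjective hdN (ZMod.unitOfCoprime k hk)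
      refine ⟨(u : ZMod N).val + N, by omega, ?_, ?_⟩
      · simpa using ZMod.val_coe_unit_coprime u
      · have h1 : (((u : ZMod N).val + N : ℕ) : ZMod d) = (k : ZMod d) := by
          have h2 := congrArg (Units.val) hu
          rw [ZMod.unitsMap_val, ZMod.coe_unitOfCoprime] at h2
          rw [← h2]
          push_cast
          rw [show (N : ZMod d) = 0 from (ZMod.natCast_eq_zero_iff N d).mpr hdN, add_zero, ZMod.natCast_val]
        exact (ZMod.natCast_eq_natCast_iff _ _ _).mp h1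
    obtain ⟨M, hM, hMe⟩ := h k' hk'0 hk'N
    have h1 : α ^ k' = α ^ k := by
      rw [← pow_mod_orderOf α k', ← pow_mod_orderOf α k]
      exact congrArg (fun i => α ^ i) hk'd
    rw [h1] at hMe
    have h2 : ‖α - 1‖ ^ M = ‖α ^ k - 1‖ ^ M := by rw [← norm_pow, ← norm_pow, hMe]
    have h3 : ‖α - 1‖ = ‖α ^ k - 1‖ := (pow_left_inj₀ (norm_nonneg _) (norm_nonneg _) hM.ne').mp h2
    exact (hre α (α ^ k) hnorm (hnk k) h3).symm
  have hφ : Nat.totient d ≤ 2 := by
    have h1 : Nat.totient d = ((Finset.range d).filter (fun k => Nat.Coprime d k)).card := rfl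
    rw [h1]
    have h2 : ((Finset.range d).filter (fun k => Nat.Coprime d k)).card ≤ ({α, (starRingEnd ℂ) α} : Finset ℂ).card := by
      refine Finset.card_le_card_of_injOn (fun k => α ^ k) ?_ ?_
      · intro k hk
        have hk' := (Finset.mem_filter.mp hk).2
        have h3 := hkey k hk'.symm
        have h4 : Complex.normSq (α ^ k) = 1 := by rw [Complex.normSq_eq_norm_sq, hnk]; norm_num
        have h5 : Complex.normSq α = 1 := by rw [Complex.normSq_eq_norm_sq, hnorm]; norm_num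
        rw [Complex.normSq_apply] at h4 h5
        have h6 : ((α ^ k).im - α.im) * ((α ^ k).im + α.im) = 0 := by rw [h3] at h4; nlinarith
        simp only [Finset.coe_insert, Finset.coe_singleton, Set.mem_insert_iff, Set.mem_singleton_iff]
        rcases mul_eq_zero.mp h6 with h7 | h7
        · left; exact Complex.ext h3 (by linarith)
        · right; exact Complex.ext (by simpa using h3) (by simp; linarith)
      · intro a ha b hb hab
        have ha' := Finset.mem_range.mp (Finset.mem_filter.mp ha).1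
        have hb' := Finset.mem_range.mp (Finset.mem_filter.mp hb).1
        exact hprim.pow_inj ha' hb' hab
    exact h2.trans Finset.card_le_two
  have hαd : α ^ d = 1 := pow_orderOf_eq_one α
  rcases totient_small d hdpos hφ with h1 | h1 | h1 | h1 | h1
  · rw [h1, pow_one] at hαd
    rw [hαd]; norm_num
  · rw [h1] at hαd
    have e12 : α ^ 12 = (α ^ 2) ^ 6 := by ring
    have e11 : α ^ 11 = (α ^ 2) ^ 5 * α := by ring
    have e5 : α ^ 5 = (α ^ 2) ^ 2 * α := by ring
    have e7 : α ^ 7 = (α ^ 2) ^ 3 * α := by ring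
    rw [e12, e11, e5, e7, hαd]; norm_num
  · rw [h1] at hαd
    have e12 : α ^ 12 = (α ^ 3) ^ 4 := by ring
    have e11 : α ^ 11 = (α ^ 3) ^ 3 * α ^ 2 := by ring
    have e5 : α ^ 5 = (α ^ 3) * α ^ 2 := by ring
    have e7 : α ^ 7 = (α ^ 3) ^ 2 * α := by ring
    rw [e12, e11, e5, e7, hαd]; constructor <;> ring
  · rw [h1] at hαd
    have e12 : α ^ 12 = (α ^ 4) ^ 3 := by ring
    have e11 : α ^ 11 = (α ^ 4) ^ 2 * α ^ 3 := by ring
    have e5 : α ^ 5 = (α ^ 4) * α := by ring
    have e7 : α ^ 7 = (α ^ 4) * α ^ 3 := by ring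
    rw [e12, e11, e5, e7, hαd]; constructor <;> ring
  · rw [h1] at hαd
    have e12 : α ^ 12 = (α ^ 6) ^ 2 := by ring
    have e11 : α ^ 11 = (α ^ 6) * α ^ 5 := by ring
    have e7 : α ^ 7 = (α ^ 6) * α := by ring
    rw [e12, e11, e7, hαd]; constructor <;> ring

open Polynomial in
theorem field_case (K : Type*) [Field K] [CharZero K] (ζ : K) (N : ℕ) (hN : 0 < N) (hζ : ζ ^ N = 1)
    (h : ∀ k : ℕ, 0 < k → Nat.Coprime k N → ∃ M : ℕ, 0 < M ∧ (ζ - 1) ^ M = (ζ ^ k - 1) ^ M) :
    ζ ^ 12 = 1 ∧ ζ + ζ ^ 11 = ζ ^ 5 + ζ ^ 7 := by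
  have hint : IsIntegral ℚ ζ := ⟨X ^ N - 1, monic_X_pow_sub_C 1 hN.ne', by simp [hζ]⟩
  have hirr := minpoly.irreducible hint
  obtain ⟨α, hα⟩ := IsAlgClosed.exists_aeval_eq_zero ℂ (minpoly ℚ ζ) (minpoly.degree_pos hint).ne'
  have hmin : minpoly ℚ α = minpoly ℚ ζ :=
    (minpoly.eq_of_irreducible_of_monic hirr hα (minpoly.monic hint)).symm
  have key : ∀ r : ℚ[X], aeval ζ r = 0 ↔ aeval α r = 0 := by
    intro r
    rw [← minpoly.dvd_iff, ← minpoly.dvd_iff, hmin]
  have h1 : α ^ N = 1 := by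
    have := (key (X ^ N - 1)).mp (by simp [hζ])
    simpa [sub_eq_zero] using this
  have h2 := complex_case α N hN h1 (fun k hk0 hk => by
    obtain ⟨M, hM, hMe⟩ := h k hk0 hk
    refine ⟨M, hM, ?_⟩
    have := (key ((X - 1) ^ M - (X ^ k - 1) ^ M)).mp (by simp [hMe])
    simpa [sub_eq_zero] using this)
  constructor
  · have := (key (X ^ 12 - 1)).mpr (by simp [h2.1])
    simpa [sub_eq_zero] using this
  · have := (key (X + X ^ 11 - (X ^ 5 + X ^ 7))).mpr (by simp [h2.2])
    simpa [sub_eq_zero] using this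

/-- Additively torsion-free rings. -/
def TF (A : Type*) [Ring A] : Prop := ∀ (m : ℕ) (x : A), 0 < m → m • x = 0 → x = 0

open Polynomial in
/-- Elements of finite order of a reduced torsion-free ring satisfying the Bass relations. -/
theorem tf_case {A : Type*} [Ring A] (hR : Rd A) (hTF : TF A) (g : A) (N : ℕ) (hN : 0 < N) (hg : g ^ N = 1)
    (h : ∀ k : ℕ, 0 < k → Nat.Coprime k N → ∃ M : ℕ, 0 < M ∧ (g - 1) ^ M = (g ^ k - 1) ^ M) :
    g ^ 12 = 1 ∧ g + g ^ 11 = g ^ 5 + g ^ 7 := by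
  set f : ℤ[X] →+* A := (aeval g : ℤ[X] →ₐ[ℤ] A).toRingHom with hf
  have hfX : f X = g := by simp [hf]
  have key : ∀ q : ℤ[X], (∀ (K : Type) [Field K] [CharZero K] (ζ : K), ζ ^ N = 1 →
      (∀ k : ℕ, 0 < k → Nat.Coprime k N → ∃ M : ℕ, 0 < M ∧ (ζ - 1) ^ M = (ζ ^ k - 1) ^ M) → eval₂ (Int.castRingHom K) ζ q = 0) → f q = 0 := by
    intro q hq
    by_contra hne
    let M : Submonoid ℤ[X] :=
      { carrier := {y | ∃ n j : ℕ, 0 < n ∧ y = (n : ℤ[X]) * q ^ j}
        one_mem' := ⟨1, 0, one_pos, by simp⟩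
        mul_mem' := by
          rintro _ _ ⟨n, j, hn, rfl⟩ ⟨n', j', hn', rfl⟩
          exact ⟨n * n', j + j', by positivity, by push_cast; ring⟩ }
    have hdisj : Disjoint ((RingHom.ker f : Ideal ℤ[X]) : Set ℤ[X]) (M : Set ℤ[X]) := by
      rw [Set.disjoint_left]
      rintro y hy ⟨n, j, hn, rfl⟩
      have hy' : f ((n : ℤ[X]) * q ^ j) = 0 := hy
      rw [map_mul, map_natCast, map_pow, ← nsmul_eq_mul] at hy'
      exact hne (hR.nil _ j (hTF n _ hn hy'))
    obtain ⟨p, hp, hle, hdis⟩ := Ideal.exists_le_prime_disjoint _ M hdisj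
    have := hp
    let D := ℤ[X] ⧸ p
    have hinj : ∀ n : ℕ, (n : D) = 0 → n = 0 := by
      intro n hn
      by_contra hn0
      have h1 : ((n : ℤ[X])) ∈ p := by
        rw [← Ideal.Quotient.eq_zero_iff_mem, map_natCast]
        exact hn
      refine Set.disjoint_left.mp hdis h1 ⟨n, 0, Nat.pos_of_ne_zero hn0, by simp⟩
    have : CharZero D := charZero_of_inj_zero hinj
    let K := FractionRing D
    have : CharZero K := charZero_of_injective_algebraMap (IsFractionRing.injective D K)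
    let ζ : K := algebraMap D K (Ideal.Quotient.mk p X)
    have hev : ∀ r : ℤ[X], eval₂ (Int.castRingHom K) ζ r = algebraMap D K (Ideal.Quotient.mk p r) := by
      intro r
      have : (eval₂RingHom (Int.castRingHom K) ζ) = (algebraMap D K).comp (Ideal.Quotient.mk p) := by
        apply Polynomial.ringHom_ext
        · intro a; simp
        · simp [ζ]
      exact congrArg (fun φ : ℤ[X] →+* K => φ r) this
    have hker : ∀ r : ℤ[X], f r = 0 → eval₂ (Int.castRingHom K) ζ r = 0 := by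
      intro r hr
      rw [hev, Ideal.Quotient.eq_zero_iff_mem.mpr (hle hr), map_zero]
    have h1 : ζ ^ N = 1 := by
      have := hker (X ^ N - 1) (by simp [hfX, hg])
      simpa [sub_eq_zero] using this
    have h2 := hq K ζ h1 (fun k hk0 hk => by
      obtain ⟨M', hM', hMe⟩ := h k hk0 hk
      refine ⟨M', hM', ?_⟩
      have := hker ((X - 1) ^ M' - (X ^ k - 1) ^ M') (by simp [hfX, hMe])
      simpa [eval₂_pow, eval₂_sub, sub_eq_zero] using this)
    rw [hev] at h2
    have h3 : Ideal.Quotient.mk p q = 0 := IsFractionRing.injective D K (by rw [h2, map_zero])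
    rw [Ideal.Quotient.eq_zero_iff_mem] at h3
    exact Set.disjoint_left.mp hdis h3 ⟨1, 1, one_pos, by simp⟩
  constructor
  · have := key (X ^ 12 - 1) (fun K _ _ ζ h1 h2 => by
      simp [(field_case K ζ N hN h1 h2).1])
    simpa [hfX, sub_eq_zero] using this
  · have := key (X + X ^ 11 - (X ^ 5 + X ^ 7)) (fun K _ _ ζ h1 h2 => by
      simp [(field_case K ζ N hN h1 h2).2])
    simpa [hfX, sub_eq_zero] using this

end Q23.UG
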