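import Pool.Agent.Q23.UG.Clo
import Pool.Agent.Q6.Deg.Main
import Pool.Agent.Q6.FreeAct.Str

/-!
# Groups of units of domains
-/

namespace Q23.UG

universe u v

/-- The element `x` of a `K`-algebra is annihilated by a product of monic polynomials over `K` of
degree at most `d`. -/
def SplitLE (K : Type*) (d : ℕ) {R : Type*} [CommRing K] [Ring R] [Algebra K R] (x : R) : Prop :=
  ∃ l : List (Polynomial K), (∀ q ∈ l, q.Monic ∧ q.natDegree ≤ d) ∧ Polynomial.aeval x l.prod = 0

theorem SplitLE.map {K : Type*} {d : ℕ} {R S : Type*} [CommRing K] [Ring R] [Algebra K R] [Ring S] [Algebra K S]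
    (f : R →ₐ[K] S) {x : R} (h : SplitLE K d x) : SplitLE K d (f x) := by
  obtain ⟨l, h1, h2⟩ := h
  exact ⟨l, h1, by rw [Polynomial.aeval_algHom_apply, h2, map_zero]⟩

theorem SplitLE.root {K : Type*} {d : ℕ} {D : Type*} [CommRing K] [Ring D] [IsDomain D] [Algebra K D] {x : D}
    (h : SplitLE K d x) : ∃ q : Polynomial K, q.Monic ∧ q.natDegree ≤ d ∧ Polynomial.aeval x q = 0 := by
  obtain ⟨l, h1, h2⟩ := h
  rw [map_list_prod, List.prod_eq_zero_iff, List.mem_map] at h2
  obtain ⟨q, hq, hq0⟩ := h2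
  exact ⟨q, (h1 q hq).1, (h1 q hq).2, hq0⟩

open Polynomial in
/-- The fraction field construction. -/
theorem dom_emb (K : Type v) (D : Type u) [CommRing K] [Ring D] [IsDomain D] [Algebra K D] :
    ∃ (F : Type v) (A : Type (max v u)) (_ : Field F) (_ : Ring A) (_ : Algebra F A) (f : D →+* A),
      Function.Injective f ∧ ∀ (x : D) (d : ℕ), SplitLE K d x → Q6.Deg.DegLE F d (f x) := by
  let φ := algebraMap K D
  have hp : (RingHom.ker φ).IsPrime := RingHom.ker_isPrime φ
  let K' := K ⧸ RingHom.ker φ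
  letI : Algebra K' D := RingHom.toAlgebra' (RingHom.kerLift φ) (by
    intro c x
    obtain ⟨c, rfl⟩ := Ideal.Quotient.mk_surjective c
    exact Algebra.commutes c x)
  have hmk : ∀ c : K, algebraMap K' D (Ideal.Quotient.mk _ c) = algebraMap K D c := fun c => rfl
  have hinj : Function.Injective (algebraMap K' D) := RingHom.kerLift_injective φ
  let F := FractionRing K'
  let A := TensorProduct K' F D
  let f : D →ₐ[K'] A := Algebra.TensorProduct.includeRight
  refine ⟨F, A, inferInstance, inferInstance, inferInstance, f.toRingHom, ?_, ?_⟩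
  · have hloc : IsLocalizedModule (nonZeroDivisors K') (TensorProduct.mk K' F D 1) := inferInstance
    rw [injective_iff_map_eq_zero]
    intro x hx
    have h1 : TensorProduct.mk K' F D 1 x = 0 := hx
    rw [IsLocalizedModule.eq_zero_iff (nonZeroDivisors K')] at h1
    obtain ⟨s, hs⟩ := h1
    have h2 : algebraMap K' D s * x = 0 := by
      rw [← Algebra.smul_def]
      exact hs
    rcases mul_eq_zero.mp h2 with h | h
    · exfalso
      have := nonZeroDivisors.ne_zero s.2
      exact this (hinj (by rw [h, map_zero]))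
    · exact h
  · intro x d hx
    obtain ⟨q, hq, hqd, hq0⟩ := hx.root
    let q' : K'[X] := q.map (Ideal.Quotient.mk _)
    have h1 : aeval x q' = 0 := by
      rw [← hq0]
      simp only [aeval_def, q', eval₂_map]
      rfl
    refine ⟨q'.map (algebraMap K' F), ((hq.map _).map _).ne_zero, ?_, ?_⟩
    · exact (natDegree_map_le.trans natDegree_map_le).trans hqd
    · rw [aeval_map_algebraMap]
      have : aeval (f x) q' = f (aeval x q') := aeval_algHom_apply f x q'
      show aeval (f x) q' = 0
      rw [this, h1, map_zero]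

theorem dom_three (K : Type v) (D : Type u) [CommRing K] [Ring D] [IsDomain D] [Algebra K D] (H : Subgroup Dˣ)
    (hH : H.FG) (n : ℕ) (hn : 0 < n) (hHn : ∀ x ∈ H, x ^ n = 1) (h : ∀ x ∈ H, SplitLE K 3 (x : D)) : Finite H := by
  obtain ⟨F, A, _, _, _, f, hf, h1⟩ := dom_emb K D
  let g : H →* A := (f : D →* A).comp ((Units.coeHom D).comp H.subtype)
  have hg : Function.Injective g := by
    intro x y hxy
    exact Subtype.ext (Units.ext (hf hxy))
  have hHG : Group.FG H := (Group.fg_iff_subgroup_fg H).mpr hH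
  obtain ⟨S, hS⟩ := hHG.out
  have h2 := Q6.Deg.main_three (F := F) hg (fun x => h1 _ _ (h _ x.2)) hn (fun x => Subtype.ext (hHn x x.2)) (S : Set H)
    S.finite_toSet
  rw [hS] at h2
  exact Finite.of_equiv _ Subgroup.topEquiv.toEquiv

theorem dom_four (K : Type v) (D : Type u) [CommRing K] [Ring D] [IsDomain D] [Algebra K D] (H : Subgroup Dˣ)
    (hH : H.FG) (k m : ℕ) (hm : 0 < m) (hL : Q6.Deg.InL.{u} m) (hHn : ∀ x ∈ H, x ^ (2 ^ k * m) = 1)
    (h : ∀ x ∈ H, SplitLE K 4 (x : D)) : Finite H := by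
  obtain ⟨F, A, _, _, _, f, hf, h1⟩ := dom_emb K D
  let g : H →* A := (f : D →* A).comp ((Units.coeHom D).comp H.subtype)
  have hg : Function.Injective g := by
    intro x y hxy
    exact Subtype.ext (Units.ext (hf hxy))
  have hHG : Group.FG H := (Group.fg_iff_subgroup_fg H).mpr hH
  obtain ⟨S, hS⟩ := hHG.out
  have h2 := Q6.Deg.main_four (F := F) hg (fun x => h1 _ _ (h _ x.2)) hm hL (fun x => Subtype.ext (hHn x x.2)) (S : Set H)
    S.finite_toSet
  rw [hS] at h2
  exact Finite.of_equiv _ Subgroup.topEquiv.toEquiv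

end Q23.UG
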