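import Pool.Agent.Q23.UG.ZeroC

/-!
# Groups of units of domains: all characteristics
-/

namespace Q23.UG

universe u v

theorem inL_two : Q6.Deg.InL.{u} 2 := by
  intro K _ hK S hS
  have hinj : Function.Injective (MonoidAlgebra.of ℚ K) := MonoidAlgebra.of_injective
  refine Q6.Deg.main_four (F := ℚ) hinj ?_ (k := 1) (m := 1) one_pos inL_one (by simpa using hK) S hS
  intro g
  refine ⟨Polynomial.X ^ 2 - 1, Polynomial.X_pow_sub_C_ne_zero (by norm_num) (1 : ℚ), ?_, ?_⟩
  · exact ((Polynomial.natDegree_X_pow_sub_C (n := 2) (r := (1 : ℚ))).le).trans (by norm_num)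
  · rw [map_sub, map_pow, Polynomial.aeval_X, map_one, ← map_pow, hK, map_one, sub_self]

section

variable {D : Type u} [Ring D] [IsDomain D]

theorem dom_10 (H : Subgroup Dˣ) (hH : H.FG) (hHn : ∀ x ∈ H, x ^ 10 = 1) : Finite H := by
  have hG : ∀ g : H, g ^ 10 = 1 := fun g => Subtype.ext (hHn g g.2)
  have hfree : Q6.FreeAct.IsFree H D := by
    intro g hg w hw
    have h1 : ((g : Dˣ) : D) * w = w := hw
    have h2 : (((g : Dˣ) : D) - 1) * w = 0 := by rw [sub_mul, h1, one_mul, sub_self]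
    rcases mul_eq_zero.mp h2 with h | h
    · exact absurd (Subtype.ext (Units.ext (by rw [Subgroup.coe_one, Units.val_one]; exact sub_eq_zero.mp h))) hg
    · exact h
  obtain ⟨T, hT, hcyc, hcard, hmem⟩ := Q6.FreeAct.exists_T' (V := D) hfree (fun g h _ _ => hG (g * h))
  have hTf : Finite T := by
    apply Nat.finite_of_card_ne_zero
    rcases hcard with h | h <;> rw [h] <;> norm_num
  have hHG : Group.FG H := (Group.fg_iff_subgroup_fg H).mpr hH
  refine fin_exp 2 inL_two T ?_
  intro x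
  rw [hmem, ← pow_mul]
  exact hG x

/-- **Small exponents.** -/
theorem dom_small (n : ℕ) (hn : n ∣ 10 ∨ n ∣ 24 ∨ n ∣ 36) (H : Subgroup Dˣ) (hH : H.FG) (hHn : ∀ x ∈ H, x ^ n = 1) :
    Finite H := by
  have hd : ∀ m, n ∣ m → ∀ x ∈ H, x ^ m = 1 := by
    rintro m ⟨c, rfl⟩ x hx
    rw [pow_mul, hHn x hx, one_pow]
  rcases hn with h | h
  · exact dom_10 H hH (hd 10 h)
  obtain ⟨p, hp⟩ := CharP.exists D
  rcases Nat.eq_zero_or_pos p with rfl | hp0
  · have : CharZero D := CharP.charP_to_charZero D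
    rcases h with h | h
    · exact dom_24 H hH (hd 24 h)
    · exact dom_36 H hH (hd 36 h)
  · refine dom_pos p hp0 (CharP.cast_eq_zero D p) 3 H hH ?_
    rcases h with h | h
    · exact hd _ (h.trans (by norm_num))
    · exact hd _ (h.trans (by norm_num))

end

end Q23.UG
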