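import Pool.Agent.Q23.UG.DomAll

/-!
# Unipotent-closed groups: the final form
-/

namespace Q23.UG

universe u v

section

variable {K : Type v} {R : Type u} [CommRing K] [Ring R] [Algebra K R]

theorem SplitLE.sub {d : ℕ} {S : Subalgebra K R} {x : S} (h : SplitLE K d (x : R)) : SplitLE K d x := by
  obtain ⟨l, h1, h2⟩ := h
  refine ⟨l, h1, ?_⟩
  apply Subtype.val_injective
  have h3 : S.val (Polynomial.aeval x l.prod) = Polynomial.aeval (S.val x) l.prod := (Polynomial.aeval_algHom_apply S.val x l.prod).symm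
  show S.val (Polynomial.aeval x l.prod) = 0
  rw [h3]
  exact h2

/-- The sufficient conditions. -/
def Cond (n : ℕ) (K : Type v) {R : Type u} [CommRing K] [Ring R] [Algebra K R] (G : Subgroup Rˣ) : Prop :=
  G ≤ Subgroup.closure {x : Rˣ | x ∈ G ∧ IsNilpotent ((x : R) - 1)} ∨
    (∀ x ∈ G, SplitLE K 3 (x : R)) ∨
    (∃ k m : ℕ, 1 ≤ m ∧ Q6.Deg.InL.{u} m ∧ n = 2 ^ k * m ∧ ∀ x ∈ G, SplitLE K 4 (x : R)) ∨
    (n ∣ 10 ∨ n ∣ 24 ∨ n ∣ 36) ∨
    ((∃ m : ℕ, 1 ≤ m ∧ (m : R) = 0) ∧ ∃ k : ℕ, n ∣ 9 * 2 ^ k)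

theorem clo_final (n : ℕ) (hn : 0 < n) (G : Subgroup Rˣ) (hG : ∀ x ∈ G, x ^ n = 1) (hU : UCl K G) (hc : Cond n K G)
    (H : Subgroup Rˣ) (hHG : H ≤ G) (hH : H.FG) : Finite H := by
  refine clo_main n hn K G hG hU H hHG hH ?_
  intro D _ _ hdom f hf ψ hψ
  have hHG' : Group.FG H := (Group.fg_iff_subgroup_fg H).mpr hH
  have hfg1 : Group.FG (H.subgroupOf G) := Group.fg_of_surjective (f := (Subgroup.subgroupOfEquivOfLe hHG).symm.toMonoidHom)
    (Subgroup.subgroupOfEquivOfLe hHG).symm.surjective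
  have hfg : ((H.subgroupOf G).map ψ).FG := by
    rw [← Group.fg_iff_subgroup_fg]
    exact Group.fg_of_surjective (f := ψ.subgroupMap (H.subgroupOf G)) (MonoidHom.subgroupMap_surjective _ _)
  have hexp : ∀ x ∈ (H.subgroupOf G).map ψ, x ^ n = 1 := by
    rintro _ ⟨u, _, rfl⟩
    rw [← map_pow, show u ^ n = 1 from Subtype.ext (hG u u.2), map_one]
  have hsplit : ∀ d, (∀ x ∈ G, SplitLE K d (x : R)) → ∀ x ∈ (H.subgroupOf G).map ψ, SplitLE K d (x : D) := by
    rintro d hd _ ⟨u, _, rfl⟩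
    have h1 := hψ u u.2
    rw [show (ψ u : D) = f ⟨((u : Rˣ) : R), Algebra.subset_adjoin ⟨u, u.2, rfl⟩⟩ from h1]
    exact SplitLE.map f (SplitLE.sub (hd u u.2))
  rcases hc with hE | h3 | ⟨k, m, hm, hL, rfl, h4⟩ | hsm | ⟨⟨m, hm, hm0⟩, k, hk⟩
  · have hcl : Subgroup.closure {u : Rˣ | u ∈ G ∧ IsNilpotent ((u : R) - 1)} ≤ G := by
      rw [Subgroup.closure_le]
      exact fun u hu => hu.1
    have h5 : ∀ u (hu : u ∈ G), ψ ⟨u, hu⟩ = 1 := by
      intro u hu
      have hu' := hE hu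
      revert hu
      induction hu' using Subgroup.closure_induction with
      | mem u hu =>
        intro hu'
        obtain ⟨k, hk⟩ := hu.2
        have h6 : ((⟨(u : R), Algebra.subset_adjoin ⟨u, hu', rfl⟩⟩ : Algebra.adjoin K (Units.val '' (G : Set Rˣ))) - 1) ^ k = 0 :=
          Subtype.ext hk
        have h7 : f ((⟨(u : R), Algebra.subset_adjoin ⟨u, hu', rfl⟩⟩ : Algebra.adjoin K (Units.val '' (G : Set Rˣ))) - 1) = 0 := by
          have h8 := congrArg f h6
          rw [map_pow, map_zero] at h8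
          exact IsReduced.eq_zero _ ⟨k, h8⟩
        rw [map_sub, map_one, sub_eq_zero] at h7
        exact Units.ext ((hψ u hu').trans h7)
      | one =>
        intro hu'
        rw [show (⟨1, hu'⟩ : G) = 1 from rfl, map_one]
      | mul x y hx hy h1 h2 =>
        intro hxy
        rw [show (⟨x * y, hxy⟩ : G) = ⟨x, hcl hx⟩ * ⟨y, hcl hy⟩ from rfl, map_mul, h1, h2, one_mul]
      | inv x hx h1 =>
        intro hxy
        rw [show (⟨x⁻¹, hxy⟩ : G) = (⟨x, hcl hx⟩)⁻¹ from rfl, map_inv, h1, inv_one]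
    have h6 : (H.subgroupOf G).map ψ = ⊥ := by
      rw [eq_bot_iff]
      rintro _ ⟨u, _, rfl⟩
      rw [Subgroup.mem_bot]
      exact h5 u u.2
    rw [h6]
    infer_instance
  · exact dom_three K D _ hfg n hn hexp (hsplit 3 h3)
  · exact dom_four K D _ hfg k m hm hL hexp (hsplit 4 h4)
  · exact dom_small n hsm _ hfg hexp
  · refine dom_pos m hm ?_ k _ hfg ?_
    · have h1 : ((m : Algebra.adjoin K (Units.val '' (G : Set Rˣ)))) = 0 := Subtype.ext (by
        show ((m : Algebra.adjoin K (Units.val '' (G : Set Rˣ))) : R) = 0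
        rw [← hm0]
        rfl)
      have h2 := congrArg f h1
      rwa [map_natCast, map_zero] at h2
    · obtain ⟨c, hc⟩ := hk
      intro x hx
      rw [hc, pow_mul, hexp x hx, one_pow]

/-- The reduction to domains, for one finitely generated subgroup. -/
theorem clo_iff (n : ℕ) (hn : 0 < n) (G : Subgroup Rˣ) (hG : ∀ x ∈ G, x ^ n = 1) (hU : UCl K G)
    (H : Subgroup Rˣ) (hHG : H ≤ G) (hH : H.FG) : Finite H ↔ ∀ (D : Type u) [Ring D] [IsDomain D] [Algebra K D]
      (f : Algebra.adjoin K (Units.val '' (G : Set Rˣ)) →ₐ[K] D), Function.Surjective f →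
        (f '' {x | ∃ u ∈ H, (x : R) = (u : Rˣ)}).Finite := by
  constructor
  · intro hfin D _ _ _ f _
    have h1 : {x : Algebra.adjoin K (Units.val '' (G : Set Rˣ)) | ∃ u ∈ H, (x : R) = (u : Rˣ)}.Finite := by
      have h2 : (Units.val '' (H : Set Rˣ)).Finite := (show (H : Set Rˣ).Finite from hfin).image _
      refine Set.Finite.of_finite_image (f := fun x => (x : R)) (h2.subset ?_) (Subtype.val_injective.injOn)
      rintro _ ⟨x, ⟨u, hu, hx⟩, rfl⟩
      exact ⟨u, hu, hx.symm⟩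
    exact h1.image _
  · intro h
    refine clo_main n hn K G hG hU H hHG hH ?_
    intro D _ _ hdom f hf ψ hψ
    have h1 := h D f hf
    have h2 : (Units.val '' (((H.subgroupOf G).map ψ : Subgroup Dˣ) : Set Dˣ)).Finite := by
      refine h1.subset ?_
      rintro _ ⟨_, ⟨u, hu, rfl⟩, rfl⟩
      refine ⟨⟨((u : Rˣ) : R), Algebra.subset_adjoin ⟨u, u.2, rfl⟩⟩, ⟨u, hu, rfl⟩, ?_⟩
      exact (hψ u u.2).symm
    exact Set.Finite.of_finite_image h2 (Units.val_injective.injOn)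

end

end Q23.UG
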