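import Pool.Agent.Q23.UG.Main

/-!
# Rings of positive characteristic whose units of finite order form a group
-/

namespace Q23.UG

variable {R : Type*} [Ring R]

/-- The units of finite order have bounded order, or the nilpotent elements have bounded index. -/
def HBg (R : Type*) [Ring R] : Prop :=
  (∃ n : ℕ, 0 < n ∧ ∀ u : R, Tor u → u ^ n = 1) ∨ (∃ N : ℕ, ∀ w : R, IsNilpotent w → w ^ N = 0)

theorem lift_tor' (L : Ideal R) [L.IsTwoSided] (hL : LF (L : Set R)) (v : R) (h : Tor (Ideal.Quotient.mk L v)) :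
    ∃ u : R, Tor u ∧ Ideal.Quotient.mk L u = Ideal.Quotient.mk L v := by
  obtain ⟨k, hk, hk1⟩ := h
  set π := Ideal.Quotient.mk L with hπ
  have hmem : ∀ x, π x = 0 ↔ x ∈ L := fun x => Ideal.Quotient.eq_zero_iff_mem
  have hl : v ^ k - 1 ∈ L := by rw [← hmem, map_sub, map_pow, hk1, map_one, sub_self]
  have hfin := hL {v ^ k - 1} (Set.finite_singleton _) (by simpa using hl)
  have hpow : ∀ i : ℕ, (v ^ k) ^ i - 1 ∈ ncl {v ^ k - 1} := by
    intro i
    induction i with
    | zero => simp only [pow_zero, sub_self]; exact NonUnitalSubring.zero_mem _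
    | succ i ih =>
      have h1 : v ^ k - 1 ∈ ncl {v ^ k - 1} := NonUnitalSubring.subset_closure rfl
      have : (v ^ k) ^ (i + 1) - 1 = ((v ^ k) ^ i - 1) * (v ^ k - 1) + ((v ^ k) ^ i - 1) + (v ^ k - 1) := by
        rw [pow_succ]; noncomm_ring
      rw [this]
      exact NonUnitalSubring.add_mem _ (NonUnitalSubring.add_mem _ (NonUnitalSubring.mul_mem _ ih h1) ih) h1
  obtain ⟨i, j, hi, hij, hh⟩ := periodic_of_finite (v ^ k) _ (hfin.image (fun x => x + 1)) (fun i _ => ⟨_, hpow i, by simp⟩)
  have hper : Per v := by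
    refine ⟨k * i, k * j, by positivity, Nat.mul_lt_mul_of_pos_left hij hk, ?_⟩
    rw [pow_mul, pow_mul, hh]
  obtain ⟨K, hK, hKi⟩ := hper.idem
  set e := v ^ K with he
  have hπe : π e = 1 := by
    have h1 : π e * π e = π e := by rw [← map_mul, hKi]
    have h2 : π v ^ (K * k - K) * π e = 1 := by
      rw [he, map_pow, ← pow_add, Nat.sub_add_cancel (Nat.le_mul_of_pos_right K hk), mul_comm K k, pow_mul, hk1, one_pow]
    calc π e = (π v ^ (K * k - K) * π e) * π e := by rw [h2, one_mul]
      _ = 1 := by rw [mul_assoc, h1, h2]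
  have hcomm : v * e = e * v := by rw [he]; exact (Commute.self_pow v K)
  have he1 : e * (1 - e) = 0 := by rw [mul_sub, mul_one, hKi, sub_self]
  have h1e : (1 - e) * e = 0 := by rw [sub_mul, one_mul, hKi, sub_self]
  have h11 : (1 - e) * (1 - e) = 1 - e := by rw [mul_sub, mul_one, h1e, sub_zero]
  refine ⟨v * e + (1 - e), ⟨K, hK, ?_⟩, ?_⟩
  · have hpow : ∀ n : ℕ, (v * e + (1 - e)) ^ (n + 1) = v ^ (n + 1) * e + (1 - e) := by
      intro n
      induction n with
      | zero => simp
      | succ n ih =>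
        rw [pow_succ, ih]
        have : (v ^ (n + 1) * e + (1 - e)) * (v * e + (1 - e)) = v ^ (n + 1) * (e * v) * e + v ^ (n + 1) * (e * (1 - e)) + (1 - e) * (v * e) + (1 - e) * (1 - e) := by
          noncomm_ring
        rw [this, hcomm, ← mul_assoc (1 - e), h1e, ← hcomm, he1, h11, mul_zero, zero_mul, add_zero, add_zero]
        rw [pow_succ v (n + 1)]
        simp only [mul_assoc, hKi]
    obtain ⟨K', rfl⟩ : ∃ K', K = K' + 1 := ⟨K - 1, by omega⟩
    rw [hpow, ← he, hKi]
    abel
  · rw [map_add, map_mul, map_sub, map_one, hπe, mul_one, sub_self, add_zero]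

theorem good_quot' (hG : Good R) (L : Ideal R) [L.IsTwoSided] (hL : LF (L : Set R)) : Good (R ⧸ L) := by
  constructor
  · intro u v hu hv
    obtain ⟨u', rfl⟩ := Ideal.Quotient.mk_surjective u
    obtain ⟨v', rfl⟩ := Ideal.Quotient.mk_surjective v
    obtain ⟨a, ha0, ha⟩ := lift_tor' L hL u' hu
    obtain ⟨b, hb0, hb⟩ := lift_tor' L hL v' hv
    rw [← ha, ← hb, ← map_mul]
    exact (hG.mul a b ha0 hb0).map _
  · intro w hw
    obtain ⟨w', rfl⟩ := Ideal.Quotient.mk_surjective w
    obtain ⟨w0, hw0, h⟩ := lift_nil L hL w' hw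
    rw [← h, ← map_one (Ideal.Quotient.mk L), ← map_add]
    exact (hG.nil w0 hw0).map _

theorem bd_quot' (hG : Good R) (hB : HBg R) (L : Ideal R) [L.IsTwoSided] (hL : LF (L : Set R)) : Bd (R ⧸ L) := by
  intro p hp
  rcases hB with ⟨n, hn, h⟩ | ⟨N, hN⟩
  · refine ⟨n, fun w hpw hw => ?_⟩
    refine nil_index p hp n hn w hpw hw ?_
    obtain ⟨w', rfl⟩ := Ideal.Quotient.mk_surjective w
    obtain ⟨w0, hw0, h1⟩ := lift_nil L hL w' hw
    rw [← h1, ← map_one (Ideal.Quotient.mk L), ← map_add, ← map_pow, h _ (hG.nil w0 hw0)]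
  · refine ⟨N, fun w _ hw => ?_⟩
    obtain ⟨w', rfl⟩ := Ideal.Quotient.mk_surjective w
    obtain ⟨w0, hw0, h1⟩ := lift_nil L hL w' hw
    rw [← h1, ← map_pow, hN w0 hw0, map_zero]

theorem fin_cong' (L : Ideal R) (hL : LF (L : Set R)) (H : Subgroup Rˣ) (hH : H.FG)
    (hT : ∀ u ∈ H, Tor (u : R)) (hc : ∀ u ∈ H, (u : R) - 1 ∈ L) : Finite H := by
  obtain ⟨S, hS⟩ := hH
  set s : Set R := (fun u : Rˣ => (u : R) - 1) '' (S : Set Rˣ) with hs
  have hSH : ∀ u ∈ S, u ∈ H := fun u hu => by rw [← hS]; exact Subgroup.subset_closure hu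
  have hsfin : s.Finite := S.finite_toSet.image _
  have hW := hL s hsfin (by
    rintro _ ⟨u, hu, rfl⟩
    exact hc u (hSH u hu))
  have hmul : ∀ x y : R, x - 1 ∈ ncl s → y - 1 ∈ ncl s → x * y - 1 ∈ ncl s := by
    intro x y hx hy
    have : x * y - 1 = (x - 1) * (y - 1) + (x - 1) + (y - 1) := by noncomm_ring
    rw [this]
    exact NonUnitalSubring.add_mem _ (NonUnitalSubring.add_mem _ (NonUnitalSubring.mul_mem _ hx hy) hx) hy
  have hpow : ∀ (x : R), x - 1 ∈ ncl s → ∀ n : ℕ, x ^ n - 1 ∈ ncl s := by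
    intro x hx n
    induction n with
    | zero => simp only [pow_zero, sub_self]; exact NonUnitalSubring.zero_mem _
    | succ n ih => rw [pow_succ]; exact hmul _ _ ih hx
  have key : ∀ u ∈ H, (u : R) - 1 ∈ ncl s := by
    intro u hu
    rw [← hS] at hu
    induction hu using Subgroup.closure_induction with
    | mem u hu => exact NonUnitalSubring.subset_closure ⟨u, hu, rfl⟩
    | one => simp only [Units.val_one, sub_self]; exact NonUnitalSubring.zero_mem _
    | mul x y _ _ h1 h2 => rw [Units.val_mul]; exact hmul _ _ h1 h2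
    | inv x hx h1 =>
      rw [hS] at hx
      obtain ⟨k, hk, hk1⟩ := hT x hx
      have hk1' : x ^ k = 1 := Units.ext (by rw [Units.val_pow_eq_pow_val, hk1, Units.val_one])
      have : x⁻¹ = x ^ (k - 1) := by
        rw [eq_comm, eq_inv_iff_mul_eq_one, ← pow_succ, show k - 1 + 1 = k by omega, hk1']
      rw [this, Units.val_pow_eq_pow_val]
      exact hpow _ h1 _
  have hinj : Function.Injective (fun u : H => (⟨((u : Rˣ) : R) - 1, key u u.2⟩ : {x : R // x ∈ ((ncl s : NonUnitalSubring R) : Set R)})) := by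
    intro u v huv
    have := congrArg Subtype.val huv
    simp only [sub_left_inj] at this
    exact Subtype.ext (Units.ext this)
  have : Finite {x : R // x ∈ ((ncl s : NonUnitalSubring R) : Set R)} := hW
  exact Finite.of_injective _ hinj

/-- **Torsion case, general version.** -/
theorem torsion_case' (hG0 : Good R) (hB : HBg R) (hgen : ∀ a : R, a ∈ AddSubgroup.closure {u : R | Tor u})
    (H : Subgroup Rˣ) (hH : H.FG) (hT : ∀ u ∈ H, Tor (u : R)) (m : ℕ) (hm : 0 < m)
    (hc : ∀ u ∈ H, m • ((u : R) - 1) = 0) : Finite H := by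
  obtain ⟨L, hL2, hLF, hmax⟩ := exists_max_lf R
  have hG := good_quot' hG0 L hLF
  have hRd : Rd (R ⧸ L) := by
    refine reduced_of_noLF (noLF_quot L hLF hmax) hG.gd (bd_quot' hG0 hB L hLF) ?_
    intro a
    obtain ⟨x, rfl⟩ := Ideal.Quotient.mk_surjective a
    have hx := hgen x
    induction hx using AddSubgroup.closure_induction with
    | mem y hy => exact AddSubgroup.subset_closure (hy.map _)
    | zero => rw [map_zero]; exact AddSubgroup.zero_mem _
    | add y z _ _ h1 h2 => rw [map_add]; exact AddSubgroup.add_mem _ h1 h2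
    | neg y _ h1 => rw [map_neg]; exact AddSubgroup.neg_mem _ h1
  let φ : H →* (R ⧸ L)ˣ := (Units.map (Ideal.Quotient.mk L : R →* R ⧸ L)).comp H.subtype
  have hφ : ∀ u : H, ((φ u : (R ⧸ L)ˣ) : R ⧸ L) = Ideal.Quotient.mk L ((u : Rˣ) : R) := fun u => rfl
  have : Group.FG H := (Group.fg_iff_subgroup_fg H).mpr hH
  have hrange : Finite φ.range := by
    have hFG : Group.FG φ.range := inferInstance
    let C : CommGroup φ.range :=
      { (inferInstance : Group φ.range) with
        mul_comm := by
          rintro ⟨_, ⟨u, rfl⟩⟩ ⟨_, ⟨v, rfl⟩⟩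
          apply Subtype.ext
          apply Units.ext
          show (φ u : R ⧸ L) * (φ v : R ⧸ L) = (φ v : R ⧸ L) * (φ u : R ⧸ L)
          rw [hφ, hφ]
          refine comm_tor hRd hG.mul m hm _ _ ((hT _ u.2).map _) ((hT _ v.2).map _) ?_
          rw [← map_one (Ideal.Quotient.mk L), ← map_sub, ← map_nsmul, hc _ u.2, map_zero] }
    refine @CommGroup.finite_of_fg_isMulTorsion φ.range C hFG ?_
    intro x
    obtain ⟨_, ⟨u, rfl⟩⟩ := x
    obtain ⟨k, hk, hk1⟩ := hT u u.2
    rw [isOfFinOrder_iff_pow_eq_one]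
    refine ⟨k, hk, ?_⟩
    apply Subtype.ext
    show (φ u) ^ k = 1
    rw [← map_pow]
    have : u ^ k = 1 := Subtype.ext (Units.ext (by
      show ((u : Rˣ) ^ k : Rˣ).val = 1
      rw [Units.val_pow_eq_pow_val, hk1]))
    rw [this, map_one]
  have hker : Finite φ.ker := by
    have hfg : Group.FG φ.ker := inferInstance
    have h1 : (φ.ker.map H.subtype).FG := by
      rw [← Group.fg_iff_subgroup_fg]
      exact Group.fg_of_surjective (f := (φ.ker.equivMapOfInjective H.subtype (Subgroup.subtype_injective H)).toMonoidHom)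
        (φ.ker.equivMapOfInjective H.subtype (Subgroup.subtype_injective H)).surjective
    have h2 : Finite (φ.ker.map H.subtype) := by
      refine fin_cong' L hLF _ h1 ?_ ?_
      · rintro _ ⟨u, _, rfl⟩
        exact hT _ u.2
      rintro _ ⟨u, hu, rfl⟩
      rw [← Ideal.Quotient.eq_zero_iff_mem, map_sub, map_one, sub_eq_zero]
      have h3 : φ u = 1 := hu
      have h4 := hφ u
      rw [h3, Units.val_one] at h4
      exact h4.symm
    exact Finite.of_equiv _ (φ.ker.equivMapOfInjective H.subtype (Subgroup.subtype_injective H)).symm.toEquiv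
  exact φ.finite_iff_finite_ker_range.mpr ⟨hker, hrange⟩

/-- In positive characteristic, `1 + w` has finite order for nilpotent `w`. -/
theorem tor_one_add (m : ℕ) (hm : 0 < m) (hm1 : (m : R) = 0) (w : R) (hw : IsNilpotent w) : Tor (1 + w) := by
  have hms : ∀ x : R, m • x = 0 := fun x => by rw [nsmul_eq_mul, hm1, zero_mul]
  obtain ⟨s, hs⟩ := hw
  set V := AddSubgroup.closure ((fun i : ℕ => w ^ i) '' (Set.Iio (s + 1))) with hV
  have hVfin : (V : Set R).Finite := fin_clos _ ((Set.finite_Iio _).image _) (fun x _ => ⟨m, hm, hms x⟩)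
  have hwV : ∀ i : ℕ, w ^ i ∈ V := by
    intro i
    rcases Nat.lt_or_ge i (s + 1) with h | h
    · exact AddSubgroup.subset_closure ⟨i, h, rfl⟩
    · rw [pow_eq_zero_of_le (by omega : s ≤ i) hs]; exact V.zero_mem
  have hmul : ∀ v ∈ V, w * v ∈ V := by
    intro v hv
    induction hv using AddSubgroup.closure_induction with
    | mem y hy =>
      obtain ⟨i, _, rfl⟩ := hy
      simp only
      rw [← pow_succ']
      exact hwV _
    | zero => rw [mul_zero]; exact V.zero_mem
    | add y z _ _ h1 h2 => rw [mul_add]; exact V.add_mem h1 h2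
    | neg y _ h1 => rw [mul_neg]; exact V.neg_mem h1
  have h1 : ∀ i : ℕ, (1 + w) ^ i ∈ V := by
    intro i
    induction i with
    | zero => rw [pow_zero]; simpa using hwV 0
    | succ i ih => rw [pow_succ', add_mul, one_mul]; exact V.add_mem ih (hmul _ ih)
  obtain ⟨i, j, hi, hij, hh⟩ := periodic_of_finite (1 + w) V hVfin (fun i _ => h1 i)
  obtain ⟨u, hu⟩ := (show IsNilpotent w from ⟨s, hs⟩).isUnit_one_add
  refine ⟨j - i, by omega, ?_⟩
  rw [← hu] at hh ⊢
  have h2 : u ^ i = u ^ j := Units.ext (by simpa using hh)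
  have h3 : u ^ (j - i) = 1 := by
    have : u ^ i * u ^ (j - i) = u ^ i := by rw [← pow_add, show i + (j - i) = j by omega, ← h2]
    simpa using this
  rw [← Units.val_pow_eq_pow_val, h3, Units.val_one]

/-- **Main theorem in positive characteristic.** If the units of finite order of a ring of positive
characteristic form a group, and have bounded order, or the nilpotent elements have bounded index,
then this group is locally finite. -/
theorem main_pos (m : ℕ) (hm : 0 < m) (hm1 : (m : R) = 0) (hmul : ∀ u v : R, Tor u → Tor v → Tor (u * v))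
    (hB : HBg R) (H : Subgroup Rˣ) (hH : H.FG) (hT : ∀ u ∈ H, Tor (u : R)) : Finite H := by
  classical
  let R0 : Subring R := Subring.closure {u : R | Tor u}
  have hmem : ∀ u : R, Tor u → u ∈ R0 := fun u hu => Subring.subset_closure hu
  have htor : ∀ u : R0, Tor u ↔ Tor (u : R) := by
    intro u
    constructor
    · rintro ⟨k, hk, hk1⟩
      exact ⟨k, hk, by have := congrArg (Subring.subtype R0) hk1; simpa using this⟩
    · rintro ⟨k, hk, hk1⟩
      exact ⟨k, hk, Subtype.ext (by simpa using hk1)⟩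
  have hm0 : (m : R0) = 0 := Subtype.ext (by simpa using hm1)
  have hG : Good R0 := by
    constructor
    · intro u v hu hv
      rw [htor] at hu hv ⊢
      exact hmul _ _ hu hv
    · exact fun w hw => tor_one_add m hm hm0 w hw
  have hB0 : HBg R0 := by
    rcases hB with ⟨n, hn, h⟩ | ⟨N, hN⟩
    · exact Or.inl ⟨n, hn, fun u hu => Subtype.ext (by simpa using h _ ((htor u).mp hu))⟩
    · refine Or.inr ⟨N, fun w hw => ?_⟩
      have := hN w (hw.map R0.subtype)
      exact Subtype.ext (by simpa using this)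
  have hgen : ∀ a : R0, a ∈ AddSubgroup.closure {u : R0 | Tor u} := by
    rintro ⟨a, ha⟩
    have h1 : ∀ a (ha : a ∈ R0), (⟨a, ha⟩ : R0) ∈ AddSubgroup.closure {u : R0 | Tor u} := by
      intro a ha
      induction ha using Subring.closure_induction with
      | mem x hx => exact AddSubgroup.subset_closure ((htor _).mpr hx)
      | zero => exact AddSubgroup.zero_mem _
      | one => exact AddSubgroup.subset_closure tor_one
      | add x y hx hy h1 h2 => exact AddSubgroup.add_mem _ h1 h2
      | neg x hx h1 => exact AddSubgroup.neg_mem _ h1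
      | mul x y hx hy h1 h2 =>
        have h3 : ∀ z ∈ AddSubgroup.closure {u : R0 | Tor u}, ∀ w ∈ AddSubgroup.closure {u : R0 | Tor u}, z * w ∈ AddSubgroup.closure {u : R0 | Tor u} := by
          intro z hz w hw
          induction hz using AddSubgroup.closure_induction with
          | mem z hz =>
            induction hw using AddSubgroup.closure_induction with
            | mem w hw => exact AddSubgroup.subset_closure (hG.mul _ _ hz hw)
            | zero => rw [mul_zero]; exact AddSubgroup.zero_mem _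
            | add y z _ _ h1 h2 => rw [mul_add]; exact AddSubgroup.add_mem _ h1 h2
            | neg y _ h1 => rw [mul_neg]; exact AddSubgroup.neg_mem _ h1
          | zero => rw [zero_mul]; exact AddSubgroup.zero_mem _
          | add y z _ _ h1 h2 => rw [add_mul]; exact AddSubgroup.add_mem _ h1 h2
          | neg y _ h1 => rw [neg_mul]; exact AddSubgroup.neg_mem _ h1
        exact h3 _ h1 _ h2
    exact h1 a ha
  -- transfer of `H`
  let φ : H →* R0ˣ :=
    { toFun := fun u => ⟨⟨((u : Rˣ) : R), hmem _ (hT u u.2)⟩, ⟨((u⁻¹ : H) : Rˣ), hmem _ (hT _ (u⁻¹).2)⟩,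
        Subtype.ext (by simp), Subtype.ext (by simp)⟩
      map_one' := Units.ext (Subtype.ext rfl)
      map_mul' := fun u v => Units.ext (Subtype.ext rfl) }
  have hφ : Function.Injective φ := by
    intro u v h
    have := congrArg (fun w : R0ˣ => ((w : R0) : R)) h
    exact Subtype.ext (Units.ext this)
  have : Group.FG H := (Group.fg_iff_subgroup_fg H).mpr hH
  have hfg : φ.range.FG := by
    rw [← Group.fg_iff_subgroup_fg]
    infer_instance
  have h1 : Finite φ.range := by
    refine torsion_case' hG hB0 hgen φ.range hfg ?_ m hm ?_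
    · rintro _ ⟨u, rfl⟩
      rw [htor]
      exact hT u u.2
    · intro u _
      rw [nsmul_eq_mul, hm0, zero_mul]
  exact Finite.of_injective _ (MonoidHom.rangeRestrict_injective_iff.mpr hφ)

end Q23.UG
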