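import Mathlib

/-!
# Locally finite ideals

A subset `I` of a ring is called locally finite if every finite subset of `I` generates a finite
(non-unital) subring. Extensions of locally finite ideals are locally finite, and every ring has a
largest locally finite ideal.
-/

namespace Q23.UG

variable {A : Type*} [Ring A]

/-- The non-unital subring generated by a set. -/
abbrev ncl (s : Set A) : NonUnitalSubring A := NonUnitalSubring.closure s

/-- Every finite subset of `I` generates a finite non-unital subring. -/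
def LF (I : Set A) : Prop := ∀ s : Set A, s.Finite → s ⊆ I → ((ncl s : NonUnitalSubring A) : Set A).Finite

/-- An additive subgroup generated by finitely many elements of finite order is finite. -/
theorem fin_clos {M : Type*} [AddCommGroup M] (s : Set M) (hs : s.Finite)
    (h : ∀ x ∈ s, ∃ m : ℕ, 0 < m ∧ m • x = 0) : ((AddSubgroup.closure s : AddSubgroup M) : Set M).Finite := by
  induction s, hs using Set.Finite.induction_on with
  | empty => simp
  | @insert a s ha hs ih =>
    have h1 := ih (fun x hx => h x (Set.mem_insert_of_mem _ hx))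
    obtain ⟨m, hm, hma⟩ := h a (Set.mem_insert _ _)
    have h2 : ((AddSubgroup.closure (insert a s) : AddSubgroup M) : Set M) ⊆
        (fun q : ℕ × M => q.1 • a + q.2) '' ((Set.Iio m) ×ˢ ((AddSubgroup.closure s : AddSubgroup M) : Set M)) := by
      intro x hx
      have hx' : x ∈ AddSubgroup.closure (insert a s) := hx
      rw [Set.insert_eq, AddSubgroup.closure_union, AddSubgroup.mem_sup] at hx'
      obtain ⟨y, hy, z, hz, rfl⟩ := hx'
      rw [AddSubgroup.mem_closure_singleton] at hy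
      obtain ⟨k, rfl⟩ := hy
      refine ⟨((k % m).toNat, z), ⟨?_, hz⟩, ?_⟩
      · have : k % m < m := Int.emod_lt_of_pos _ (by exact_mod_cast hm)
        have h0 : 0 ≤ k % m := Int.emod_nonneg _ (by positivity)
        simp only [Set.mem_Iio]
        omega
      · have h0 : 0 ≤ k % m := Int.emod_nonneg _ (by positivity)
        simp only
        congr 1
        have e1 : k • a = (k % m) • a := by
          conv_lhs => rw [← Int.emod_add_mul_ediv k m, add_zsmul, mul_comm, mul_zsmul]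
          rw [natCast_zsmul, hma, smul_zero, add_zero]
        rw [e1, ← natCast_zsmul, Int.toNat_of_nonneg h0]
    exact (((Set.finite_Iio m).prod h1).image _).subset h2

/-- An idempotent power in a periodic situation. -/
theorem idem_pow {M : Type*} [Monoid M] (x : M) (i j : ℕ) (hij : i < j) (h : x ^ i = x ^ j) :
    ∃ K : ℕ, 0 < K ∧ i ≤ K ∧ x ^ K * x ^ K = x ^ K := by
  obtain ⟨d, hd, rfl⟩ : ∃ d, 0 < d ∧ j = i + d := ⟨j - i, by omega, by omega⟩
  have h1 : ∀ m, x ^ (i + m + d) = x ^ (i + m) := by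
    intro m
    rw [show i + m + d = (i + d) + m by ring, pow_add, ← h, ← pow_add]
  have h2 : ∀ k m, x ^ (i + m + k * d) = x ^ (i + m) := by
    intro k
    induction k with
    | zero => intro m; simp
    | succ k ih =>
      intro m
      rw [show i + m + (k + 1) * d = i + (m + k * d) + d by ring, h1,
        show i + (m + k * d) = i + m + k * d by ring, ih]
  have hK : i ≤ (i + 1) * d := by nlinarith
  obtain ⟨m, hm⟩ := Nat.exists_eq_add_of_le hK
  refine ⟨(i + 1) * d, by positivity, hK, ?_⟩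
  rw [← pow_add]
  have := h2 (i + 1) m
  rw [← hm] at this
  exact this

theorem periodic_of_finite {M : Type*} [Monoid M] (x : M) (S : Set M) (hS : S.Finite)
    (h : ∀ i : ℕ, 0 < i → x ^ i ∈ S) : ∃ i j : ℕ, 0 < i ∧ i < j ∧ x ^ i = x ^ j := by
  have hm : Set.MapsTo (fun i : ℕ => x ^ (i + 1)) Set.univ S := fun i _ => h _ (Nat.succ_pos i)
  obtain ⟨i, -, j, -, hne, he⟩ := Set.infinite_univ.exists_ne_map_eq_of_mapsTo hm hS
  rcases lt_or_gt_of_ne hne with h1 | h1
  · exact ⟨i + 1, j + 1, by omega, by omega, he⟩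
  · exact ⟨j + 1, i + 1, by omega, by omega, he.symm⟩

/-- **Extension lemma.** If the ideal `L` is locally finite and the image of the subring generated
by a finite set `s` modulo `L` is finite then the subring generated by `s` is finite. -/
theorem ext_lf (L : Ideal A) [L.IsTwoSided] (hL : LF (L : Set A)) (s : Set A) (hs : s.Finite)
    (h : ((ncl ((Ideal.Quotient.mk L) '' s) : NonUnitalSubring (A ⧸ L)) : Set (A ⧸ L)).Finite) :
    ((ncl s : NonUnitalSubring A) : Set A).Finite := by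
  classical
  set π := Ideal.Quotient.mk L with hπ
  have hmem : ∀ x, π x = 0 ↔ x ∈ L := fun x => Ideal.Quotient.eq_zero_iff_mem
  -- representatives
  have hsurj : Function.Surjective π := Ideal.Quotient.mk_surjective
  choose ρ hρ using hsurj
  set Q : Set (A ⧸ L) := ((ncl (π '' s) : NonUnitalSubring (A ⧸ L)) : Set (A ⧸ L)) with hQ
  have hBQ : ∀ x ∈ ncl s, π x ∈ Q := by
    intro x hx
    induction hx using NonUnitalSubring.closure_induction with
    | mem x hx => exact NonUnitalSubring.subset_closure ⟨x, hx, rfl⟩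
    | zero => rw [map_zero]; exact (ncl (π '' s)).zero_mem
    | add x y _ _ h1 h2 => rw [map_add]; exact (ncl (π '' s)).add_mem h1 h2
    | neg x _ h1 => rw [map_neg]; exact (ncl (π '' s)).neg_mem h1
    | mul x y _ _ h1 h2 => rw [map_mul]; exact (ncl (π '' s)).mul_mem h1 h2
  -- the finite set of relations
  set F1 : Set A := (fun q : (A ⧸ L) × (A ⧸ L) => ρ q.1 * ρ q.2 - ρ (q.1 * q.2)) '' (Q ×ˢ Q) with hF1
  set F2 : Set A := (fun q : (A ⧸ L) × (A ⧸ L) => ρ q.1 + ρ q.2 - ρ (q.1 + q.2)) '' (Q ×ˢ Q) with hF2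
  set F3 : Set A := (fun x : A => x - ρ (π x)) '' s with hF3
  set F : Set A := F1 ∪ F2 ∪ F3 with hF
  have hFfin : F.Finite := ((h.prod h).image _).union ((h.prod h).image _) |>.union (hs.image _)
  have hFL : F ⊆ (L : Set A) := by
    rintro x ((⟨q, -, rfl⟩ | ⟨q, -, rfl⟩) | ⟨y, -, rfl⟩)
    · show _ ∈ L
      rw [← hmem]; simp [hρ]
    · show _ ∈ L
      rw [← hmem]; simp [hρ]
    · show _ ∈ L
      rw [← hmem]; simp [hρ]
  set T : Set A := insert 1 (ρ '' Q) with hT
  have hTfin : T.Finite := (h.image _).insert _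
  set Y : Set A := (fun q : (A × A) × A => q.1.1 * q.1.2 * q.2) '' ((T ×ˢ F) ×ˢ T) with hY
  have hYfin : Y.Finite := ((hTfin.prod hFfin).prod hTfin).image _
  have hYL : Y ⊆ (L : Set A) := by
    rintro x ⟨⟨⟨t, f⟩, t'⟩, ⟨⟨-, hf⟩, -⟩, rfl⟩
    exact Ideal.mul_mem_right _ _ (Ideal.mul_mem_left _ _ (hFL hf))
  set W := ncl Y with hW
  have hWfin : (W : Set A).Finite := hL Y hYfin hYL
  have hFW : ∀ t ∈ T, ∀ f ∈ F, ∀ t' ∈ T, t * f * t' ∈ W := fun t ht f hf t' ht' =>
    NonUnitalSubring.subset_closure ⟨⟨⟨t, f⟩, t'⟩, ⟨⟨ht, hf⟩, ht'⟩, rfl⟩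
  have h1T : (1 : A) ∈ T := Set.mem_insert _ _
  have hρT : ∀ q ∈ Q, ρ q ∈ T := fun q hq => Set.mem_insert_of_mem _ ⟨q, hq, rfl⟩
  have hF1W : ∀ f ∈ F, f ∈ W := fun f hf => by
    have := hFW 1 h1T f hf 1 h1T
    simpa using this
  -- products of representatives with `W`
  have hl : ∀ q ∈ Q, ∀ w ∈ W, ρ q * w ∈ W := by
    intro q hq w hw
    induction hw using NonUnitalSubring.closure_induction with
    | mem x hx =>
      obtain ⟨⟨⟨t, f⟩, t'⟩, ⟨⟨ht, hf⟩, ht'⟩, rfl⟩ := hx
      simp only at ht hf ht' ⊢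
      rcases ht with rfl | ⟨q', hq', rfl⟩
      · have := hFW _ (hρT q hq) f hf t' ht'
        simpa [mul_assoc] using this
      · have e : ρ q * (ρ q' * f * t') = ρ (q * q') * f * t' + (ρ q * ρ q' - ρ (q * q')) * (1 * f * t') := by
          noncomm_ring
        rw [e]
        refine W.add_mem (hFW _ (hρT _ ((ncl (π '' s)).mul_mem hq hq')) f hf t' ht') (W.mul_mem ?_ (hFW 1 h1T f hf t' ht'))
        exact hF1W _ (Or.inl (Or.inl ⟨⟨q, q'⟩, ⟨hq, hq'⟩, rfl⟩))
    | zero => rw [mul_zero]; exact W.zero_mem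
    | add x y _ _ h1 h2 => rw [mul_add]; exact W.add_mem h1 h2
    | neg x _ h1 => rw [mul_neg]; exact W.neg_mem h1
    | mul x y _ hy h1 h2 => rw [← mul_assoc]; exact W.mul_mem h1 hy
  have hr : ∀ q ∈ Q, ∀ w ∈ W, w * ρ q ∈ W := by
    intro q hq w hw
    induction hw using NonUnitalSubring.closure_induction with
    | mem x hx =>
      obtain ⟨⟨⟨t, f⟩, t'⟩, ⟨⟨ht, hf⟩, ht'⟩, rfl⟩ := hx
      simp only at ht hf ht' ⊢
      rcases ht' with rfl | ⟨q', hq', rfl⟩
      · have := hFW t ht f hf _ (hρT q hq)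
        simpa [mul_assoc] using this
      · have e : t * f * ρ q' * ρ q = t * f * ρ (q' * q) + (t * f * 1) * (ρ q' * ρ q - ρ (q' * q)) := by
          noncomm_ring
        rw [e]
        refine W.add_mem (hFW t ht f hf _ (hρT _ ((ncl (π '' s)).mul_mem hq' hq))) (W.mul_mem (hFW t ht f hf 1 h1T) ?_)
        exact hF1W _ (Or.inl (Or.inl ⟨⟨q', q⟩, ⟨hq', hq⟩, rfl⟩))
    | zero => rw [zero_mul]; exact W.zero_mem
    | add x y _ _ h1 h2 => rw [add_mul]; exact W.add_mem h1 h2
    | neg x _ h1 => rw [neg_mul]; exact W.neg_mem h1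
    | mul x y hx _ h1 h2 => rw [mul_assoc]; exact W.mul_mem hx h2
  -- main claim
  have hadd : ∀ q ∈ Q, ∀ q' ∈ Q, ρ q + ρ q' - ρ (q + q') ∈ W := fun q hq q' hq' =>
    hF1W _ (Or.inl (Or.inr ⟨⟨q, q'⟩, ⟨hq, hq'⟩, rfl⟩))
  have hzero : ρ 0 ∈ W := by
    have := hadd 0 (ncl (π '' s)).zero_mem 0 (ncl (π '' s)).zero_mem
    simpa using this
  have key : ∀ x ∈ ncl s, x - ρ (π x) ∈ W := by
    intro x hx
    induction hx using NonUnitalSubring.closure_induction with
    | mem x hx => exact hF1W _ (Or.inr ⟨x, hx, rfl⟩)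
    | zero => rw [map_zero, zero_sub]; exact W.neg_mem hzero
    | add x y hx hy h1 h2 =>
      have := hadd _ (hBQ x hx) _ (hBQ y hy)
      have e : x + y - ρ (π (x + y)) = (x - ρ (π x)) + (y - ρ (π y)) + (ρ (π x) + ρ (π y) - ρ (π x + π y)) := by
        rw [map_add]; abel
      rw [e]
      exact W.add_mem (W.add_mem h1 h2) this
    | neg x hx h1 =>
      have := hadd _ (hBQ x hx) _ ((ncl (π '' s)).neg_mem (hBQ x hx))
      have e : -x - ρ (π (-x)) = -(x - ρ (π x)) - (ρ (π x) + ρ (- π x) - ρ (π x + - π x)) - ρ 0 := by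
        rw [map_neg, add_neg_cancel]; abel
      rw [e]
      exact W.sub_mem (W.sub_mem (W.neg_mem h1) this) hzero
    | mul x y hx hy h1 h2 =>
      have e : x * y - ρ (π (x * y)) = (x - ρ (π x)) * (y - ρ (π y)) + (x - ρ (π x)) * ρ (π y)
          + ρ (π x) * (y - ρ (π y)) + (ρ (π x) * ρ (π y) - ρ (π x * π y)) := by
        rw [map_mul]; noncomm_ring
      rw [e]
      exact W.add_mem (W.add_mem (W.add_mem (W.mul_mem h1 h2) (hr _ (hBQ y hy) _ h1)) (hl _ (hBQ x hx) _ h2))
        (hF1W _ (Or.inl (Or.inl ⟨⟨_, _⟩, ⟨hBQ x hx, hBQ y hy⟩, rfl⟩)))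
  refine ((h.prod hWfin).image (fun q : (A ⧸ L) × A => ρ q.1 + q.2)).subset ?_
  intro x hx
  refine ⟨(π x, x - ρ (π x)), ⟨hBQ x hx, key x hx⟩, ?_⟩
  simp

theorem LF.mono {I J : Set A} (h : I ⊆ J) (hJ : LF J) : LF I := fun s hs hsI => hJ s hs (hsI.trans h)

theorem lf_bot : LF ((⊥ : Ideal A) : Set A) := by
  intro s hs h
  refine (Set.finite_singleton (0 : A)).subset ?_
  intro x hx
  have h0 : ∀ y ∈ ncl s, y = 0 := by
    intro y hy
    induction hy using NonUnitalSubring.closure_induction with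
    | mem y hy => simpa using h hy
    | zero => rfl
    | add x y _ _ h1 h2 => rw [h1, h2, add_zero]
    | neg x _ h1 => rw [h1, neg_zero]
    | mul x y _ _ h1 h2 => rw [h1, zero_mul]
  exact h0 x hx

/-- A maximal locally finite ideal. -/
theorem exists_max_lf (A : Type*) [Ring A] : ∃ L : Ideal A, L.IsTwoSided ∧ LF (L : Set A) ∧
    ∀ J : Ideal A, J.IsTwoSided → LF (J : Set A) → L ≤ J → J ≤ L := by
  classical
  obtain ⟨L, hL⟩ := zorn_le_nonempty₀ {I : Ideal A | I.IsTwoSided ∧ LF (I : Set A)} (by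
    intro c hc hchain y hy
    refine ⟨sSup c, ⟨?_, ?_⟩, fun z hz => le_sSup hz⟩
    · constructor
      intro a b ha
      rw [Submodule.mem_sSup_of_directed ⟨y, hy⟩ hchain.directedOn] at ha ⊢
      obtain ⟨I, hI, haI⟩ := ha
      have := (hc hI).1
      exact ⟨I, hI, Ideal.mul_mem_right _ _ haI⟩
    · intro s hs hsI
      have : ∃ I ∈ c, s ⊆ (I : Set A) := by
        induction s, hs using Set.Finite.induction_on with
        | empty => exact ⟨y, hy, Set.empty_subset _⟩
        | @insert a s ha hs ih =>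
          obtain ⟨I, hI, h1⟩ := ih ((Set.subset_insert _ _).trans hsI)
          have h2 : a ∈ sSup c := hsI (Set.mem_insert _ _)
          rw [Submodule.mem_sSup_of_directed ⟨y, hy⟩ hchain.directedOn] at h2
          obtain ⟨J, hJ, h3⟩ := h2
          rcases hchain.total hI hJ with h4 | h4
          · exact ⟨J, hJ, Set.insert_subset h3 (h1.trans h4)⟩
          · exact ⟨I, hI, Set.insert_subset (h4 h3) h1⟩
      obtain ⟨I, hI, h1⟩ := this
      exact (hc hI).2 s hs h1) ⊥ ⟨inferInstance, lf_bot⟩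
  exact ⟨L, hL.2.prop.1, hL.2.prop.2, fun J hJ1 hJ2 h => hL.2.le_of_ge ⟨hJ1, hJ2⟩ h⟩

/-- A ring without nonzero locally finite ideals. -/
def NoLF (A : Type*) [Ring A] : Prop := ∀ I : Ideal A, I.IsTwoSided → LF (I : Set A) → I = ⊥

theorem noLF_quot (L : Ideal A) [L.IsTwoSided] (hL : LF (L : Set A))
    (hmax : ∀ J : Ideal A, J.IsTwoSided → LF (J : Set A) → L ≤ J → J ≤ L) : NoLF (A ⧸ L) := by
  intro I hI hlf
  set J : Ideal A := I.comap (Ideal.Quotient.mk L) with hJ
  have hJ2 : J.IsTwoSided := by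
    constructor
    intro a b ha
    rw [hJ, Ideal.mem_comap] at ha ⊢
    rw [map_mul]
    exact Ideal.mul_mem_right _ _ ha
  have hJ3 : LF (J : Set A) := by
    intro s hs hsJ
    refine ext_lf L hL s hs (hlf _ (hs.image _) ?_)
    rintro _ ⟨x, hx, rfl⟩
    exact hsJ hx
  have hLJ : L ≤ J := by
    intro x hx
    rw [hJ, Ideal.mem_comap, Ideal.Quotient.eq_zero_iff_mem.mpr hx]
    exact I.zero_mem
  have h1 := hmax J hJ2 hJ3 hLJ
  rw [eq_bot_iff]
  intro x hx
  obtain ⟨y, rfl⟩ := Ideal.Quotient.mk_surjective x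
  rw [Ideal.mem_bot, Ideal.Quotient.eq_zero_iff_mem]
  exact h1 hx

end Q23.UG
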