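import Pool.Agent.Q23.UG.Core

/-!
# Lifting modulo locally finite ideals and the torsion case of the main theorem
-/

namespace Q23.UG

variable {R : Type*} [Ring R]

/-- All units have finite order. -/
def TU (R : Type*) [Ring R] : Prop := ∀ u : Rˣ, ∃ k : ℕ, 0 < k ∧ u ^ k = 1

/-- The units have bounded order, or the nilpotent elements have bounded index. -/
def HB (R : Type*) [Ring R] : Prop :=
  (∃ n : ℕ, 0 < n ∧ ∀ u : Rˣ, u ^ n = 1) ∨ (∃ N : ℕ, ∀ w : R, IsNilpotent w → w ^ N = 0)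

theorem lift_tor (L : Ideal R) [L.IsTwoSided] (hL : LF (L : Set R)) (v : R) (h : Tor (Ideal.Quotient.mk L v)) :
    ∃ u : Rˣ, Ideal.Quotient.mk L (u : R) = Ideal.Quotient.mk L v := by
  obtain ⟨k, hk, hk1⟩ := h
  set π := Ideal.Quotient.mk L with hπ
  have hmem : ∀ x, π x = 0 ↔ x ∈ L := fun x => Ideal.Quotient.eq_zero_iff_mem
  have hl : v ^ k - 1 ∈ L := by rw [← hmem, map_sub, map_pow, hk1, map_one, sub_self]
  have hfin := hL {v ^ k - 1} (Set.finite_singleton _) (by simpa using hl)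
  have hpow : ∀ i : ℕ, (v ^ k) ^ i - 1 ∈ ncl {v ^ k - 1} := by
    intro i
    induction i with
    | zero => simp only [pow_zero, sub_self]; exact NonUnitalSubring.zero_mem _
    | succ i ih =>
      have h1 : v ^ k - 1 ∈ ncl {v ^ k - 1} := NonUnitalSubring.subset_closure rfl
      have : (v ^ k) ^ (i + 1) - 1 = ((v ^ k) ^ i - 1) * (v ^ k - 1) + ((v ^ k) ^ i - 1) + (v ^ k - 1) := by
        rw [pow_succ]; noncomm_ring
      rw [this]
      exact NonUnitalSubring.add_mem _ (NonUnitalSubring.add_mem _ (NonUnitalSubring.mul_mem _ ih h1) ih) h1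
  obtain ⟨i, j, hi, hij, hh⟩ := periodic_of_finite (v ^ k) _ (hfin.image (fun x => x + 1)) (fun i _ => ⟨_, hpow i, by simp⟩)
  have hper : Per v := by
    refine ⟨k * i, k * j, by positivity, Nat.mul_lt_mul_of_pos_left hij hk, ?_⟩
    rw [pow_mul, pow_mul, hh]
  obtain ⟨K, hK, hKi⟩ := hper.idem
  set e := v ^ K with he
  have hπe : π e = 1 := by
    have h1 : π e * π e = π e := by rw [← map_mul, hKi]
    have h2 : π v ^ (K * k - K) * π e = 1 := by
      rw [he, map_pow, ← pow_add, Nat.sub_add_cancel (Nat.le_mul_of_pos_right K hk), mul_comm K k, pow_mul, hk1, one_pow]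
    calc π e = (π v ^ (K * k - K) * π e) * π e := by rw [h2, one_mul]
      _ = 1 := by rw [mul_assoc, h1, h2]
  have hcomm : v * e = e * v := by rw [he]; exact (Commute.self_pow v K)
  have hve : v ^ (K - 1) * v = e := by rw [← pow_succ, show K - 1 + 1 = K by omega]
  have hve' : v * v ^ (K - 1) = e := by rw [← pow_succ', show K - 1 + 1 = K by omega]
  have hce : v ^ (K - 1) * e = e * v ^ (K - 1) := by rw [he]; exact (Commute.pow_pow_self v _ _)
  have he1 : e * (1 - e) = 0 := by rw [mul_sub, mul_one, hKi, sub_self]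
  have h1e : (1 - e) * e = 0 := by rw [sub_mul, one_mul, hKi, sub_self]
  have h11 : (1 - e) * (1 - e) = 1 - e := by rw [mul_sub, mul_one, h1e, sub_zero]
  refine ⟨⟨v * e + (1 - e), v ^ (K - 1) * e + (1 - e), ?_, ?_⟩, ?_⟩
  · have : (v * e + (1 - e)) * (v ^ (K - 1) * e + (1 - e)) = v * (e * v ^ (K - 1)) * e + v * (e * (1 - e)) + (1 - e) * (v ^ (K - 1) * e) + (1 - e) * (1 - e) := by
      noncomm_ring
    rw [this, hce, ← mul_assoc (1 - e), h1e, ← hce, he1, h11, ← mul_assoc v, hve', mul_zero, zero_mul, add_zero, add_zero, hKi, hKi]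
    abel
  · have : (v ^ (K - 1) * e + (1 - e)) * (v * e + (1 - e)) = v ^ (K - 1) * (e * v) * e + v ^ (K - 1) * (e * (1 - e)) + (1 - e) * (v * e) + (1 - e) * (1 - e) := by
      noncomm_ring
    rw [this, hcomm, ← mul_assoc (1 - e), h1e, ← hcomm, he1, h11, ← mul_assoc (v ^ (K - 1)), hve, mul_zero, zero_mul, add_zero, add_zero, hKi, hKi]
    abel
  · simp only
    rw [map_add, map_mul, map_sub, map_one, hπe, mul_one, sub_self, add_zero]

theorem lift_nil (L : Ideal R) [L.IsTwoSided] (hL : LF (L : Set R)) (w : R)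
    (h : IsNilpotent (Ideal.Quotient.mk L w)) :
    ∃ w0 : R, IsNilpotent w0 ∧ Ideal.Quotient.mk L w0 = Ideal.Quotient.mk L w := by
  obtain ⟨k', hk'⟩ := h
  obtain ⟨k, hk, hk1⟩ : ∃ k, 0 < k ∧ (Ideal.Quotient.mk L w) ^ k = 0 := ⟨k' + 1, by omega, by rw [pow_succ, hk', zero_mul]⟩
  set π := Ideal.Quotient.mk L with hπ
  have hmem : ∀ x, π x = 0 ↔ x ∈ L := fun x => Ideal.Quotient.eq_zero_iff_mem
  have hl : w ^ k ∈ L := by rw [← hmem, map_pow, hk1]
  have hfin := hL {w ^ k} (Set.finite_singleton _) (by simpa using hl)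
  have hpow : ∀ i : ℕ, 0 < i → (w ^ k) ^ i ∈ ncl {w ^ k} := by
    intro i hi
    induction i, hi using Nat.le_induction with
    | base =>
      show (w ^ k) ^ 1 ∈ ncl {w ^ k}
      rw [pow_one]
      exact NonUnitalSubring.subset_closure rfl
    | succ i hi ih =>
      rw [pow_succ]
      exact NonUnitalSubring.mul_mem _ ih (NonUnitalSubring.subset_closure rfl)
  obtain ⟨i, j, hi, hij, hh⟩ := periodic_of_finite (w ^ k) _ hfin hpow
  have hper : Per w := by
    refine ⟨k * i, k * j, by positivity, Nat.mul_lt_mul_of_pos_left hij hk, ?_⟩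
    rw [pow_mul, pow_mul, hh]
  obtain ⟨K, hK, hKi⟩ := hper.idem
  set e := w ^ K with he
  have hπe : π e = 0 := by
    have h1 : ∀ n : ℕ, π e = (π e) ^ (n + 1) := by
      intro n
      induction n with
      | zero => simp
      | succ n ih => rw [pow_succ, ← ih, ← map_mul, hKi]
    have h2 : (π e) ^ k = 0 := by rw [he, map_pow, ← pow_mul, mul_comm, pow_mul, hk1, zero_pow (by omega)]
    rw [h1 (k - 1), show k - 1 + 1 = k by omega, h2]
  refine ⟨w * (1 - e), ⟨K, ?_⟩, ?_⟩
  · have hcomm : Commute w (1 - e) := (Commute.one_right w).sub_right (by rw [he]; exact Commute.self_pow w K)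
    rw [hcomm.mul_pow]
    obtain ⟨K', rfl⟩ : ∃ K', K = K' + 1 := ⟨K - 1, by omega⟩
    rw [pow_succ' (1 - e), ← mul_assoc, ← he, mul_sub, mul_one, hKi, sub_self, zero_mul]
  · rw [map_mul, map_sub, map_one, hπe, sub_zero, mul_one]

theorem tor_of_unit (hT : TU R) (u : Rˣ) : Tor (u : R) := by
  obtain ⟨k, hk, h⟩ := hT u
  exact ⟨k, hk, by rw [← Units.val_pow_eq_pow_val, h, Units.val_one]⟩

theorem Tor.map {S : Type*} [Ring S] (f : R →+* S) {x : R} (h : Tor x) : Tor (f x) := by
  obtain ⟨k, hk, h⟩ := h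
  exact ⟨k, hk, by rw [← map_pow, h, map_one]⟩

theorem good_quot (hT : TU R) (L : Ideal R) [L.IsTwoSided] (hL : LF (L : Set R)) : Good (R ⧸ L) := by
  constructor
  · intro u v hu hv
    obtain ⟨u', rfl⟩ := Ideal.Quotient.mk_surjective u
    obtain ⟨v', rfl⟩ := Ideal.Quotient.mk_surjective v
    obtain ⟨a, ha⟩ := lift_tor L hL u' hu
    obtain ⟨b, hb⟩ := lift_tor L hL v' hv
    rw [← ha, ← hb, ← map_mul, ← Units.val_mul]
    exact (tor_of_unit hT (a * b)).map _
  · intro w hw
    obtain ⟨w', rfl⟩ := Ideal.Quotient.mk_surjective w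
    obtain ⟨w0, hw0, h⟩ := lift_nil L hL w' hw
    obtain ⟨u, hu⟩ := hw0.isUnit_one_add
    rw [← h, ← map_one (Ideal.Quotient.mk L), ← map_add, ← hu]
    exact (tor_of_unit hT u).map _

/-- Nilpotent elements `w` with `p w = 0` and `(1 + w) ^ n = 1`. -/
theorem nil_index {A : Type*} [Ring A] (p : ℕ) (hp : p.Prime) (n : ℕ) (hn : 0 < n) (w : A) (hpw : p • w = 0)
    (hw : IsNilpotent w) (h : (1 + w) ^ n = 1) : w ^ n = 0 := by
  have hpp : ∀ a : ℕ, (1 + w) ^ (p ^ a) = 1 + w ^ (p ^ a) := by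
    intro a
    have hpw' : (p : A) * 1 * w = 0 := by rw [mul_one, ← nsmul_eq_mul, hpw]
    rw [(Commute.one_left w).add_pow_prime_pow_eq hp a, hpw', zero_mul, add_zero, one_pow]
  obtain ⟨s, hs⟩ := hw
  have h1 : (1 + w) ^ (p ^ s) = 1 := by
    rw [hpp]
    have : s ≤ p ^ s := (Nat.lt_pow_self hp.one_lt).le
    rw [pow_eq_zero_of_le this hs, add_zero]
  have h2 : orderOf (1 + w) ∣ p ^ s := orderOf_dvd_of_pow_eq_one h1
  have h3 : orderOf (1 + w) ∣ n := orderOf_dvd_of_pow_eq_one h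
  obtain ⟨a, -, ha⟩ := (Nat.dvd_prime_pow hp).mp h2
  have h4 : (1 + w) ^ (p ^ a) = 1 := by rw [← ha]; exact pow_orderOf_eq_one _
  rw [hpp] at h4
  have h5 : w ^ (p ^ a) = 0 := by simpa using h4
  exact pow_eq_zero_of_le (Nat.le_of_dvd hn (ha ▸ h3)) h5

theorem bd_quot (hB : HB R) (L : Ideal R) [L.IsTwoSided] (hL : LF (L : Set R)) : Bd (R ⧸ L) := by
  intro p hp
  rcases hB with ⟨n, hn, h⟩ | ⟨N, hN⟩
  · refine ⟨n, fun w hpw hw => ?_⟩
    refine nil_index p hp n hn w hpw hw ?_
    obtain ⟨w', rfl⟩ := Ideal.Quotient.mk_surjective w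
    obtain ⟨w0, hw0, h1⟩ := lift_nil L hL w' hw
    obtain ⟨u, hu⟩ := hw0.isUnit_one_add
    rw [← h1, ← map_one (Ideal.Quotient.mk L), ← map_add, ← hu, ← map_pow, ← Units.val_pow_eq_pow_val, h u, Units.val_one]
  · refine ⟨N, fun w _ hw => ?_⟩
    obtain ⟨w', rfl⟩ := Ideal.Quotient.mk_surjective w
    obtain ⟨w0, hw0, h1⟩ := lift_nil L hL w' hw
    rw [← h1, ← map_pow, hN w0 hw0, map_zero]

/-- The group generated by finitely many units congruent to `1` modulo a locally finite ideal is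
finite. -/
theorem fin_cong (hT : TU R) (L : Ideal R) (hL : LF (L : Set R)) (H : Subgroup Rˣ) (hH : H.FG)
    (hc : ∀ u ∈ H, (u : R) - 1 ∈ L) : Finite H := by
  obtain ⟨S, hS⟩ := hH
  set s : Set R := (fun u : Rˣ => (u : R) - 1) '' (S : Set Rˣ) with hs
  have hSH : ∀ u ∈ S, u ∈ H := fun u hu => by rw [← hS]; exact Subgroup.subset_closure hu
  have hsfin : s.Finite := S.finite_toSet.image _
  have hW := hL s hsfin (by
    rintro _ ⟨u, hu, rfl⟩
    exact hc u (hSH u hu))
  have hmul : ∀ x y : R, x - 1 ∈ ncl s → y - 1 ∈ ncl s → x * y - 1 ∈ ncl s := by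
    intro x y hx hy
    have : x * y - 1 = (x - 1) * (y - 1) + (x - 1) + (y - 1) := by noncomm_ring
    rw [this]
    exact NonUnitalSubring.add_mem _ (NonUnitalSubring.add_mem _ (NonUnitalSubring.mul_mem _ hx hy) hx) hy
  have hpow : ∀ (x : R), x - 1 ∈ ncl s → ∀ n : ℕ, x ^ n - 1 ∈ ncl s := by
    intro x hx n
    induction n with
    | zero => simp only [pow_zero, sub_self]; exact NonUnitalSubring.zero_mem _
    | succ n ih => rw [pow_succ]; exact hmul _ _ ih hx
  have key : ∀ u ∈ H, (u : R) - 1 ∈ ncl s := by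
    intro u hu
    rw [← hS] at hu
    induction hu using Subgroup.closure_induction with
    | mem u hu => exact NonUnitalSubring.subset_closure ⟨u, hu, rfl⟩
    | one => simp only [Units.val_one, sub_self]; exact NonUnitalSubring.zero_mem _
    | mul x y _ _ h1 h2 => rw [Units.val_mul]; exact hmul _ _ h1 h2
    | inv x _ h1 =>
      obtain ⟨k, hk, hk1⟩ := hT x
      have : x⁻¹ = x ^ (k - 1) := by
        rw [eq_comm, eq_inv_iff_mul_eq_one, ← pow_succ, show k - 1 + 1 = k by omega, hk1]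
      rw [this, Units.val_pow_eq_pow_val]
      exact hpow _ h1 _
  have hinj : Function.Injective (fun u : H => (⟨((u : Rˣ) : R) - 1, key u u.2⟩ : {x : R // x ∈ ((ncl s : NonUnitalSubring R) : Set R)})) := by
    intro u v huv
    have := congrArg Subtype.val huv
    simp only [sub_left_inj] at this
    exact Subtype.ext (Units.ext this)
  have : Finite {x : R // x ∈ ((ncl s : NonUnitalSubring R) : Set R)} := hW
  exact Finite.of_injective _ hinj

/-- **Torsion case.** -/
theorem torsion_case (hT : TU R) (hB : HB R) (hgen : ∀ a : R, a ∈ AddSubgroup.closure (Set.range (Units.val : Rˣ → R)))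
    (H : Subgroup Rˣ) (hH : H.FG) (m : ℕ) (hm : 0 < m) (hc : ∀ u ∈ H, m • ((u : R) - 1) = 0) : Finite H := by
  obtain ⟨L, hL2, hLF, hmax⟩ := exists_max_lf R
  have hG := good_quot hT L hLF
  have hRd : Rd (R ⧸ L) := by
    refine reduced_of_noLF (noLF_quot L hLF hmax) hG.gd (bd_quot hB L hLF) ?_
    intro a
    obtain ⟨x, rfl⟩ := Ideal.Quotient.mk_surjective a
    have hx := hgen x
    induction hx using AddSubgroup.closure_induction with
    | mem y hy =>
      obtain ⟨u, rfl⟩ := hy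
      exact AddSubgroup.subset_closure ((tor_of_unit hT u).map _)
    | zero => rw [map_zero]; exact AddSubgroup.zero_mem _
    | add y z _ _ h1 h2 => rw [map_add]; exact AddSubgroup.add_mem _ h1 h2
    | neg y _ h1 => rw [map_neg]; exact AddSubgroup.neg_mem _ h1
  let φ : H →* (R ⧸ L)ˣ := (Units.map (Ideal.Quotient.mk L : R →* R ⧸ L)).comp H.subtype
  have hφ : ∀ u : H, ((φ u : (R ⧸ L)ˣ) : R ⧸ L) = Ideal.Quotient.mk L ((u : Rˣ) : R) := fun u => rfl
  have : Group.FG H := (Group.fg_iff_subgroup_fg H).mpr hH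
  have hrange : Finite φ.range := by
    have hFG : Group.FG φ.range := inferInstance
    let C : CommGroup φ.range :=
      { (inferInstance : Group φ.range) with
        mul_comm := by
          rintro ⟨_, ⟨u, rfl⟩⟩ ⟨_, ⟨v, rfl⟩⟩
          apply Subtype.ext
          apply Units.ext
          show (φ u : R ⧸ L) * (φ v : R ⧸ L) = (φ v : R ⧸ L) * (φ u : R ⧸ L)
          rw [hφ, hφ]
          refine comm_tor hRd hG.mul m hm _ _ ((tor_of_unit hT _).map _) ((tor_of_unit hT _).map _) ?_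
          rw [← map_one (Ideal.Quotient.mk L), ← map_sub, ← map_nsmul, hc _ u.2, map_zero] }
    refine @CommGroup.finite_of_fg_isMulTorsion φ.range C hFG ?_
    intro x
    obtain ⟨_, ⟨u, rfl⟩⟩ := x
    obtain ⟨k, hk, hk1⟩ := hT u
    rw [isOfFinOrder_iff_pow_eq_one]
    refine ⟨k, hk, ?_⟩
    apply Subtype.ext
    show (φ u) ^ k = 1
    rw [← map_pow]
    have : u ^ k = 1 := Subtype.ext hk1
    rw [this, map_one]
  have hker : Finite φ.ker := by
    have hfg : Group.FG φ.ker := inferInstance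
    have h1 : (φ.ker.map H.subtype).FG := by
      rw [← Group.fg_iff_subgroup_fg]
      exact Group.fg_of_surjective (f := (φ.ker.equivMapOfInjective H.subtype (Subgroup.subtype_injective H)).toMonoidHom)
        (φ.ker.equivMapOfInjective H.subtype (Subgroup.subtype_injective H)).surjective
    have h2 : Finite (φ.ker.map H.subtype) := by
      refine fin_cong hT L hLF _ h1 ?_
      rintro _ ⟨u, hu, rfl⟩
      rw [← Ideal.Quotient.eq_zero_iff_mem, map_sub, map_one, sub_eq_zero]
      have h3 : φ u = 1 := hu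
      have h4 := hφ u
      rw [h3, Units.val_one] at h4
      exact h4.symm
    exact Finite.of_equiv _ (φ.ker.equivMapOfInjective H.subtype (Subgroup.subtype_injective H)).symm.toEquiv
  exact φ.finite_iff_finite_ker_range.mpr ⟨hker, hrange⟩

end Q23.UG
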