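import Pool.Agent.Q23.UG.Tf

/-!
# Unit groups of rings: local finiteness
-/

namespace Q23.UG

/-- The ideal of the elements of finite additive order. -/
def torI (R : Type*) [Ring R] : Ideal R where
  carrier := {r | ∃ m : ℕ, 0 < m ∧ m • r = 0}
  add_mem' := by
    rintro a b ⟨m, hm, ha⟩ ⟨n, hn, hb⟩
    refine ⟨m * n, by positivity, ?_⟩
    rw [smul_add, mul_comm, mul_smul, ha, smul_zero, mul_comm, mul_smul, hb, smul_zero, add_zero]
  zero_mem' := ⟨1, one_pos, by simp⟩
  smul_mem' := by
    rintro c x ⟨m, hm, hx⟩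
    exact ⟨m, hm, by rw [smul_eq_mul, ← mul_smul_comm, hx, mul_zero]⟩

theorem mem_torI {R : Type*} [Ring R] {r : R} : r ∈ torI R ↔ ∃ m : ℕ, 0 < m ∧ m • r = 0 := Iff.rfl

instance {R : Type*} [Ring R] : (torI R).IsTwoSided := by
  constructor
  rintro a b ⟨m, hm, ha⟩
  exact ⟨m, hm, by rw [← smul_mul_assoc, ha, zero_mul]⟩

theorem tf_quot (R : Type*) [Ring R] : TF (R ⧸ torI R) := by
  intro m x hm hx
  obtain ⟨r, rfl⟩ := Ideal.Quotient.mk_surjective x
  rw [← map_nsmul, Ideal.Quotient.eq_zero_iff_mem, mem_torI] at hx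
  obtain ⟨k, hk, hk2⟩ := hx
  rw [Ideal.Quotient.eq_zero_iff_mem, mem_torI]
  exact ⟨k * m, by positivity, by rw [mul_smul, hk2]⟩

theorem rd_quot {R : Type*} [Ring R] (hT : TU R) : Rd (R ⧸ torI R) := by
  intro x hx
  obtain ⟨r, rfl⟩ := Ideal.Quotient.mk_surjective x
  rw [← map_mul, Ideal.Quotient.eq_zero_iff_mem, mem_torI] at hx
  obtain ⟨m, hm, hm2⟩ := hx
  have h1 : (m • r) * (m • r) = 0 := by
    rw [smul_mul_smul_comm, mul_smul, hm2, smul_zero]
  obtain ⟨u, hu⟩ := (show IsNilpotent (m • r) from ⟨2, by rw [sq, h1]⟩).isUnit_one_add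
  obtain ⟨k, hk, hk1⟩ := tor_of_unit hT u
  rw [hu] at hk1
  have h2 := sq_tor (m • r) h1 k hk1
  rw [Ideal.Quotient.eq_zero_iff_mem, mem_torI]
  exact ⟨k * m, by positivity, by rw [mul_smul, h2]⟩

/-- The main theorem for rings which are additively generated by their units. -/
theorem main_gen {R : Type*} [Ring R] (hT : TU R) (hB : HB R)
    (hgen : ∀ a : R, a ∈ AddSubgroup.closure (Set.range (Units.val : Rˣ → R))) (H : Subgroup Rˣ) (hH : H.FG) :
    Finite H := by
  classical
  let π := Ideal.Quotient.mk (torI R)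
  let φ : H →* (R ⧸ torI R)ˣ := (Units.map (π : R →* R ⧸ torI R)).comp H.subtype
  have hφ : ∀ u : H, ((φ u : (R ⧸ torI R)ˣ) : R ⧸ torI R) = π ((u : Rˣ) : R) := fun u => rfl
  have hHG : Group.FG H := (Group.fg_iff_subgroup_fg H).mpr hH
  have hrange : Finite φ.range := by
    refine tf_finite (rd_quot hT) (tf_quot R) φ.range ((Group.fg_iff_subgroup_fg _).mp inferInstance) ?_
    rintro _ ⟨u, rfl⟩
    obtain ⟨N, hN, hN1⟩ := tor_of_unit hT (u : Rˣ)
    rw [hφ]
    refine tf_case (rd_quot hT) (tf_quot R) _ N hN (by rw [← map_pow, hN1, map_one]) ?_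
    intro k hk0 hk
    obtain ⟨M, hM, hMe⟩ := rel_units hT _ N hN hN1 k hk hk0
    refine ⟨M, hM, ?_⟩
    have := congrArg π hMe
    simpa using this
  have hker : Finite φ.ker := by
    have hfg : Group.FG φ.ker := inferInstance
    have h1 : (φ.ker.map H.subtype).FG := by
      rw [← Group.fg_iff_subgroup_fg]
      exact Group.fg_of_surjective (f := (φ.ker.equivMapOfInjective H.subtype (Subgroup.subtype_injective H)).toMonoidHom)
        (φ.ker.equivMapOfInjective H.subtype (Subgroup.subtype_injective H)).surjective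
    -- a uniform additive order
    have h2 : ∀ u ∈ φ.ker.map H.subtype, ∃ m : ℕ, 0 < m ∧ m • ((u : R) - 1) = 0 := by
      rintro _ ⟨u, hu, rfl⟩
      have h3 : φ u = 1 := hu
      have h4 := hφ u
      rw [h3, Units.val_one, eq_comm, ← sub_eq_zero, ← map_one π, ← map_sub, Ideal.Quotient.eq_zero_iff_mem] at h4
      exact h4
    have h5 : ∃ m : ℕ, 0 < m ∧ ∀ u ∈ φ.ker.map H.subtype, m • ((u : R) - 1) = 0 := by
      obtain ⟨S, hS⟩ := h1
      have hSk : ∀ s ∈ S, s ∈ φ.ker.map H.subtype := fun s hs => by rw [← hS]; exact Subgroup.subset_closure hs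
      have h6 : ∃ m : ℕ, 0 < m ∧ ∀ s ∈ S, m • ((s : R) - 1) = 0 := by
        clear hS
        induction S using Finset.induction_on with
        | empty => exact ⟨1, one_pos, by simp⟩
        | @insert a S ha ih =>
          obtain ⟨m, hm, h⟩ := ih (fun s hs => hSk s (Finset.mem_insert_of_mem hs))
          obtain ⟨n, hn, h'⟩ := h2 a (hSk a (Finset.mem_insert_self _ _))
          refine ⟨m * n, by positivity, fun s hs => ?_⟩
          rcases Finset.mem_insert.mp hs with rfl | hs
          · rw [mul_smul, h', smul_zero]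
          · rw [mul_comm, mul_smul, h s hs, smul_zero]
      obtain ⟨m, hm, h⟩ := h6
      refine ⟨m, hm, fun u hu => ?_⟩
      rw [← hS] at hu
      induction hu using Subgroup.closure_induction with
      | mem s hs => exact h s hs
      | one => simp
      | mul x y _ _ h1 h2 =>
        have : ((x * y : Rˣ) : R) - 1 = ((x : R) - 1) * y + ((y : R) - 1) := by
          rw [Units.val_mul, sub_mul, one_mul]; abel
        rw [this, smul_add, ← smul_mul_assoc, h1, h2, zero_mul, add_zero]
      | inv x _ h1 =>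
        have : ((x⁻¹ : Rˣ) : R) - 1 = -(((x⁻¹ : Rˣ) : R) * ((x : R) - 1)) := by
          rw [mul_sub, mul_one, Units.inv_mul]; abel
        rw [this, smul_neg, ← mul_smul_comm, h1, mul_zero, neg_zero]
    obtain ⟨m, hm, h⟩ := h5
    have h7 : Finite (φ.ker.map H.subtype) := torsion_case hT hB hgen _ h1 m hm h
    exact Finite.of_equiv _ (φ.ker.equivMapOfInjective H.subtype (Subgroup.subtype_injective H)).symm.toEquiv
  exact φ.finite_iff_finite_ker_range.mpr ⟨hker, hrange⟩

/-- **Main theorem.** -/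
theorem main {R : Type*} [Ring R] (hT : TU R) (hB : HB R) (H : Subgroup Rˣ) (hH : H.FG) : Finite H := by
  classical
  let R0 : Subring R := Subring.closure (Set.range (Units.val : Rˣ → R))
  have hmem : ∀ u : Rˣ, (u : R) ∈ R0 := fun u => Subring.subset_closure ⟨u, rfl⟩
  let φ : Rˣ →* R0ˣ :=
    { toFun := fun u => ⟨⟨u, hmem u⟩, ⟨(u⁻¹ : Rˣ), hmem _⟩, Subtype.ext (by simp), Subtype.ext (by simp)⟩
      map_one' := Units.ext (Subtype.ext rfl)
      map_mul' := fun u v => Units.ext (Subtype.ext rfl) }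
  have hφ : Function.Injective φ := by
    intro u v h
    have := congrArg (fun w : R0ˣ => ((w : R0) : R)) h
    exact Units.ext this
  let ψ : R0ˣ →* Rˣ := Units.map (R0.subtype : R0 →* R)
  have hψ : Function.Injective ψ := Units.map_injective Subtype.val_injective
  have hT0 : TU R0 := by
    intro u
    obtain ⟨k, hk, hk1⟩ := hT (ψ u)
    exact ⟨k, hk, hψ (by rw [map_pow, hk1, map_one])⟩
  have hB0 : HB R0 := by
    rcases hB with ⟨n, hn, h⟩ | ⟨N, hN⟩
    · exact Or.inl ⟨n, hn, fun u => hψ (by rw [map_pow, h, map_one])⟩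
    · refine Or.inr ⟨N, fun w hw => ?_⟩
      have := hN w (hw.map R0.subtype)
      exact Subtype.ext (by simpa using this)
  have hgen : ∀ a : R0, a ∈ AddSubgroup.closure (Set.range (Units.val : R0ˣ → R0)) := by
    rintro ⟨a, ha⟩
    have h1 : ∀ a (ha : a ∈ R0), (⟨a, ha⟩ : R0) ∈ AddSubgroup.closure (Set.range (Units.val : R0ˣ → R0)) := by
      intro a ha
      induction ha using Subring.closure_induction with
      | mem x hx =>
        obtain ⟨u, rfl⟩ := hx
        exact AddSubgroup.subset_closure ⟨φ u, rfl⟩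
      | zero => exact AddSubgroup.zero_mem _
      | one => exact AddSubgroup.subset_closure ⟨1, rfl⟩
      | add x y hx hy h1 h2 => exact AddSubgroup.add_mem _ h1 h2
      | neg x hx h1 => exact AddSubgroup.neg_mem _ h1
      | mul x y hx hy h1 h2 =>
        have h3 : ∀ z ∈ AddSubgroup.closure (Set.range (Units.val : R0ˣ → R0)), ∀ w ∈ AddSubgroup.closure (Set.range (Units.val : R0ˣ → R0)), z * w ∈ AddSubgroup.closure (Set.range (Units.val : R0ˣ → R0)) := by
          intro z hz w hw
          induction hz using AddSubgroup.closure_induction with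
          | mem z hz =>
            obtain ⟨u, rfl⟩ := hz
            induction hw using AddSubgroup.closure_induction with
            | mem w hw =>
              obtain ⟨v, rfl⟩ := hw
              exact AddSubgroup.subset_closure ⟨u * v, rfl⟩
            | zero => rw [mul_zero]; exact AddSubgroup.zero_mem _
            | add y z _ _ h1 h2 => rw [mul_add]; exact AddSubgroup.add_mem _ h1 h2
            | neg y _ h1 => rw [mul_neg]; exact AddSubgroup.neg_mem _ h1
          | zero => rw [zero_mul]; exact AddSubgroup.zero_mem _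
          | add y z _ _ h1 h2 => rw [add_mul]; exact AddSubgroup.add_mem _ h1 h2
          | neg y _ h1 => rw [neg_mul]; exact AddSubgroup.neg_mem _ h1
        exact h3 _ h1 _ h2
    exact h1 a ha
  have hfg : (H.map φ).FG := by
    obtain ⟨S, hS⟩ := hH
    refine ⟨S.image φ, ?_⟩
    rw [Finset.coe_image, ← MonoidHom.map_closure, hS]
  have h1 := main_gen hT0 hB0 hgen (H.map φ) hfg
  exact Finite.of_equiv _ (H.equivMapOfInjective φ hφ).symm.toEquiv

/-- Units of odd order commute. -/
theorem odd_case {R : Type*} [Ring R] (hT : ∀ u : Rˣ, ∃ k : ℕ, Odd k ∧ u ^ k = 1) (u v : Rˣ) : u * v = v * u := by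
  have h2 : (-1 : R) = 1 := by
    obtain ⟨k, hk, hk1⟩ := hT (-1)
    have := congrArg Units.val hk1
    rw [Units.val_pow_eq_pow_val, Units.val_neg, Units.val_one, hk.neg_one_pow] at this
    exact this
  have h2' : (2 : ℕ) • (1 : R) = 0 := by
    rw [two_smul]
    nth_rewrite 1 [← h2]
    simp
  have h2'' : ∀ x : R, (2 : ℕ) • x = 0 := fun x => by
    rw [← one_mul x, ← smul_mul_assoc, h2', zero_mul]
  have hTU : TU R := fun u => by
    obtain ⟨k, hk, hk1⟩ := hT u
    exact ⟨k, hk.pos, hk1⟩
  have hR : Rd R := by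
    intro x hx
    obtain ⟨w, hw⟩ := (show IsNilpotent x from ⟨2, by rw [sq, hx]⟩).isUnit_one_add
    obtain ⟨k, hk, hk1⟩ := hT w
    have h3 : (1 + x) ^ k = 1 := by rw [← hw, ← Units.val_pow_eq_pow_val, hk1, Units.val_one]
    have h4 := sq_tor x hx k h3
    obtain ⟨j, rfl⟩ := hk
    rw [add_smul, mul_comm, mul_smul, h2'', smul_zero, zero_add, one_smul] at h4
    exact h4
  have h5 := comm_tor hR (fun a b ha hb => by
    have hun : ∀ a : R, Tor a → ∃ w : Rˣ, (w : R) = a := by
      rintro a ⟨k, hk, hk1⟩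
      refine ⟨⟨a, a ^ (k - 1), ?_, ?_⟩, rfl⟩
      · rw [← pow_succ', show k - 1 + 1 = k by omega, hk1]
      · rw [← pow_succ, show k - 1 + 1 = k by omega, hk1]
    obtain ⟨a', rfl⟩ := hun a ha
    obtain ⟨b', rfl⟩ := hun b hb
    rw [← Units.val_mul]
    exact tor_of_unit hTU _) 2 two_pos (u : R) (v : R) (tor_of_unit hTU u) (tor_of_unit hTU v) (h2'' _)
  exact Units.ext h5

end Q23.UG
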