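import Pool.Agent.Q23.UG.Dom

/-!
# Groups of units of domains of positive characteristic
-/

namespace Q23.UG

universe u v

section

variable {D : Type u} [Ring D]

theorem cl_comm_right (T : Set D) (x : D) (h : ∀ t ∈ T, x * t = t * x) : ∀ a ∈ Subring.closure T, x * a = a * x := by
  intro a ha
  have h1 : Subring.closure T ≤ Subring.centralizer {x} := by
    rw [Subring.closure_le]
    intro t ht
    rw [SetLike.mem_coe, Subring.mem_centralizer_iff]
    intro y hy
    rw [Set.mem_singleton_iff.mp hy]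
    exact h t ht
  exact (Subring.mem_centralizer_iff.mp (h1 ha)) x rfl

theorem cl_comm (T : Set D) (hc : ∀ x ∈ T, ∀ y ∈ T, x * y = y * x) :
    ∀ a ∈ Subring.closure T, ∀ b ∈ Subring.closure T, a * b = b * a := by
  intro a ha b hb
  refine cl_comm_right T a (fun t ht => ?_) b hb
  exact (cl_comm_right T t (fun s hs => hc t ht s hs) a ha).symm

theorem cl_fin (T : Set D) (hT : T.Finite) (hc : ∀ x ∈ T, ∀ y ∈ T, x * y = y * x) (hp : ∀ x ∈ T, Per x)
    (m : ℕ) (hm : 0 < m) (hm0 : (m : D) = 0) : ((Subring.closure T : Subring D) : Set D).Finite := by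
  have hms : ∀ x : D, m • x = 0 := fun x => by rw [nsmul_eq_mul, hm0, zero_mul]
  have h1 := comm_fin (insert 1 T) (hT.insert 1) (by
    intro x hx y hy
    rcases hx with rfl | hx
    · rw [one_mul, mul_one]
    · rcases hy with rfl | hy
      · rw [one_mul, mul_one]
      · exact hc x hx y hy) (by
    intro x hx
    rcases hx with rfl | hx
    · exact ⟨1, 2, one_pos, by norm_num, by simp⟩
    · exact hp x hx) m hm (fun x _ => hms x)
  refine h1.subset ?_
  intro x hx
  have : ∀ x ∈ Subring.closure T, x ∈ ncl (insert 1 T) := by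
    intro x hx
    induction hx using Subring.closure_induction with
    | mem x hx => exact NonUnitalSubring.subset_closure (Set.mem_insert_of_mem _ hx)
    | zero => exact NonUnitalSubring.zero_mem _
    | one => exact NonUnitalSubring.subset_closure (Set.mem_insert _ _)
    | add x y _ _ h1 h2 => exact NonUnitalSubring.add_mem _ h1 h2
    | neg x _ h1 => exact NonUnitalSubring.neg_mem _ h1
    | mul x y _ _ h1 h2 => exact NonUnitalSubring.mul_mem _ h1 h2
  exact this x hx

theorem per_of_fin (E : Subring D) (hE : (E : Set D).Finite) (x : D) (hx : x ∈ E) : Per x := by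
  obtain ⟨i, j, hi, hij, h⟩ := periodic_of_finite x (E : Set D) hE (fun i _ => E.pow_mem hx i)
  exact ⟨i, j, hi, hij, h⟩

theorem per_of_tor (x : D) (n : ℕ) (hn : 0 < n) (h : x ^ n = 1) : Per x :=
  ⟨n, n + n, hn, by omega, by rw [pow_add, h, one_mul]⟩

/-- **Quadratic elements.** In a domain of positive characteristic, two elements which are quadratic
over a finite ring which they centralize, and whose product has finite order, commute. -/
theorem quad_comm [IsDomain D] (m : ℕ) (hm : 0 < m) (hm0 : (m : D) = 0) (E : Subring D) (hE : (E : Set D).Finite)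
    (hEc : ∀ a ∈ E, ∀ b ∈ E, a * b = b * a) (x y : D) (hx : ∀ a ∈ E, x * a = a * x) (hy : ∀ a ∈ E, y * a = a * y)
    (α β γ δ : D) (hα : α ∈ E) (hβ : β ∈ E) (hγ : γ ∈ E) (hδ : δ ∈ E) (hxx : x * x = α * x + β)
    (hyy : y * y = γ * y + δ) (n : ℕ) (hn : 0 < n) (hg : (x * y) ^ n = 1) : x * y = y * x := by
  have hms : ∀ x : D, m • x = 0 := fun x => by rw [nsmul_eq_mul, hm0, zero_mul]
  set g := x * y with hgdef
  have hgE : ∀ a ∈ E, g * a = a * g := by
    intro a ha
    rw [hgdef, mul_assoc, hy a ha, ← mul_assoc, hx a ha, mul_assoc]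
  -- the ring generated by `E` and `g`
  let T := Subring.closure (insert g (E : Set D))
  have hT : (T : Set D).Finite := by
    refine cl_fin _ (hE.insert g) ?_ ?_ m hm hm0
    · intro a ha b hb
      rcases ha with rfl | ha
      · rcases hb with rfl | hb
        · rfl
        · exact hgE b hb
      · rcases hb with rfl | hb
        · exact (hgE a ha).symm
        · exact hEc a ha b hb
    · intro a ha
      rcases ha with rfl | ha
      · exact per_of_tor _ n hn hg
      · exact per_of_fin E hE a ha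
  have hgT : g ∈ T := Subring.subset_closure (Set.mem_insert _ _)
  have hET : ∀ a ∈ E, a ∈ T := fun a ha => Subring.subset_closure (Set.mem_insert_of_mem _ ha)
  set t := x * y + y * x - γ * x - α * y with ht
  have h1 : (y - γ) * (x - α) = g ^ (n - 1) * (β * δ) := by
    have h2 : g * ((y - γ) * (x - α)) = β * δ := by
      have e1 : y * (y - γ) = δ := by rw [mul_sub, hyy, hy γ hγ]; abel
      have e2 : x * (x - α) = β := by rw [mul_sub, hxx, hx α hα]; abel
      calc g * ((y - γ) * (x - α)) = x * (y * (y - γ)) * (x - α) := by rw [hgdef]; noncomm_ring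
        _ = δ * (x * (x - α)) := by rw [e1, hx δ hδ]; noncomm_ring
        _ = β * δ := by rw [e2, hEc δ hδ β hβ]
    rw [← h2, ← mul_assoc, ← pow_succ, show n - 1 + 1 = n by omega, hg, one_mul]
  have htT : t ∈ T := by
    have : t = g + (y - γ) * (x - α) - γ * α := by
      rw [ht, hgdef, sub_mul, mul_sub, mul_sub, hy α hα]; abel
    rw [this, h1]
    refine T.sub_mem (T.add_mem hgT (T.mul_mem (T.pow_mem hgT _) (T.mul_mem (hET _ hβ) (hET _ hδ)))) (T.mul_mem (hET _ hγ) (hET _ hα))
  have hxt : x * t = t * x := by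
    have e1 : x * (γ * x) = γ * (x * x) := by rw [← mul_assoc, hx γ hγ, mul_assoc]
    have e2 : x * (α * y) = α * (x * y) := by rw [← mul_assoc, hx α hα, mul_assoc]
    have e3 : y * (α * x) = α * (y * x) := by rw [← mul_assoc, hy α hα, mul_assoc]
    calc x * t = (x * x) * y + x * y * x - x * (γ * x) - x * (α * y) := by rw [ht]; noncomm_ring
      _ = (α * x + β) * y + x * y * x - γ * (x * x) - α * (x * y) := by rw [hxx, e1, e2, hxx]
      _ = β * y + x * y * x - γ * (x * x) := by noncomm_ring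
      _ = y * β + x * y * x - γ * (x * x) := by rw [hy β hβ]
      _ = x * y * x + y * (α * x + β) - γ * (x * x) - α * (y * x) := by rw [mul_add, e3]; abel
      _ = t * x := by rw [← hxx, ht]; noncomm_ring
  have hyt : y * t = t * y := by
    have e1 : y * (γ * x) = γ * (y * x) := by rw [← mul_assoc, hy γ hγ, mul_assoc]
    have e2 : y * (α * y) = α * (y * y) := by rw [← mul_assoc, hy α hα, mul_assoc]
    have e3 : x * (γ * y) = γ * (x * y) := by rw [← mul_assoc, hx γ hγ, mul_assoc]
    calc y * t = y * x * y + (y * y) * x - y * (γ * x) - y * (α * y) := by rw [ht]; noncomm_ring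
      _ = y * x * y + (γ * y + δ) * x - γ * (y * x) - α * (y * y) := by rw [hyy, e1, e2, hyy]
      _ = y * x * y + δ * x - α * (y * y) := by noncomm_ring
      _ = y * x * y + x * δ - α * (y * y) := by rw [hx δ hδ]
      _ = x * (γ * y + δ) + y * x * y - γ * (x * y) - α * (y * y) := by rw [mul_add, e3]; abel
      _ = t * y := by rw [← hyy, ht]; noncomm_ring
  have hxE' : ∀ a ∈ Subring.closure (insert t (E : Set D)), x * a = a * x := by
    refine cl_comm_right _ x ?_
    intro s hs
    rcases hs with rfl | hs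
    · exact hxt
    · exact hx s hs
  have hyE' : ∀ a ∈ Subring.closure (insert t (E : Set D)), y * a = a * y := by
    refine cl_comm_right _ y ?_
    intro s hs
    rcases hs with rfl | hs
    · exact hyt
    · exact hy s hs
  set T' := Subring.closure (insert t (E : Set D)) with hT'
  have hT'fin : (T' : Set D).Finite := by
    refine hT.subset ?_
    have : T' ≤ T := by
      rw [hT', Subring.closure_le]
      intro s hs
      rcases hs with rfl | hs
      · exact htT
      · exact hET s hs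
    exact this
  have htT' : t ∈ T' := Subring.subset_closure (Set.mem_insert _ _)
  have hE' : ∀ a ∈ E, a ∈ T' := fun a ha => Subring.subset_closure (Set.mem_insert_of_mem _ ha)
  have hα' := hE' α hα
  have hβ' := hE' β hβ
  have hγ' := hE' γ hγ
  have hδ' := hE' δ hδ
  -- the span
  let Z : Set D := {w | ∃ c ∈ T', ∃ b ∈ ({1, x, y, x * y} : Set D), w = c * b}
  have hZ : Z.Finite := by
    refine ((hT'fin.prod (Set.toFinite ({1, x, y, x * y} : Set D))).image (fun q : D × D => q.1 * q.2)).subset ?_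
    rintro _ ⟨c, hc, b, hb, rfl⟩
    exact ⟨(c, b), ⟨hc, hb⟩, rfl⟩
  let W := AddSubgroup.closure Z
  have hWfin : (W : Set D).Finite := fin_clos Z hZ (fun x _ => ⟨m, hm, hms x⟩)
  have hW1 : ∀ c ∈ T', c ∈ W := fun c hc => AddSubgroup.subset_closure ⟨c, hc, 1, by simp, by rw [mul_one]⟩
  have hWx : ∀ c ∈ T', c * x ∈ W := fun c hc => AddSubgroup.subset_closure ⟨c, hc, x, by simp, rfl⟩
  have hWy : ∀ c ∈ T', c * y ∈ W := fun c hc => AddSubgroup.subset_closure ⟨c, hc, y, by simp, rfl⟩
  have hWxy : ∀ c ∈ T', c * (x * y) ∈ W := fun c hc => AddSubgroup.subset_closure ⟨c, hc, x * y, by simp, rfl⟩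
  -- left multiplications
  have hyx : y * x = t + γ * x + α * y - x * y := by rw [ht]; abel
  have mulT : ∀ c ∈ T', ∀ w ∈ W, c * w ∈ W := by
    intro c hc w hw
    induction hw using AddSubgroup.closure_induction with
    | mem w hw =>
      obtain ⟨d, hd, b, hb, rfl⟩ := hw
      exact AddSubgroup.subset_closure ⟨c * d, T'.mul_mem hc hd, b, hb, by rw [mul_assoc]⟩
    | zero => rw [mul_zero]; exact W.zero_mem
    | add y z _ _ h1 h2 => rw [mul_add]; exact W.add_mem h1 h2
    | neg y _ h1 => rw [mul_neg]; exact W.neg_mem h1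
  have mulx : ∀ w ∈ W, x * w ∈ W := by
    intro w hw
    induction hw using AddSubgroup.closure_induction with
    | mem w hw =>
      obtain ⟨d, hd, b, hb, rfl⟩ := hw
      have e : x * (d * b) = d * (x * b) := by rw [← mul_assoc, hxE' d hd, mul_assoc]
      rw [e]
      refine mulT d hd _ ?_
      rcases hb with rfl | rfl | rfl | rfl
      · rw [mul_one]; simpa using hWx 1 T'.one_mem
      · rw [hxx]; exact W.add_mem (hWx _ hα') (hW1 _ hβ')
      · simpa using hWxy 1 T'.one_mem
      · have : x * (x * y) = α * (x * y) + β * y := by rw [← mul_assoc, hxx, add_mul, mul_assoc]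
        rw [this]
        exact W.add_mem (hWxy _ hα') (hWy _ hβ')
    | zero => rw [mul_zero]; exact W.zero_mem
    | add y z _ _ h1 h2 => rw [mul_add]; exact W.add_mem h1 h2
    | neg y _ h1 => rw [mul_neg]; exact W.neg_mem h1
  have muly : ∀ w ∈ W, y * w ∈ W := by
    intro w hw
    induction hw using AddSubgroup.closure_induction with
    | mem w hw =>
      obtain ⟨d, hd, b, hb, rfl⟩ := hw
      have e : y * (d * b) = d * (y * b) := by rw [← mul_assoc, hyE' d hd, mul_assoc]
      rw [e]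
      refine mulT d hd _ ?_
      rcases hb with rfl | rfl | rfl | rfl
      · rw [mul_one]; simpa using hWy 1 T'.one_mem
      · rw [hyx]
        exact W.sub_mem (W.add_mem (W.add_mem (hW1 _ htT') (hWx _ hγ')) (hWy _ hα')) (by simpa using hWxy 1 T'.one_mem)
      · rw [hyy]; exact W.add_mem (hWy _ hγ') (hW1 _ hδ')
      · have : y * (x * y) = t * y + (α * γ) * y + α * δ - δ * x := by
          have e1 : x * (y * y) = γ * (x * y) + δ * x := by
            rw [hyy, mul_add, ← mul_assoc, hx γ hγ, mul_assoc, hx δ hδ]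
          calc y * (x * y) = (y * x) * y := by rw [mul_assoc]
            _ = t * y + γ * (x * y) + α * (y * y) - x * (y * y) := by rw [hyx]; noncomm_ring
            _ = _ := by rw [e1, hyy]; noncomm_ring
        rw [this]
        exact W.sub_mem (W.add_mem (W.add_mem (hWy _ htT') (hWy _ (T'.mul_mem hα' hγ'))) (hW1 _ (T'.mul_mem hα' hδ'))) (hWx _ hδ')
    | zero => rw [mul_zero]; exact W.zero_mem
    | add y z _ _ h1 h2 => rw [mul_add]; exact W.add_mem h1 h2
    | neg y _ h1 => rw [mul_neg]; exact W.neg_mem h1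
  have mulW : ∀ v ∈ W, ∀ w ∈ W, v * w ∈ W := by
    intro v hv w hw
    induction hv using AddSubgroup.closure_induction with
    | mem v hv =>
      obtain ⟨d, hd, b, hb, rfl⟩ := hv
      rw [mul_assoc]
      refine mulT d hd _ ?_
      rcases hb with rfl | rfl | rfl | rfl
      · rw [one_mul]; exact hw
      · exact mulx w hw
      · exact muly w hw
      · rw [mul_assoc]; exact mulx _ (muly w hw)
    | zero => rw [zero_mul]; exact W.zero_mem
    | add y z _ _ h1 h2 => rw [add_mul]; exact W.add_mem h1 h2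
    | neg y _ h1 => rw [neg_mul]; exact W.neg_mem h1
  let B : Subring D :=
    { carrier := W
      mul_mem' := fun ha hb => mulW _ ha _ hb
      one_mem' := hW1 1 T'.one_mem
      add_mem' := fun ha hb => W.add_mem ha hb
      zero_mem' := W.zero_mem
      neg_mem' := fun ha => W.neg_mem ha }
  have hB : Finite B := hWfin
  have hF := Finite.isDomain_to_isField B
  have hxB : x ∈ W := by simpa using hWx 1 T'.one_mem
  have hyB : y ∈ W := by simpa using hWy 1 T'.one_mem
  have h5 := hF.mul_comm (⟨x, hxB⟩ : B) (⟨y, hyB⟩ : B)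
  exact congrArg Subtype.val h5

/-- Passing to a subgroup of finite index which centralizes a commutative set. -/
theorem cent_step [IsDomain D] (m : ℕ) (hm : 0 < m) (hm0 : (m : D) = 0) (n : ℕ) (hn : 0 < n)
    (E : Subring D) (hE : (E : Set D).Finite)
    (hEc : ∀ a ∈ E, ∀ b ∈ E, a * b = b * a) (H : Subgroup Dˣ) (hH : H.FG) (hHn : ∀ x ∈ H, x ^ n = 1)
    (hHE : ∀ x ∈ H, ∀ a ∈ E, (x : D) * a = a * x) (Y : Set Dˣ) (hYH : ∀ y ∈ Y, y ∈ H)
    (hYc : ∀ y ∈ Y, ∀ z ∈ Y, (y : D) * z = z * y) (hYn : ∀ x ∈ H, ∀ y ∈ Y, x * y * x⁻¹ ∈ Y) :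
    ∃ (E' : Subring D) (C : Subgroup Dˣ), (E' : Set D).Finite ∧ (∀ a ∈ E', ∀ b ∈ E', a * b = b * a) ∧ E ≤ E' ∧
      (∀ y ∈ Y, (y : D) ∈ E') ∧ C ≤ H ∧ C.FG ∧ (∀ x ∈ C, ∀ a ∈ E', (x : D) * a = a * x) ∧ (Finite C → Finite H) := by
  classical
  -- finiteness of `Y`
  have hYfin : Y.Finite := by
    let T := Subring.closure (Units.val '' Y)
    have hTc : ∀ a ∈ T, ∀ b ∈ T, a * b = b * a := by
      refine cl_comm _ ?_
      rintro _ ⟨y, hy, rfl⟩ _ ⟨z, hz, rfl⟩
      exact hYc y hy z hz
    letI : CommRing T := { (inferInstance : Ring T) with mul_comm := fun a b => Subtype.ext (hTc a a.2 b b.2) }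
    have hdT : IsDomain T := inferInstance
    have h1 : {b : T | b ^ n = 1}.Finite := by
      refine ((Polynomial.nthRoots n (1 : T)).toFinset.finite_toSet).subset ?_
      intro b hb
      rw [Finset.mem_coe, Multiset.mem_toFinset, Polynomial.mem_nthRoots hn]
      exact hb
    have h2 : (Units.val '' Y).Finite := by
      refine (h1.image (fun b : T => (b : D))).subset ?_
      rintro _ ⟨y, hy, rfl⟩
      refine ⟨⟨(y : D), Subring.subset_closure ⟨y, hy, rfl⟩⟩, ?_, rfl⟩
      apply Subtype.ext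
      show (y : D) ^ n = 1
      rw [← Units.val_pow_eq_pow_val, hHn y (hYH y hy), Units.val_one]
    exact Set.Finite.of_finite_image h2 (Units.val_injective.injOn)
  have hyn : ∀ y ∈ Y, (y : D) ^ n = 1 := by
    intro y hy
    rw [← Units.val_pow_eq_pow_val, hHn y (hYH y hy), Units.val_one]
  have hcomm : ∀ a ∈ (E : Set D) ∪ Units.val '' Y, ∀ b ∈ (E : Set D) ∪ Units.val '' Y, a * b = b * a := by
    rintro a (ha | ⟨y, hy, rfl⟩) b (hb | ⟨z, hz, rfl⟩)
    · exact hEc a ha b hb
    · exact (hHE z (hYH z hz) a ha).symm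
    · exact hHE y (hYH y hy) b hb
    · exact hYc y hy z hz
  let E' := Subring.closure ((E : Set D) ∪ Units.val '' Y)
  have hE'fin : (E' : Set D).Finite := by
    refine cl_fin _ (hE.union (hYfin.image _)) hcomm ?_ m hm hm0
    rintro a (ha | ⟨y, hy, rfl⟩)
    · exact per_of_fin E hE a ha
    · exact per_of_tor _ n hn (hyn y hy)
  -- the action on `Y`
  have hYn' : ∀ x : H, ∀ y : Y, (x : Dˣ) * y * (x : Dˣ)⁻¹ ∈ Y := fun x y => hYn x x.2 y y.2
  let ρ : H →* Equiv.Perm Y :=
    { toFun := fun x =>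
        { toFun := fun y => ⟨(x : Dˣ) * y * (x : Dˣ)⁻¹, hYn' x y⟩
          invFun := fun y => ⟨((x⁻¹ : H) : Dˣ) * y * ((x⁻¹ : H) : Dˣ)⁻¹, hYn' x⁻¹ y⟩
          left_inv := fun y => Subtype.ext (by simp [mul_assoc])
          right_inv := fun y => Subtype.ext (by simp [mul_assoc]) }
      map_one' := by ext y; simp
      map_mul' := by intro a b; ext y; simp [mul_assoc] }
  have : Finite Y := hYfin
  have hker : ∀ x : H, x ∈ ρ.ker → ∀ y ∈ Y, (x : Dˣ) * y = y * x := by
    intro x hx y hy
    have h1 : ρ x = 1 := hx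
    have h2 := congrArg (fun f : Equiv.Perm Y => ((f ⟨y, hy⟩ : Y) : Dˣ)) h1
    have h3 : (x : Dˣ) * y * (x : Dˣ)⁻¹ = y := h2
    calc (x : Dˣ) * y = (x : Dˣ) * y * (x : Dˣ)⁻¹ * x := by rw [inv_mul_cancel_right]
      _ = y * x := by rw [h3]
  have hHG : Group.FG H := (Group.fg_iff_subgroup_fg H).mpr hH
  refine ⟨E', ρ.ker.map H.subtype, hE'fin, cl_comm _ hcomm, fun a ha => Subring.subset_closure (Or.inl ha),
    fun y hy => Subring.subset_closure (Or.inr ⟨y, hy, rfl⟩), ?_, ?_, ?_, ?_⟩
  · rintro _ ⟨x, _, rfl⟩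
    exact x.2
  · rw [← Group.fg_iff_subgroup_fg]
    exact Group.fg_of_surjective (f := (ρ.ker.equivMapOfInjective H.subtype (Subgroup.subtype_injective H)).toMonoidHom)
      (ρ.ker.equivMapOfInjective H.subtype (Subgroup.subtype_injective H)).surjective
  · rintro _ ⟨x, hx, rfl⟩ a ha
    refine cl_comm_right _ _ ?_ a ha
    rintro b (hb | ⟨y, hy, rfl⟩)
    · exact hHE x x.2 b hb
    · have := hker x hx y hy
      exact congrArg Units.val this
  · intro hfin
    have h1 : Finite ρ.ker := Finite.of_equiv _ (ρ.ker.equivMapOfInjective H.subtype (Subgroup.subtype_injective H)).symm.toEquiv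
    exact ρ.finite_iff_finite_ker_range.mpr ⟨h1, inferInstance⟩

end

/-- A finitely generated group with a finite normal subgroup whose quotient has exponent three. -/
theorem fin_three {C : Type u} [Group C] [Group.FG C] (Z : Subgroup C) [Z.Normal] [Finite Z]
    (h : ∀ x : C, x ^ 3 ∈ Z) : Finite C := by
  obtain ⟨S, hS⟩ := (inferInstance : Group.FG C).out
  have h1 := Q6.FreeAct.finite_of_quotient Z (S : Set C) (by
    refine Q6.Deg.inL_three _ ?_ _ (S.finite_toSet.image _)
    intro q
    obtain ⟨g, rfl⟩ := QuotientGroup.mk'_surjective Z q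
    rw [← map_pow]
    exact (QuotientGroup.eq_one_iff (g ^ 3)).2 (h g))
  rw [hS] at h1
  exact Finite.of_equiv _ Subgroup.topEquiv.toEquiv

theorem two_pow_mod (k : ℕ) : 2 ^ k % 3 = 1 ∨ 2 ^ k % 3 = 2 := by
  induction k with
  | zero => left; rfl
  | succ k ih =>
    rw [pow_succ]
    rcases ih with h | h <;> omega

theorem pos_ind {D : Type u} [Ring D] [IsDomain D] (m : ℕ) (hm : 0 < m) (hm0 : (m : D) = 0) (k : ℕ) : ∀ (j : ℕ)
    (E : Subring D), (E : Set D).Finite → (∀ a ∈ E, ∀ b ∈ E, a * b = b * a) → ∀ H : Subgroup Dˣ, H.FG →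
    (∀ x ∈ H, x ^ (9 * 2 ^ k) = 1) → (∀ x ∈ H, ∀ a ∈ E, (x : D) * a = a * x) →
    (∀ x ∈ H, ((x ^ (9 * 2 ^ j) : Dˣ) : D) ∈ E) → Finite H := by
  have hn : 0 < 9 * 2 ^ k := by positivity
  intro j
  induction j with
  | zero =>
    intro E hE hEc H hH hHn hHE hj
    have hval : ∀ x ∈ H, (x : D) ^ (9 * 2 ^ k) = 1 := by
      intro x hx
      rw [← Units.val_pow_eq_pow_val, hHn x hx, Units.val_one]
    obtain ⟨E', C, hE', hEc', hEE', hYE, hCH, hC, hCE, hfin⟩ := cent_step m hm hm0 (9 * 2 ^ k) hn E hE hEc H hH hHn hHE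
      {y | y ∈ H ∧ y ^ 3 = 1} (fun y hy => hy.1) (by
        rintro y ⟨hy, hy3⟩ z ⟨hz, hz3⟩
        have quad : ∀ y : Dˣ, y ^ 3 = 1 → y ≠ 1 → (y : D) * y = (-1) * y + (-1) := by
          intro y hy3 hy1
          have h1 : ((y : D) - 1) * ((y : D) * y + y + 1) = 0 := by
            have : (y : D) ^ 3 = 1 := by rw [← Units.val_pow_eq_pow_val, hy3, Units.val_one]
            have e : ((y : D) - 1) * ((y : D) * y + y + 1) = (y : D) ^ 3 - 1 := by noncomm_ring
            rw [e, this, sub_self]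
          rcases mul_eq_zero.mp h1 with h | h
          · exact absurd (Units.ext (by rw [Units.val_one]; exact sub_eq_zero.mp h)) hy1
          · have : (y : D) * y = ((y : D) * y + y + 1) - y - 1 := by abel
            rw [this, h]; noncomm_ring
        by_cases hy1 : y = 1
        · rw [hy1, Units.val_one, one_mul, mul_one]
        by_cases hz1 : z = 1
        · rw [hz1, Units.val_one, one_mul, mul_one]
        have hm1 : (-1 : D) ∈ E := E.neg_mem E.one_mem
        refine quad_comm m hm hm0 E hE hEc y z (hHE y hy) (hHE z hz) (-1) (-1) (-1) (-1) hm1 hm1 hm1 hm1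
          (quad y hy3 hy1) (quad z hz3 hz1) _ hn ?_
        exact hval _ (H.mul_mem hy hz)) (by
        rintro x hx y ⟨hy, hy3⟩
        refine ⟨H.mul_mem (H.mul_mem hx hy) (H.inv_mem hx), ?_⟩
        rw [conj_pow, hy3, mul_one, mul_inv_cancel])
    apply hfin
    have hCG : Group.FG C := (Group.fg_iff_subgroup_fg C).mpr hC
    -- the cubes are in `E'`
    have hcube : ∀ x ∈ C, ((x ^ 3 : Dˣ) : D) ∈ E' := by
      intro x hx
      have hxH := hCH hx
      have h9 : ((x ^ 9 : Dˣ) : D) ∈ E' := by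
        have := hEE' (hj x hxH)
        simpa using this
      have hv : ((x ^ (3 * 2 ^ k) : Dˣ) : D) ∈ E' := by
        refine hYE _ ⟨H.pow_mem hxH _, ?_⟩
        rw [← pow_mul, show 3 * 2 ^ k * 3 = 9 * 2 ^ k by ring]
        exact hHn x hxH
      obtain ⟨a, b, hab⟩ : ∃ a b : ℕ, 9 * a + 3 * 2 ^ k * b = 3 + 9 * 2 ^ k * b := by
        -- `9 a = 3 + 6 * 2 ^ k * b`, that is `3 a = 1 + 2 * 2 ^ k * b`
        rcases two_pow_mod k with h | h
        · exact ⟨(1 + 2 * 2 ^ k) / 3, 1, by omega⟩
        · exact ⟨(1 + 4 * 2 ^ k) / 3, 2, by omega⟩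
      have h3 : x ^ 3 = (x ^ 9) ^ a * (x ^ (3 * 2 ^ k)) ^ b := by
        rw [← pow_mul, ← pow_mul, ← pow_add, hab, pow_add, pow_mul x (9 * 2 ^ k), hHn x hxH, one_pow, mul_one]
      rw [h3, Units.val_mul, Units.val_pow_eq_pow_val, Units.val_pow_eq_pow_val (x ^ (3 * 2 ^ k))]
      exact E'.mul_mem (E'.pow_mem h9 _) (E'.pow_mem hv _)
    let Z : Subgroup C :=
      { carrier := {x | ((x : Dˣ) : D) ∈ E'}
        one_mem' := E'.one_mem
        mul_mem' := fun {a b} ha hb => by
          show ((((a * b : C) : Dˣ)) : D) ∈ E'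
          rw [Subgroup.coe_mul, Units.val_mul]
          exact E'.mul_mem ha hb
        inv_mem' := fun {a} ha => by
          have h1 : ((a : Dˣ))⁻¹ = (a : Dˣ) ^ (9 * 2 ^ k - 1) := by
            rw [eq_comm, eq_inv_iff_mul_eq_one, ← pow_succ, show 9 * 2 ^ k - 1 + 1 = 9 * 2 ^ k by omega]
            exact hHn _ (hCH a.2)
          show ((((a⁻¹ : C) : Dˣ)) : D) ∈ E'
          rw [Subgroup.coe_inv, h1, Units.val_pow_eq_pow_val]
          exact E'.pow_mem ha _ }
    have hZn : Z.Normal := by
      constructor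
      intro z hz g
      have h1 : g * z * g⁻¹ = z := by
        have h2 : (((g : Dˣ)) : D) * ((z : Dˣ) : D) = ((z : Dˣ) : D) * ((g : Dˣ) : D) := hCE g g.2 _ hz
        have h3 : g * z = z * g := Subtype.ext (Units.ext h2)
        rw [h3, mul_inv_cancel_right]
      rw [h1]
      exact hz
    have hZf : Finite Z := by
      have h1 : Finite (E' : Set D) := hE'
      refine Finite.of_injective (fun z : Z => (⟨((z : C) : Dˣ), z.2⟩ : (E' : Set D))) ?_
      intro a b hab
      have := congrArg Subtype.val hab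
      exact Subtype.ext (Subtype.ext (Units.ext this))
    exact fin_three Z (fun x => hcube x x.2)
  | succ j ih =>
    intro E hE hEc H hH hHn hHE hj
    have hval : ∀ x ∈ H, (x : D) ^ (9 * 2 ^ k) = 1 := by
      intro x hx
      rw [← Units.val_pow_eq_pow_val, hHn x hx, Units.val_one]
    obtain ⟨E', C, hE', hEc', hEE', hYE, hCH, hC, hCE, hfin⟩ := cent_step m hm hm0 (9 * 2 ^ k) hn E hE hEc H hH hHn hHE
      {y | ∃ x ∈ H, y = x ^ (9 * 2 ^ j)} (by rintro _ ⟨x, hx, rfl⟩; exact H.pow_mem hx _) (by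
        rintro _ ⟨x, hx, rfl⟩ _ ⟨z, hz, rfl⟩
        have quad : ∀ x ∈ H, (((x ^ (9 * 2 ^ j) : Dˣ)) : D) * ((x ^ (9 * 2 ^ j) : Dˣ) : D) = 0 * ((x ^ (9 * 2 ^ j) : Dˣ) : D) + ((x ^ (9 * 2 ^ (j + 1)) : Dˣ) : D) := by
          intro x _
          rw [zero_mul, zero_add, ← Units.val_mul, ← pow_add]
          congr 2
          ring
        refine quad_comm m hm hm0 E hE hEc _ _ (hHE _ (H.pow_mem hx _)) (hHE _ (H.pow_mem hz _)) 0 _ 0 _ E.zero_mem (hj x hx)
          E.zero_mem (hj z hz) (quad x hx) (quad z hz) _ hn ?_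
        exact hval _ (H.mul_mem (H.pow_mem hx _) (H.pow_mem hz _))) (by
        rintro x hx _ ⟨z, hz, rfl⟩
        refine ⟨x * z * x⁻¹, H.mul_mem (H.mul_mem hx hz) (H.inv_mem hx), ?_⟩
        rw [conj_pow])
    apply hfin
    refine ih E' hE' hEc' C hC (fun x hx => hHn x (hCH hx)) hCE ?_
    intro x hx
    exact hYE _ ⟨x, hCH hx, rfl⟩

/-- **Domains of positive characteristic.** -/
theorem dom_pos {D : Type u} [Ring D] [IsDomain D] (m : ℕ) (hm : 0 < m) (hm0 : (m : D) = 0) (k : ℕ) (H : Subgroup Dˣ)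
    (hH : H.FG) (hHn : ∀ x ∈ H, x ^ (9 * 2 ^ k) = 1) : Finite H := by
  refine pos_ind m hm hm0 k k (Subring.closure ∅) (cl_fin ∅ Set.finite_empty (by simp) (by simp) m hm hm0)
    (cl_comm ∅ (by simp)) H hH hHn ?_ ?_
  · intro x _ a ha
    exact cl_comm_right ∅ _ (by simp) a ha
  · intro x hx
    rw [hHn x hx, Units.val_one]
    exact Subring.one_mem _

end Q23.UG
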