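import Pool.Agent.Q23.UG.Gen

/-!
# Finitely generated groups of units of reduced rings: reduction to domains
-/

namespace Q23.UG

variable {A : Type*} [Ring A]

/-- The elements of `H` congruent to `1` modulo `Q`. -/
def KQ (H : Subgroup Aˣ) (Q : Ideal A) [Q.IsTwoSided] : Subgroup H where
  carrier := {h | ((h : Aˣ) : A) - 1 ∈ Q}
  one_mem' := by simp
  mul_mem' := by
    intro a b ha hb
    have e : (((a * b : H) : Aˣ) : A) - 1 = (((a : Aˣ) : A) - 1) * ((b : Aˣ) : A) + (((b : Aˣ) : A) - 1) := by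
      rw [Subgroup.coe_mul, Units.val_mul, sub_mul, one_mul]; abel
    show _ ∈ Q
    rw [e]
    exact Q.add_mem (Ideal.mul_mem_right _ _ ha) hb
  inv_mem' := by
    intro a ha
    have e : (((a⁻¹ : H) : Aˣ) : A) - 1 = -((((a⁻¹ : H) : Aˣ) : A) * (((a : Aˣ) : A) - 1)) := by
      rw [mul_sub, mul_one, Subgroup.coe_inv, Units.inv_mul]; abel
    show _ ∈ Q
    rw [e]
    exact Q.neg_mem (Q.mul_mem_left _ ha)

theorem mem_KQ {H : Subgroup Aˣ} {Q : Ideal A} [Q.IsTwoSided] {h : H} : h ∈ KQ H Q ↔ ((h : Aˣ) : A) - 1 ∈ Q :=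
  Iff.rfl

/-- A two-sided ideal with reduced quotient. -/
structure RdI (Q : Ideal A) : Prop where
  two : Q.IsTwoSided
  red : ∀ y : A, y * y ∈ Q → y ∈ Q

theorem RdI.right {Q : Ideal A} (h : RdI Q) {a : A} (b : A) (ha : a ∈ Q) : a * b ∈ Q := by
  have := h.two
  exact Ideal.mul_mem_right _ _ ha

theorem RdI.comm {Q : Ideal A} (h : RdI Q) {a b : A} (hab : a * b ∈ Q) : b * a ∈ Q := by
  apply h.red
  have e : b * a * (b * a) = b * (a * b) * a := by noncomm_ring
  rw [e]
  exact h.right _ (Q.mul_mem_left _ hab)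

theorem RdI.ins {Q : Ideal A} (h : RdI Q) {a b : A} (hab : a * b ∈ Q) (r : A) : a * r * b ∈ Q := by
  apply h.red
  have e : a * r * b * (a * r * b) = a * r * (b * a) * (r * b) := by noncomm_ring
  rw [e]
  exact h.right _ (Q.mul_mem_left _ (h.comm hab))

/-- The ideal quotient `{y | a y ∈ Q}`. -/
def ann (Q : Ideal A) (h : RdI Q) (a : A) : Ideal A where
  carrier := {y | a * y ∈ Q}
  add_mem' := by
    intro x y hx hy
    show a * (x + y) ∈ Q
    rw [mul_add]; exact Q.add_mem hx hy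
  zero_mem' := by show a * 0 ∈ Q; rw [mul_zero]; exact Q.zero_mem
  smul_mem' := by
    intro r y hy
    show a * (r * y) ∈ Q
    rw [← mul_assoc]
    exact h.ins hy r

theorem mem_ann {Q : Ideal A} {h : RdI Q} {a y : A} : y ∈ ann Q h a ↔ a * y ∈ Q := Iff.rfl

theorem ann_rd {Q : Ideal A} (h : RdI Q) (a : A) : RdI (ann Q h a) := by
  constructor
  · constructor
    intro y r hy
    rw [mem_ann] at hy ⊢
    rw [← mul_assoc]
    exact h.right _ hy
  · intro y hy
    rw [mem_ann] at hy ⊢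
    apply h.red
    rw [← mul_assoc] at hy
    have := h.ins hy a
    rwa [mul_assoc (a * y)] at this

/-- The double annihilator `{y | y J ⊆ Q}`. -/
def ann2 (Q : Ideal A) (h : RdI Q) (J : Ideal A) : Ideal A where
  carrier := {y | ∀ z ∈ J, y * z ∈ Q}
  add_mem' := by
    intro x y hx hy z hz
    rw [add_mul]; exact Q.add_mem (hx z hz) (hy z hz)
  zero_mem' := by
    intro z _
    rw [zero_mul]; exact Q.zero_mem
  smul_mem' := by
    intro r y hy z hz
    rw [smul_eq_mul, mul_assoc]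
    exact Q.mul_mem_left _ (hy z hz)

theorem mem_ann2 {Q : Ideal A} {h : RdI Q} {J : Ideal A} {y : A} : y ∈ ann2 Q h J ↔ ∀ z ∈ J, y * z ∈ Q := Iff.rfl

theorem ann2_rd {Q : Ideal A} (h : RdI Q) (J : Ideal A) : RdI (ann2 Q h J) := by
  constructor
  · constructor
    intro y r hy
    rw [mem_ann2] at hy ⊢
    intro z hz
    rw [mul_assoc]
    exact hy (r * z) (J.mul_mem_left _ hz)
  · intro y hy
    rw [mem_ann2] at hy ⊢
    intro z hz
    have h1 := hy z hz
    rw [mul_assoc] at h1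
    have h2 := h.comm h1
    apply h.red
    have e : y * z * (y * z) = y * z * y * z := by noncomm_ring
    rw [e]
    exact h.right _ h2

/-- **Reduction to domains.** -/
theorem fin_red {A : Type*} [Ring A] (hR : Rd A) (H : Subgroup Aˣ) (hH : H.FG)
    (hD : ∀ (Q : Ideal A) [Q.IsTwoSided], IsDomain (A ⧸ Q) →
      Finite (H.map (Units.map (Ideal.Quotient.mk Q : A →* A ⧸ Q)))) : Finite H := by
  classical
  by_contra hinf
  have hHG : Group.FG H := (Group.fg_iff_subgroup_fg H).mpr hH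
  let S : Set (Ideal A) := {Q | ∃ h : RdI Q, ¬ (@KQ A _ H Q h.two).FiniteIndex}
  have hbot : RdI (⊥ : Ideal A) := ⟨inferInstance, fun y hy => by
    rw [Ideal.mem_bot] at hy ⊢
    exact hR y hy⟩
  have hbotS : (⊥ : Ideal A) ∈ S := by
    refine ⟨hbot, fun hfi => hinf ?_⟩
    have h1 : @KQ A _ H ⊥ hbot.two = ⊥ := by
      rw [eq_bot_iff]
      intro x hx
      have h2 : ((x : Aˣ) : A) - 1 = 0 := Ideal.mem_bot.mp hx
      rw [Subgroup.mem_bot]
      exact Subtype.ext (Units.ext (by rw [sub_eq_zero] at h2; simpa using h2))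
    rw [h1] at hfi
    have h3 := hfi.index_ne_zero
    rw [Subgroup.index_bot] at h3
    exact Nat.finite_of_card_ne_zero h3
  obtain ⟨Q, -, hQ⟩ := zorn_le_nonempty₀ S (by
    intro c hc hchain y hy
    have hmem : ∀ x, x ∈ sSup c ↔ ∃ I ∈ c, x ∈ I := fun x => Submodule.mem_sSup_of_directed ⟨y, hy⟩ hchain.directedOn
    have hrd : RdI (sSup c) := by
      constructor
      · constructor
        intro a b ha
        rw [hmem] at ha ⊢
        obtain ⟨I, hI, haI⟩ := ha
        obtain ⟨h, -⟩ := hc hI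
        exact ⟨I, hI, h.right _ haI⟩
      · intro z hz
        rw [hmem] at hz ⊢
        obtain ⟨I, hI, haI⟩ := hz
        obtain ⟨h, -⟩ := hc hI
        exact ⟨I, hI, h.red z haI⟩
    refine ⟨sSup c, ⟨hrd, fun hfi => ?_⟩, fun z hz => le_sSup hz⟩
    have hfg : (@KQ A _ H (sSup c) hrd.two).FG := by
      rw [← Group.fg_iff_subgroup_fg]
      infer_instance
    obtain ⟨T, hT⟩ := hfg
    have hex : ∃ I ∈ c, ∀ t ∈ T, ((t : Aˣ) : A) - 1 ∈ I := by
      have hTs : ∀ t ∈ T, ((t : Aˣ) : A) - 1 ∈ sSup c := by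
        intro t ht
        have : t ∈ @KQ A _ H (sSup c) hrd.two := by rw [← hT]; exact Subgroup.subset_closure ht
        exact this
      clear hT
      induction T using Finset.induction_on with
      | empty => exact ⟨y, hy, by simp⟩
      | @insert a T ha ih =>
        obtain ⟨I, hI, h1⟩ := ih (fun t ht => hTs t (Finset.mem_insert_of_mem ht))
        obtain ⟨J, hJ, h2⟩ := (hmem _).mp (hTs a (Finset.mem_insert_self _ _))
        rcases hchain.total hI hJ with h | h
        · refine ⟨J, hJ, fun t ht => ?_⟩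
          rcases Finset.mem_insert.mp ht with rfl | ht
          · exact h2
          · exact h (h1 t ht)
        · refine ⟨I, hI, fun t ht => ?_⟩
          rcases Finset.mem_insert.mp ht with rfl | ht
          · exact h h2
          · exact h1 t ht
    obtain ⟨I, hI, h1⟩ := hex
    obtain ⟨h2, h3⟩ := hc hI
    apply h3
    have hle : @KQ A _ H (sSup c) hrd.two ≤ @KQ A _ H I h2.two := by
      rw [← hT, Subgroup.closure_le]
      exact h1
    exact Subgroup.finiteIndex_of_le hle) ⊥ hbotS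
  obtain ⟨hQr, hQi⟩ := hQ.prop
  have hmax : ∀ J : Ideal A, ∀ h : RdI J, Q ≤ J → ¬ (J ≤ Q) → (@KQ A _ H J h.two).FiniteIndex := by
    intro J h hQJ hJQ
    by_contra hcon
    exact hJQ (hQ.le_of_ge ⟨h, hcon⟩ hQJ)
  have h2s := hQr.two
  have hdom : ∀ a y : A, a * y ∈ Q → a ∈ Q ∨ y ∈ Q := by
    intro a y hay
    by_contra hcon
    push Not at hcon
    set J := ann Q hQr a with hJ
    set J' := ann2 Q hQr J with hJ'
    have hJr := ann_rd hQr a
    have hJr' := ann2_rd hQr J
    have h1 := hmax J hJr (fun z hz => by rw [hJ, mem_ann]; exact Q.mul_mem_left _ hz) (fun h => hcon.2 (h hay))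
    have h2 := hmax J' hJr' (fun z hz => by rw [hJ', mem_ann2]; exact fun w _ => hQr.right _ hz)
      (fun h => hcon.1 (h (by rw [hJ', mem_ann2]; exact fun w hw => hw)))
    apply hQi
    have hle : @KQ A _ H J hJr.two ⊓ @KQ A _ H J' hJr'.two ≤ @KQ A _ H Q hQr.two := by
      rintro x ⟨hx, hx'⟩
      apply hQr.red
      exact hx' _ hx
    have h3 : (@KQ A _ H J hJr.two ⊓ @KQ A _ H J' hJr'.two).FiniteIndex := inferInstance
    exact Subgroup.finiteIndex_of_le hle
  have h1Q : (1 : A) ∉ Q := by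
    intro h
    apply hQi
    have : @KQ A _ H Q hQr.two = ⊤ := by
      rw [eq_top_iff]
      intro x _
      rw [mem_KQ]
      rw [← mul_one (((x : Aˣ) : A) - 1)]
      exact Q.mul_mem_left _ h
    rw [this]
    infer_instance
  have hmk : ∀ x, Ideal.Quotient.mk Q x = 0 ↔ x ∈ Q := fun x => Ideal.Quotient.eq_zero_iff_mem
  have hnt : Nontrivial (A ⧸ Q) := ⟨⟨0, 1, fun h => h1Q ((hmk 1).mp (by rw [map_one, ← h]))⟩⟩
  have hnz : NoZeroDivisors (A ⧸ Q) := by
    constructor
    intro a b hab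
    obtain ⟨x, rfl⟩ := Ideal.Quotient.mk_surjective a
    obtain ⟨y, rfl⟩ := Ideal.Quotient.mk_surjective b
    rw [← map_mul, hmk] at hab
    rw [hmk, hmk]
    exact hdom x y hab
  have hdm : IsDomain (A ⧸ Q) := NoZeroDivisors.to_isDomain _
  let φ : H →* (A ⧸ Q)ˣ := (Units.map (Ideal.Quotient.mk Q : A →* A ⧸ Q)).comp H.subtype
  have hφ : ∀ u : H, ((φ u : (A ⧸ Q)ˣ) : A ⧸ Q) = Ideal.Quotient.mk Q ((u : Aˣ) : A) := fun u => rfl
  have hfin : Finite φ.range := by
    have h2 : φ.range = H.map (Units.map (Ideal.Quotient.mk Q : A →* A ⧸ Q)) := by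
      rw [MonoidHom.range_comp, Subgroup.range_subtype]
    rw [h2]
    exact hD Q hdm
  apply hQi
  have hker : φ.ker = @KQ A _ H Q hQr.two := by
    ext x
    rw [MonoidHom.mem_ker, mem_KQ, ← hmk, map_sub, map_one, sub_eq_zero, ← hφ]
    constructor
    · intro h; rw [h]; rfl
    · intro h; exact Units.ext h
  rw [← hker]
  infer_instance

end Q23.UG
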