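import Pool.Agent.Q23.UG.Lf

/-!
# Semiprime rings: Levitzki's lemma and prime ideals; lifting modulo locally finite ideals
-/

namespace Q23.UG

variable {A : Type*} [Ring A]

/-- Semiprime rings. -/
def SP (A : Type*) [Ring A] : Prop := ∀ z : A, (∀ r : A, z * r * z = 0) → z = 0

/-- **Levitzki's lemma.** -/
theorem levitzki (hA : SP A) : ∀ k : ℕ, ∀ c : A, (∀ x : A, (c * x) ^ k * c = 0) → c = 0 := by
  intro k
  induction k with
  | zero => intro c h; simpa using h 0
  | succ k ih =>
    intro c h
    rcases Nat.eq_zero_or_pos k with rfl | hk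
    · exact hA c (fun r => by simpa using h r)
    · refine ih c (fun x => ?_)
      refine ih _ (fun y => ?_)
      -- `a = (c x)^k c`, `P = a y`, `Q = (c x)^k`
      set Q := (c * x) ^ k with hQ
      set P := Q * c * y with hP
      have h2 : (c * x) ^ (2 * k) * c = 0 := by
        obtain ⟨m, hm⟩ : ∃ m, 2 * k = m + (k + 1) := ⟨k - 1, by omega⟩
        rw [hm, pow_add, mul_assoc, h x, mul_zero]
      have hQP : Q * P = 0 := by
        rw [hP, hQ, ← mul_assoc, ← mul_assoc, ← pow_add, ← two_mul, h2, zero_mul]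
      have hQQ : Q * Q * c = 0 := by
        rw [hQ, ← pow_add, ← two_mul, h2]
      have hexp : ∀ j : ℕ, (P + Q) ^ (j + 1) * c = P ^ (j + 1) * c + P ^ j * Q * c := by
        intro j
        induction j with
        | zero => simp [add_mul]
        | succ j ihj =>
          rw [pow_succ', mul_assoc, ihj]
          have e1 : Q * (P ^ (j + 1) * c + P ^ j * Q * c) = 0 := by
            rw [mul_add]
            have : Q * (P ^ (j + 1) * c) = 0 := by
              rw [pow_succ', ← mul_assoc, ← mul_assoc, hQP, zero_mul, zero_mul]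
            rw [this, zero_add]
            cases j with
            | zero => rw [pow_zero, one_mul, ← mul_assoc, hQQ]
            | succ j => rw [pow_succ', ← mul_assoc, ← mul_assoc, ← mul_assoc, hQP, zero_mul, zero_mul, zero_mul]
          rw [add_mul, e1, add_zero, mul_add]
          simp only [pow_succ', mul_assoc]
      obtain ⟨α, hα⟩ : ∃ α, c * α = Q := by
        refine ⟨x * (c * x) ^ (k - 1), ?_⟩
        rw [hQ, ← mul_assoc]
        conv_rhs => rw [show k = (k - 1) + 1 by omega]
        rw [pow_succ']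
      have h3 : c * (α * c * y) = P := by
        rw [hP, ← hα]; simp only [mul_assoc]
      have h4 : c * (α * c * y + α) = P + Q := by rw [mul_add, h3, hα]
      have h5 := h (α * c * y + α)
      rw [h4, hexp] at h5
      have h6 := h (α * c * y)
      rw [h3] at h6
      rw [h6, zero_add] at h5
      simpa [hP, mul_assoc] using h5

/-- Prime ideals of a noncommutative ring. -/
structure IsPr (P : Ideal A) : Prop where
  two : P.IsTwoSided
  pr : ∀ a b : A, (∀ r : A, a * r * b ∈ P) → a ∈ P ∨ b ∈ P

theorem IsPr.mul_right {P : Ideal A} (hP : IsPr P) {a : A} (b : A) (h : a ∈ P) : a * b ∈ P := by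
  have := hP.two
  exact Ideal.mul_mem_right _ _ h

/-- In a semiprime ring, every nonzero element is avoided by a prime ideal. -/
theorem exists_pr (hA : SP A) (x : A) (hx : x ≠ 0) : ∃ P : Ideal A, IsPr P ∧ x ∉ P := by
  classical
  have hstep : ∀ y : {y : A // y ≠ 0}, ∃ r : A, y.1 * r * y.1 ≠ 0 := by
    intro y
    by_contra hcon
    push Not at hcon
    exact y.2 (hA _ hcon)
  choose f hf using hstep
  let g : {y : A // y ≠ 0} → {y : A // y ≠ 0} := fun y => ⟨y.1 * f y * y.1, hf y⟩
  let X : ℕ → {y : A // y ≠ 0} := fun n => g^[n] ⟨x, hx⟩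
  have hX : ∀ n, (X (n + 1)).1 = (X n).1 * f (X n) * (X n).1 := by
    intro n
    show (g^[n + 1] ⟨x, hx⟩).1 = _
    rw [Function.iterate_succ_apply']
  have hXI : ∀ (I : Ideal A), I.IsTwoSided → ∀ i j, i ≤ j → (X i).1 ∈ I → (X j).1 ∈ I := by
    intro I hI i j hij h
    induction j, hij using Nat.le_induction with
    | base => exact h
    | succ j _ ih => rw [hX]; exact Ideal.mul_mem_left _ _ ih
  obtain ⟨P, hP⟩ := zorn_le_nonempty₀ {I : Ideal A | I.IsTwoSided ∧ ∀ n, (X n).1 ∉ I} (by
    intro c hc hchain y hy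
    refine ⟨sSup c, ⟨?_, ?_⟩, fun z hz => le_sSup hz⟩
    · constructor
      intro a b ha
      rw [Submodule.mem_sSup_of_directed ⟨y, hy⟩ hchain.directedOn] at ha ⊢
      obtain ⟨I, hI, haI⟩ := ha
      have := (hc hI).1
      exact ⟨I, hI, Ideal.mul_mem_right _ _ haI⟩
    · intro n hn
      rw [Submodule.mem_sSup_of_directed ⟨y, hy⟩ hchain.directedOn] at hn
      obtain ⟨I, hI, haI⟩ := hn
      exact (hc hI).2 n haI) ⊥ ⟨inferInstance, fun n hn => (X n).2 (by simpa using hn)⟩
  have hP1 := hP.2.prop.1
  refine ⟨P, ⟨hP1, ?_⟩, hP.2.prop.2 0⟩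
  intro a b hab
  by_contra hcon
  push Not at hcon
  -- the ideal generated by `P` and `a`
  have hbig : ∀ a : A, a ∉ P → ∃ n, (X n).1 ∈ ({z | ∃ p ∈ P, ∃ w ∈ AddSubgroup.closure {y : A | ∃ u v, y = u * a * v}, z = p + w} : Set A) := by
    intro a ha
    by_contra hno
    push Not at hno
    set S := AddSubgroup.closure {y : A | ∃ u v, y = u * a * v} with hS
    have hSl : ∀ r : A, ∀ w ∈ S, r * w ∈ S := by
      intro r w hw
      induction hw using AddSubgroup.closure_induction with
      | mem y hy =>
        obtain ⟨u, v, rfl⟩ := hy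
        exact AddSubgroup.subset_closure ⟨r * u, v, by simp only [mul_assoc]⟩
      | zero => rw [mul_zero]; exact S.zero_mem
      | add y z _ _ h1 h2 => rw [mul_add]; exact S.add_mem h1 h2
      | neg y _ h1 => rw [mul_neg]; exact S.neg_mem h1
    have hSr : ∀ r : A, ∀ w ∈ S, w * r ∈ S := by
      intro r w hw
      induction hw using AddSubgroup.closure_induction with
      | mem y hy =>
        obtain ⟨u, v, rfl⟩ := hy
        exact AddSubgroup.subset_closure ⟨u, v * r, by simp only [mul_assoc]⟩
      | zero => rw [zero_mul]; exact S.zero_mem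
      | add y z _ _ h1 h2 => rw [add_mul]; exact S.add_mem h1 h2
      | neg y _ h1 => rw [neg_mul]; exact S.neg_mem h1
    let J : Ideal A :=
      { carrier := {z | ∃ p ∈ P, ∃ w ∈ S, z = p + w}
        add_mem' := by
          rintro _ _ ⟨p, hp, w, hw, rfl⟩ ⟨p', hp', w', hw', rfl⟩
          exact ⟨p + p', P.add_mem hp hp', w + w', S.add_mem hw hw', by abel⟩
        zero_mem' := ⟨0, P.zero_mem, 0, S.zero_mem, by simp⟩
        smul_mem' := by
          rintro r _ ⟨p, hp, w, hw, rfl⟩
          exact ⟨r * p, P.mul_mem_left r hp, r * w, hSl r w hw, by simp [mul_add]⟩ }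
    have hJ : J.IsTwoSided := by
      constructor
      rintro _ r ⟨p, hp, w, hw, rfl⟩
      exact ⟨p * r, Ideal.mul_mem_right _ _ hp, w * r, hSr r w hw, by simp [add_mul]⟩
    have hPJ : P ≤ J := fun p hp => ⟨p, hp, 0, S.zero_mem, by simp⟩
    have haJ : a ∈ J := ⟨0, P.zero_mem, a, AddSubgroup.subset_closure ⟨1, 1, by simp⟩, by simp⟩
    have := hP.2.le_of_ge ⟨hJ, fun n hn => ?_⟩ hPJ
    · exact ha (this haJ)
    · obtain ⟨p, hp, w, hw, h⟩ := hn
      exact hno n ⟨p, hp, w, hw, h⟩
  obtain ⟨i, hi⟩ := hbig a hcon.1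
  obtain ⟨j, hj⟩ := hbig b hcon.2
  -- both are ideals containing the tails of the sequence
  have htail : ∀ a : A, ∀ i k, i ≤ k → (X i).1 ∈ ({z | ∃ p ∈ P, ∃ w ∈ AddSubgroup.closure {y : A | ∃ u v, y = u * a * v}, z = p + w} : Set A) →
      (X k).1 ∈ ({z | ∃ p ∈ P, ∃ w ∈ AddSubgroup.closure {y : A | ∃ u v, y = u * a * v}, z = p + w} : Set A) := by
    intro a i k hik h
    induction k, hik using Nat.le_induction with
    | base => exact h
    | succ k _ ih =>
      rw [hX]
      obtain ⟨p, hp, w, hw, h⟩ := ih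
      refine ⟨(X k).1 * f (X k) * p, P.mul_mem_left _ hp, (X k).1 * f (X k) * w, ?_, ?_⟩
      swap
      · rw [← mul_add, ← h]
      generalize (X k).1 * f (X k) = r
      clear h
      induction hw using AddSubgroup.closure_induction with
      | mem y hy =>
        obtain ⟨u, v, rfl⟩ := hy
        exact AddSubgroup.subset_closure ⟨r * u, v, by simp only [mul_assoc]⟩
      | zero => rw [mul_zero]; exact AddSubgroup.zero_mem _
      | add y z _ _ h1 h2 => rw [mul_add]; exact AddSubgroup.add_mem _ h1 h2
      | neg y _ h1 => rw [mul_neg]; exact AddSubgroup.neg_mem _ h1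
  have hi' := htail a i (max i j) (le_max_left _ _) hi
  have hj' := htail b j (max i j) (le_max_right _ _) hj
  set k := max i j with hk
  obtain ⟨p, hp, w, hw, h⟩ := hi'
  obtain ⟨p', hp', w', hw', h'⟩ := hj'
  -- `w * r * w' ∈ P`
  have hww : ∀ r : A, w * r * w' ∈ P := by
    intro r
    clear h h'
    induction hw using AddSubgroup.closure_induction with
    | mem y hy =>
      obtain ⟨u, v, rfl⟩ := hy
      induction hw' using AddSubgroup.closure_induction with
      | mem z hz =>
        obtain ⟨u', v', rfl⟩ := hz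
        have e : u * a * v * r * (u' * b * v') = u * (a * (v * r * u') * b) * v' := by
          simp only [mul_assoc]
        rw [e]
        exact Ideal.mul_mem_right _ _ (Ideal.mul_mem_left _ _ (hab _))
      | zero => rw [mul_zero]; exact P.zero_mem
      | add y z _ _ h1 h2 => rw [mul_add]; exact P.add_mem h1 h2
      | neg y _ h1 => rw [mul_neg]; exact P.neg_mem h1
    | zero => rw [zero_mul, zero_mul]; exact P.zero_mem
    | add y z _ _ h1 h2 => rw [add_mul, add_mul]; exact P.add_mem h1 h2
    | neg y _ h1 => rw [neg_mul, neg_mul]; exact P.neg_mem h1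
  have hfin : (X (k + 1)).1 ∈ P := by
    rw [hX]
    have e : (X k).1 * f (X k) * (X k).1 = p * (f (X k) * (X k).1) + w * f (X k) * p' + w * f (X k) * w' := by
      have e1 : (X k).1 * f (X k) * (X k).1 = p * (f (X k) * (X k).1) + w * f (X k) * (X k).1 := by
        have : (X k).1 * f (X k) * (X k).1 = (p + w) * f (X k) * (X k).1 := by rw [← h]
        rw [this]; noncomm_ring
      have e2 : w * f (X k) * (X k).1 = w * f (X k) * p' + w * f (X k) * w' := by
        rw [← mul_add, ← h']
      rw [e1, e2, add_assoc]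
    rw [e]
    exact P.add_mem (P.add_mem (Ideal.mul_mem_right _ _ hp) (P.mul_mem_left _ hp')) (hww _)
  exact hP.2.prop.2 _ hfin

end Q23.UG
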