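import Pool.Agent.Q23.UG.Cyc

/-!
# Finitely generated groups of units of torsion-free reduced rings
-/

namespace Q23.UG

variable {A : Type*} [Ring A]

theorem quasi_central (hR : Rd A) (hTF : TF A) (s : A) (n : ℕ) (hn : 0 < n) (hs : s * s = n • s) (r : A) :
    s * r = r * s := by
  have h1 : n • (s * r) = s * r * s := by
    have : s * r * (n • (1 : A) - s) = 0 := by
      apply hR
      have e1 : s * r * (n • (1 : A) - s) * (s * r * (n • (1 : A) - s)) = s * r * ((n • (1 : A) - s) * s) * r * (n • (1 : A) - s) := by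
        simp only [mul_assoc]
      have e2 : (n • (1 : A) - s) * s = 0 := by rw [sub_mul, smul_mul_assoc, one_mul, hs, sub_self]
      rw [e1, e2]; simp
    rw [mul_sub, sub_eq_zero, mul_smul_comm, mul_one] at this
    exact this
  have h2 : n • (r * s) = s * r * s := by
    have : (n • (1 : A) - s) * r * s = 0 := by
      apply hR
      have e1 : (n • (1 : A) - s) * r * s * ((n • (1 : A) - s) * r * s) = (n • (1 : A) - s) * r * (s * (n • (1 : A) - s)) * r * s := by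
        simp only [mul_assoc]
      have e2 : s * (n • (1 : A) - s) = 0 := by rw [mul_sub, mul_smul_comm, mul_one, hs, sub_self]
      rw [e1, e2]; simp
    rw [sub_mul, sub_mul, sub_eq_zero, smul_mul_assoc, one_mul, smul_mul_assoc] at this
    exact this
  have h3 : n • (s * r - r * s) = 0 := by rw [smul_sub, h1, h2, sub_self]
  exact sub_eq_zero.mp (hTF n _ hn h3)

theorem geom_central (hR : Rd A) (hTF : TF A) (h : A) (n : ℕ) (hn : 0 < n) (hh : h ^ n = 1) (r : A) :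
    (∑ j ∈ Finset.range n, h ^ j) * r = r * (∑ j ∈ Finset.range n, h ^ j) := by
  refine quasi_central hR hTF _ n hn ?_ r
  set σ := ∑ j ∈ Finset.range n, h ^ j with hσ
  have h1 : h * σ = σ := by
    have := mul_neg_geom_sum h n
    rw [hh, sub_self, ← hσ, sub_mul, one_mul, sub_eq_zero] at this
    exact this.symm
  have h2 : ∀ j : ℕ, h ^ j * σ = σ := by
    intro j
    induction j with
    | zero => simp
    | succ j ih => rw [pow_succ, mul_assoc, h1, ih]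
  conv_lhs => rw [hσ, Finset.sum_mul]
  rw [Finset.sum_congr rfl (fun j _ => h2 j)]
  simp

theorem t_central (hR : Rd A) (hTF : TF A) (g : A) (hg : g ^ 12 = 1) (h : g + g ^ 11 = g ^ 5 + g ^ 7) (r : A) :
    (g + g ^ 11) * r = r * (g + g ^ 11) := by
  have c1 := geom_central hR hTF g 12 (by norm_num) hg r
  have c2 := geom_central hR hTF (g ^ 2) 6 (by norm_num) (by rw [← pow_mul]; exact hg) r
  have c3 := geom_central hR hTF (g ^ 3) 4 (by norm_num) (by rw [← pow_mul]; exact hg) r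
  have c6 := geom_central hR hTF (g ^ 6) 2 (by norm_num) (by rw [← pow_mul]; exact hg) r
  set σ1 := ∑ j ∈ Finset.range 12, g ^ j with h1
  set σ2 := ∑ j ∈ Finset.range 6, (g ^ 2) ^ j with h2
  set σ3 := ∑ j ∈ Finset.range 4, (g ^ 3) ^ j with h3
  set σ6 := ∑ j ∈ Finset.range 2, (g ^ 6) ^ j with h6
  have e : 2 • (g + g ^ 11) = σ1 - σ2 - σ3 + σ6 := by
    have e1 : σ1 - σ2 - σ3 + σ6 = (g + g ^ 11) + (g ^ 5 + g ^ 7) := by
      rw [h1, h2, h3, h6]
      simp only [Finset.sum_range_succ, Finset.sum_range_zero, ← pow_mul]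
      norm_num
      abel
    rw [e1, ← h, two_smul]
  have h4 : 2 • ((g + g ^ 11) * r - r * (g + g ^ 11)) = 0 := by
    rw [smul_sub, ← smul_mul_assoc, ← mul_smul_comm, e]
    have : (σ1 - σ2 - σ3 + σ6) * r - r * (σ1 - σ2 - σ3 + σ6) = (σ1 * r - r * σ1) - (σ2 * r - r * σ2) - (σ3 * r - r * σ3) + (σ6 * r - r * σ6) := by
      noncomm_ring
    rw [this, c1, c2, c3, c6]
    simp
  exact sub_eq_zero.mp (hTF 2 _ (by norm_num) h4)

open Polynomial in
theorem t_integral (g : A) (hg : g ^ 12 = 1) : IsIntegral ℤ (g + g ^ 11) := by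
  let B := ℤ[X] ⧸ Ideal.span {(X ^ 12 - 1 : ℤ[X])}
  let ψ : B →+* A := Ideal.Quotient.lift (Ideal.span {(X ^ 12 - 1 : ℤ[X])}) (aeval g : ℤ[X] →ₐ[ℤ] A).toRingHom (by
    intro a ha
    rw [Ideal.mem_span_singleton] at ha
    obtain ⟨b, rfl⟩ := ha
    simp [hg])
  let x : B := Ideal.Quotient.mk _ X
  have hψx : ψ x = g := by
    show (aeval g : ℤ[X] →ₐ[ℤ] A) X = g
    simp
  have hxN : x ^ 12 = 1 := by
    have h1 : (Ideal.Quotient.mk (Ideal.span {(X ^ 12 - 1 : ℤ[X])})) (X ^ 12 - 1) = 0 :=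
      Ideal.Quotient.eq_zero_iff_mem.mpr (Ideal.mem_span_singleton_self _)
    rw [map_sub, map_pow, map_one, sub_eq_zero] at h1
    exact h1
  have hx : IsIntegral ℤ x := ⟨X ^ 12 - 1, monic_X_pow_sub_C 1 (by norm_num), by simp [hxN]⟩
  have h1 : IsIntegral ℤ (x + x ^ 11) := hx.add (hx.pow 11)
  have h2 := h1.map ψ.toIntAlgHom
  have h3 : ψ.toIntAlgHom (x + x ^ 11) = g + g ^ 11 := by
    show ψ (x + x ^ 11) = g + g ^ 11
    rw [map_add, map_pow, hψx]
  rwa [h3] at h2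

/-- A finitely generated central submodule closed under multiplication which contains given
finitely many central integral elements. -/
theorem central_fg (T : Set A) (hT : T.Finite) (hc : ∀ t ∈ T, ∀ r : A, t * r = r * t) (hi : ∀ t ∈ T, IsIntegral ℤ t) :
    ∃ C : Submodule ℤ A, C.FG ∧ (1 : A) ∈ C ∧ T ⊆ C ∧ (∀ c ∈ C, ∀ c' ∈ C, c * c' ∈ C) ∧ (∀ c ∈ C, ∀ r : A, c * r = r * c) := by
  let Z := Subring.center A
  let j : Z →ₐ[ℤ] A := (Subring.subtype Z).toIntAlgHom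
  have hj : Function.Injective j := Subtype.val_injective
  let T' : Set Z := j ⁻¹' T
  have hT' : T'.Finite := hT.preimage hj.injOn
  have hfg : (Algebra.adjoin ℤ T').toSubmodule.FG := by
    refine fg_adjoin_of_finite hT' (fun x hx => ?_)
    have h1 := hi (j x) hx
    exact (isIntegral_algHom_iff j hj).mp h1
  refine ⟨(Algebra.adjoin ℤ T').toSubmodule.map j.toLinearMap, hfg.map _, ?_, ?_, ?_, ?_⟩
  · exact ⟨1, Subalgebra.one_mem _, rfl⟩
  · intro t ht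
    have htZ : t ∈ Subring.center A := by
      rw [Subring.mem_center_iff]
      exact fun r => (hc t ht r).symm
    exact ⟨⟨t, htZ⟩, Algebra.subset_adjoin ht, rfl⟩
  · rintro _ ⟨x, hx, rfl⟩ _ ⟨y, hy, rfl⟩
    exact ⟨x * y, Subalgebra.mul_mem _ hx hy, rfl⟩
  · rintro _ ⟨x, _, rfl⟩ r
    exact (Subring.mem_center_iff.mp x.2 r).symm

/-- Quadratic generators over a central subring generate a finitely generated module. -/
theorem fg_chain (C : Submodule ℤ A) (hCfg : C.FG) (hC1 : (1 : A) ∈ C) (hCm : ∀ c ∈ C, ∀ c' ∈ C, c * c' ∈ C)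
    (hCc : ∀ c ∈ C, ∀ r : A, c * r = r * c) : ∀ l : List A,
    (∀ s ∈ l, ∃ c1 ∈ C, ∃ c2 ∈ C, s * s = c1 + c2 * s) →
    (∀ s ∈ l, ∀ s' ∈ l, ∃ c1 ∈ C, ∃ c2 ∈ C, ∃ c3 ∈ C, s * s' = c1 + c2 * s + c3 * s' - s' * s) →
    ∃ X : Submodule ℤ A, X.FG ∧ (1 : A) ∈ X ∧ (∀ x ∈ X, ∀ c ∈ C, x * c ∈ X) ∧ (∀ x ∈ X, ∀ s ∈ l, x * s ∈ X) ∧
      (∀ Y : Submodule ℤ A, (∀ y ∈ Y, ∀ c ∈ C, y * c ∈ Y) → (∀ y ∈ Y, ∀ s ∈ l, y * s ∈ Y) → ∀ y ∈ Y, ∀ x ∈ X, y * x ∈ Y) := by
  intro l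
  induction l with
  | nil =>
    intro _ _
    exact ⟨C, hCfg, hC1, hCm, by simp, fun Y h1 _ y hy x hx => h1 y hy x hx⟩
  | cons g l ih =>
    intro h1 h2
    obtain ⟨X, hX1, hX2, hX3, hX4, hX5⟩ := ih (fun s hs => h1 s (List.mem_cons_of_mem _ hs))
      (fun s hs s' hs' => h2 s (List.mem_cons_of_mem _ hs) s' (List.mem_cons_of_mem _ hs'))
    let ρ : A →ₗ[ℤ] A := LinearMap.mulRight ℤ g
    have hρ : ∀ x, ρ x = x * g := fun x => rfl
    have hmemX : ∀ z : A, z ∈ X ⊔ X.map ρ ↔ ∃ x ∈ X, ∃ y ∈ X, z = x + y * g := by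
      intro z
      rw [Submodule.mem_sup]
      constructor
      · rintro ⟨x, hx, _, ⟨y, hy, rfl⟩, rfl⟩
        exact ⟨x, hx, y, hy, rfl⟩
      · rintro ⟨x, hx, y, hy, rfl⟩
        exact ⟨x, hx, _, ⟨y, hy, rfl⟩, rfl⟩
    have hg : g ∈ g :: l := List.mem_cons_self
    refine ⟨X ⊔ X.map ρ, hX1.sup (hX1.map _), ?_, ?_, ?_, ?_⟩
    · rw [hmemX]
      exact ⟨1, hX2, 0, X.zero_mem, by simp⟩
    · intro z hz c hc
      rw [hmemX] at hz ⊢
      obtain ⟨x, hx, y, hy, rfl⟩ := hz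
      exact ⟨x * c, hX3 x hx c hc, y * c, hX3 y hy c hc, by rw [add_mul, mul_assoc, ← hCc c hc g, mul_assoc]⟩
    · intro z hz s hs
      rw [hmemX] at hz
      obtain ⟨x, hx, y, hy, rfl⟩ := hz
      rw [add_mul]
      rcases List.mem_cons.mp hs with rfl | hs'
      · obtain ⟨c1, hc1, c2, hc2, he⟩ := h1 s hg
        rw [hmemX]
        refine ⟨y * c1, hX3 y hy c1 hc1, x + y * c2, X.add_mem hx (hX3 y hy c2 hc2), ?_⟩
        rw [mul_assoc, he]
        noncomm_ring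
      · obtain ⟨c1, hc1, c2, hc2, c3, hc3, he⟩ := h2 g hg s hs
        rw [hmemX]
        refine ⟨x * s + y * c1 + y * c3 * s, ?_, y * c2 - y * s, ?_, ?_⟩
        · exact X.add_mem (X.add_mem (hX4 x hx s hs') (hX3 y hy c1 hc1)) (hX4 _ (hX3 y hy c3 hc3) s hs')
        · exact X.sub_mem (hX3 y hy c2 hc2) (hX4 y hy s hs')
        · rw [mul_assoc, he]
          noncomm_ring
    · intro Y hY1 hY2 y hy z hz
      rw [hmemX] at hz
      obtain ⟨x, hx, x', hx', rfl⟩ := hz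
      have h3 := hX5 Y hY1 (fun y hy s hs => hY2 y hy s (List.mem_cons_of_mem _ hs))
      rw [mul_add, ← mul_assoc]
      exact Y.add_mem (h3 y hy x hx) (hY2 _ (h3 y hy x' hx') g hg)

/-- Nakayama: no element is divisible by `3` infinitely often. -/
theorem naka (hTF : TF A) (X : Submodule ℤ A) (hX : X.FG) (hm : ∀ x ∈ X, ∀ y ∈ X, x * y ∈ X) (y : A) (hy : y ∈ X)
    (a b c : ℤ) (h : y = (3 : ℤ) • (a • y + b • y ^ 2 + c • y ^ 3)) : y = 0 := by
  let N : Submodule ℤ A := Submodule.span ℤ (Set.range (fun i : ℕ => y ^ (i + 1)))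
  have hNX : N ≤ X := by
    rw [Submodule.span_le]
    rintro _ ⟨i, rfl⟩
    show y ^ (i + 1) ∈ X
    induction i with
    | zero => simpa using hy
    | succ i ih => rw [pow_succ]; exact hm _ ih _ hy
  have hNfg : N.FG := by
    have : Module.Finite ℤ X := Module.Finite.iff_fg.mpr hX
    have : IsNoetherian ℤ X := isNoetherian_of_isNoetherianRing_of_finite ℤ X
    have := (isNoetherian_submodule.mp this) N hNX
    exact this
  have hpow : ∀ i : ℕ, y ^ (i + 1) ∈ N := fun i => Submodule.subset_span ⟨i, rfl⟩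
  have hle : N ≤ (Ideal.span {(3 : ℤ)}) • N := by
    rw [Submodule.span_le]
    rintro _ ⟨i, rfl⟩
    show y ^ (i + 1) ∈ (Ideal.span {(3 : ℤ)}) • N
    have e : y ^ (i + 1) = (3 : ℤ) • (a • y ^ (i + 1) + b • y ^ (i + 2) + c • y ^ (i + 3)) := by
      have : y ^ (i + 1) = y ^ i * y := pow_succ _ _
      calc y ^ (i + 1) = y ^ i * ((3 : ℤ) • (a • y + b • y ^ 2 + c • y ^ 3)) := by rw [← h]; exact pow_succ _ _
        _ = (3 : ℤ) • (a • (y ^ i * y) + b • (y ^ i * y ^ 2) + c • (y ^ i * y ^ 3)) := by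
            rw [mul_smul_comm, mul_add, mul_add, mul_smul_comm, mul_smul_comm, mul_smul_comm]
        _ = _ := by rw [← pow_succ, ← pow_add, ← pow_add]
    rw [e]
    refine Submodule.smul_mem_smul (Ideal.mem_span_singleton_self _) ?_
    exact N.add_mem (N.add_mem (N.smul_mem _ (hpow i)) (N.smul_mem _ (hpow (i + 1)))) (N.smul_mem _ (hpow (i + 2)))
  obtain ⟨r, hr, hr2⟩ := Submodule.exists_sub_one_mem_and_smul_eq_zero_of_fg_of_le_smul _ N hNfg hle
  have hyN : y ∈ N := by simpa using hpow 0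
  have h1 := hr2 y hyN
  have hr0 : r ≠ 0 := by
    rintro rfl
    rw [Ideal.mem_span_singleton] at hr
    norm_num at hr
  have h2 : (r.natAbs) • y = 0 := by
    rcases Int.natAbs_eq r with h3 | h3
    · rw [h3] at h1
      rwa [natCast_zsmul] at h1
    · rw [h3, neg_smul, neg_eq_zero, natCast_zsmul] at h1
      exact h1
  exact hTF _ _ (Int.natAbs_pos.mpr hr0) h2

/-- Torsion elements congruent to `1` modulo `3`. -/
theorem cong_one (hTF : TF A) (X : Submodule ℤ A) (hX : X.FG) (h1X : (1 : A) ∈ X) (hm : ∀ x ∈ X, ∀ y ∈ X, x * y ∈ X) (y : A) (hy : y ∈ X)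
    (hw : (1 + (3 : ℤ) • y) ^ 12 = 1) : y = 0 := by
  -- squares
  have hsq : ∀ y ∈ X, (1 + (3 : ℤ) • y) ^ 2 = 1 → y = 0 := by
    intro y hy h
    refine naka hTF X hX hm y hy 1 1 0 ?_
    have e : (1 + (3 : ℤ) • y) ^ 2 = 1 + (3 : ℤ) • ((2 : ℤ) • y + (3 : ℤ) • y ^ 2) := by
      rw [sq, sq]; noncomm_ring
    rw [e] at h
    have h2 : (3 : ℤ) • ((2 : ℤ) • y + (3 : ℤ) • y ^ 2) = 0 := by simpa using h
    have h3 : (2 : ℤ) • y + (3 : ℤ) • y ^ 2 = 0 := hTF 3 _ (by norm_num) (by exact_mod_cast h2)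
    have h4 : (3 : ℤ) • y ^ 2 = -((2 : ℤ) • y) := by rw [eq_neg_iff_add_eq_zero, add_comm]; exact h3
    rw [one_smul, one_smul, zero_smul, add_zero, smul_add, h4]
    rw [show (3 : ℤ) • y = y + (2 : ℤ) • y by rw [show (3 : ℤ) = 1 + 2 by norm_num, add_smul, one_smul]]
    abel
  have hcu : ∀ y ∈ X, (1 + (3 : ℤ) • y) ^ 3 = 1 → y = 0 := by
    intro y hy h
    refine naka hTF X hX hm y hy 0 (-1) (-1) ?_
    have e : (1 + (3 : ℤ) • y) ^ 3 = 1 + (9 : ℤ) • (y + (3 : ℤ) • y ^ 2 + (3 : ℤ) • y ^ 3) := by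
      simp only [pow_succ, pow_zero]; noncomm_ring
    rw [e] at h
    have h2 : (9 : ℤ) • (y + (3 : ℤ) • y ^ 2 + (3 : ℤ) • y ^ 3) = 0 := by simpa using h
    have h3 : y + (3 : ℤ) • y ^ 2 + (3 : ℤ) • y ^ 3 = 0 := hTF 9 _ (by norm_num) (by exact_mod_cast h2)
    rw [zero_smul, zero_add, neg_one_smul, neg_one_smul, smul_add, smul_neg, smul_neg]
    have h4 : y = -((3 : ℤ) • y ^ 2 + (3 : ℤ) • y ^ 3) := by
      rw [eq_neg_iff_add_eq_zero, ← add_assoc]; exact h3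
    rw [neg_add] at h4
    exact h4
  have hpow : ∀ n : ℕ, ∃ z ∈ X, (1 + (3 : ℤ) • y) ^ n = 1 + (3 : ℤ) • z := by
    intro n
    induction n with
    | zero => exact ⟨0, X.zero_mem, by simp⟩
    | succ n ih =>
      obtain ⟨z, hz, he⟩ := ih
      refine ⟨z + y + (3 : ℤ) • (z * y), X.add_mem (X.add_mem hz hy) (X.smul_mem _ (hm z hz y hy)), ?_⟩
      rw [pow_succ, he]
      noncomm_ring
  obtain ⟨z4, hz4, he4⟩ := hpow 4
  have h3 : (1 + (3 : ℤ) • z4) ^ 3 = 1 := by rw [← he4, ← pow_mul]; exact hw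
  have h4 := hcu z4 hz4 h3
  rw [h4, smul_zero, add_zero] at he4
  obtain ⟨z2, hz2, he2⟩ := hpow 2
  have h5 : (1 + (3 : ℤ) • z2) ^ 2 = 1 := by rw [← he2, ← pow_mul]; exact he4
  have h6 := hsq z2 hz2 h5
  rw [h6, smul_zero, add_zero] at he2
  exact hsq y hy he2

/-- **Torsion-free case.** -/
theorem tf_finite (hR : Rd A) (hTF : TF A) (H : Subgroup Aˣ) (hH : H.FG)
    (h : ∀ g ∈ H, ((g : Aˣ) : A) ^ 12 = 1 ∧ (g : A) + (g : A) ^ 11 = (g : A) ^ 5 + (g : A) ^ 7) : Finite H := by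
  classical
  obtain ⟨S, hS⟩ := hH
  have hSH : ∀ s ∈ S, s ∈ H := fun s hs => by rw [← hS]; exact Subgroup.subset_closure hs
  let t : A → A := fun g => g + g ^ 11
  set T : Set A := (fun s : Aˣ => t (s : A)) '' (S : Set Aˣ) ∪ (fun q : Aˣ × Aˣ => t ((q.1 * q.2 : Aˣ) : A)) '' ((S : Set Aˣ) ×ˢ (S : Set Aˣ)) with hTdef
  have hTfin : T.Finite := (S.finite_toSet.image _).union ((S.finite_toSet.prod S.finite_toSet).image _)
  have hTH : ∀ x ∈ T, ∃ g ∈ H, x = t (g : A) := by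
    rintro x (⟨s, hs, rfl⟩ | ⟨⟨s, s'⟩, ⟨hs, hs'⟩, rfl⟩)
    · exact ⟨s, hSH s hs, rfl⟩
    · exact ⟨s * s', H.mul_mem (hSH s hs) (hSH s' hs'), rfl⟩
  obtain ⟨C, hC1, hC2, hC3, hC4, hC5⟩ := central_fg T hTfin (by
    intro x hx r
    obtain ⟨g, hg, rfl⟩ := hTH x hx
    exact t_central hR hTF _ (h g hg).1 (h g hg).2 r) (by
    intro x hx
    obtain ⟨g, hg, rfl⟩ := hTH x hx
    exact t_integral _ (h g hg).1)
  have hinv : ∀ g ∈ H, ((g⁻¹ : Aˣ) : A) = (g : A) ^ 11 := by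
    intro g hg
    have h1 := (h g hg).1
    have h2 : g ^ 12 = 1 := Units.ext (by rw [Units.val_pow_eq_pow_val, h1, Units.val_one])
    have h3 : g⁻¹ = g ^ 11 := by
      rw [eq_comm, eq_inv_iff_mul_eq_one, ← pow_succ]
      exact h2
    rw [h3, Units.val_pow_eq_pow_val]
  have ht : ∀ g ∈ H, t (g : A) = (g : A) + ((g⁻¹ : Aˣ) : A) := fun g hg => by rw [hinv g hg]
  obtain ⟨X, hX1, hX2, hX3, hX4, hX5⟩ := fg_chain C hC1 hC2 hC4 hC5 (S.toList.map (fun s : Aˣ => (s : A))) (by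
    intro x hx
    obtain ⟨s, hs, rfl⟩ := List.mem_map.mp hx
    have hs' : s ∈ S := Finset.mem_toList.mp hs
    refine ⟨-1, C.neg_mem hC2, t (s : A), hC3 (Or.inl ⟨s, hs', rfl⟩), ?_⟩
    rw [ht s (hSH s hs'), add_mul, Units.inv_mul]
    abel) (by
    intro x hx x' hx'
    obtain ⟨s, hs, rfl⟩ := List.mem_map.mp hx
    obtain ⟨s', hs', rfl⟩ := List.mem_map.mp hx'
    have hs := Finset.mem_toList.mp hs
    have hs' := Finset.mem_toList.mp hs'
    have c1 : t ((s * s' : Aˣ) : A) ∈ C := hC3 (Or.inr ⟨(s, s'), ⟨hs, hs'⟩, rfl⟩)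
    have c2 : t (s : A) ∈ C := hC3 (Or.inl ⟨s, hs, rfl⟩)
    have c3 : t (s' : A) ∈ C := hC3 (Or.inl ⟨s', hs', rfl⟩)
    refine ⟨t ((s * s' : Aˣ) : A) - t (s' : A) * t (s : A), C.sub_mem c1 (hC4 _ c3 _ c2), t (s' : A), c3, t (s : A), c2, ?_⟩
    have e1 := hC5 _ c2 (s' : A)
    rw [e1, ht (s * s') (H.mul_mem (hSH s hs) (hSH s' hs')), ht s (hSH s hs), ht s' (hSH s' hs'), mul_inv_rev, Units.val_mul, Units.val_mul]
    noncomm_ring)
  have hXm : ∀ x ∈ X, ∀ y ∈ X, x * y ∈ X := fun x hx y hy => hX5 X hX3 hX4 x hx y hy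
  have hXH : ∀ g ∈ H, (g : A) ∈ X := by
    intro g hg
    rw [← hS] at hg
    induction hg using Subgroup.closure_induction with
    | mem s hs =>
      have := hX4 1 hX2 (s : A) (List.mem_map.mpr ⟨s, Finset.mem_toList.mpr hs, rfl⟩)
      rwa [one_mul] at this
    | one => exact hX2
    | mul x y _ _ h1 h2 => rw [Units.val_mul]; exact hXm _ h1 _ h2
    | inv x hx h1 =>
      rw [hS] at hx
      rw [hinv x hx]
      have : ∀ n : ℕ, (x : A) ^ n ∈ X := by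
        intro n
        induction n with
        | zero => rw [pow_zero]; exact hX2
        | succ n ih => rw [pow_succ]; exact hXm _ ih _ h1
      exact this 11
  -- reduction modulo `3`
  let Q := X ⧸ ((Ideal.span {(3 : ℤ)}) • (⊤ : Submodule ℤ X))
  have hQ : Finite Q := by
    have : Module.Finite ℤ X := Module.Finite.iff_fg.mpr hX1
    refine Module.finite_of_fg_torsion Q ?_
    intro x
    obtain ⟨x, rfl⟩ := Submodule.Quotient.mk_surjective _ x
    refine ⟨⟨3, by norm_num⟩, ?_⟩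
    show (3 : ℤ) • (Submodule.Quotient.mk x : Q) = 0
    rw [← Submodule.Quotient.mk_smul, Submodule.Quotient.mk_eq_zero]
    exact Submodule.smul_mem_smul (Ideal.mem_span_singleton_self _) trivial
  let F : H → Q := fun g => Submodule.Quotient.mk ⟨((g : Aˣ) : A), hXH g g.2⟩
  refine Finite.of_injective F ?_
  intro u v huv
  have h1 : (⟨((u : Aˣ) : A), hXH u u.2⟩ : X) - ⟨((v : Aˣ) : A), hXH v v.2⟩ ∈ (Ideal.span {(3 : ℤ)}) • (⊤ : Submodule ℤ X) :=
    (Submodule.Quotient.eq _).mp huv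
  rw [Submodule.ideal_span_singleton_smul] at h1
  obtain ⟨⟨y, hy⟩, -, hy2⟩ := h1
  have h2 : (3 : ℤ) • y = ((u : Aˣ) : A) - ((v : Aˣ) : A) := by
    have := congrArg Subtype.val hy2
    simpa using this
  -- `w = u v⁻¹ = 1 + 3 y v⁻¹`
  have hvinv : (((v : Aˣ)⁻¹ : Aˣ) : A) ∈ X := hXH _ (H.inv_mem v.2)
  have h3 := cong_one hTF X hX1 hX2 hXm (y * (((v : Aˣ)⁻¹ : Aˣ) : A)) (hXm _ hy _ hvinv) (by
    have e : 1 + (3 : ℤ) • (y * (((v : Aˣ)⁻¹ : Aˣ) : A)) = (((u : Aˣ) * (v : Aˣ)⁻¹ : Aˣ) : A) := by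
      rw [← smul_mul_assoc, h2, sub_mul, Units.mul_inv, Units.val_mul]
      abel
    rw [e]
    exact (h _ (H.mul_mem u.2 (H.inv_mem v.2))).1)
  have h4 : y = 0 := by
    have := congrArg (fun z => z * ((v : Aˣ) : A)) h3
    simpa [mul_assoc] using this
  rw [h4, smul_zero, eq_comm, sub_eq_zero] at h2
  exact Subtype.ext (Units.ext h2)

end Q23.UG
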