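import Pool.Agent.Q23.UG.Pos
import Pool.Agent.Q23.UG.Cert

/-!
# Groups of units of domains of characteristic zero, exponents dividing 24 and 36
-/

namespace Q23.UG

universe u v

section comm

variable {C : Type u} [CommRing C] [IsDomain C]

theorem list_24 (g g' : C) (h : g * g' = 1) (hn : g ^ 24 = 1) (u : C) (hu : u = g + g') :
    (u - 2 = 0) ∨ (u + 2 = 0) ∨ (u + 1 = 0) ∨ (u = 0) ∨ (u - 1 = 0) ∨ (u ^ 2 - 2 = 0) ∨ (u ^ 2 - 3 = 0) ∨
      (u ^ 4 - 4 * u ^ 2 + 1 = 0) := by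
  have hg : g ≠ 0 := by rintro rfl; rw [zero_mul] at h; exact zero_ne_one h
  have hug : u * g = g ^ 2 + 1 := by rw [hu]; linear_combination h
  have hc : ∀ x k, x * g ^ k = 0 → x = 0 := fun x k hx => (mul_eq_zero.mp hx).resolve_right (pow_ne_zero _ hg)
  have e : (g - 1) * ((g + 1) * ((g ^ 2 + g + 1) * ((g ^ 2 + 1) * ((g ^ 2 - g + 1) * ((g ^ 4 + 1) * ((g ^ 4 - g ^ 2 + 1) *
      (g ^ 8 - g ^ 4 + 1))))))) = 0 := by
    have : (g - 1) * ((g + 1) * ((g ^ 2 + g + 1) * ((g ^ 2 + 1) * ((g ^ 2 - g + 1) * ((g ^ 4 + 1) * ((g ^ 4 - g ^ 2 + 1) *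
      (g ^ 8 - g ^ 4 + 1))))))) = g ^ 24 - 1 := by ring
    rw [this, hn, sub_self]
  simp only [mul_eq_zero] at e
  rcases e with e | e | e | e | e | e | e | e
  · left
    apply hc _ 1
    have : (u - 2) * g ^ 1 = u * g - 2 * g := by ring
    rw [this, hug]; linear_combination (g - 1) * e
  · right; left
    apply hc _ 1
    have : (u + 2) * g ^ 1 = u * g + 2 * g := by ring
    rw [this, hug]; linear_combination (g + 1) * e
  · right; right; left
    apply hc _ 1
    have : (u + 1) * g ^ 1 = u * g + g := by ring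
    rw [this, hug]; linear_combination e
  · right; right; right; left
    apply hc _ 1
    have : u * g ^ 1 = u * g := by ring
    rw [this, hug]; exact e
  · right; right; right; right; left
    apply hc _ 1
    have : (u - 1) * g ^ 1 = u * g - g := by ring
    rw [this, hug]; linear_combination e
  · right; right; right; right; right; left
    apply hc _ 2
    have : (u ^ 2 - 2) * g ^ 2 = (u * g) ^ 2 - 2 * g ^ 2 := by ring
    rw [this, hug]; linear_combination e
  · right; right; right; right; right; right; left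
    apply hc _ 2
    have : (u ^ 2 - 3) * g ^ 2 = (u * g) ^ 2 - 3 * g ^ 2 := by ring
    rw [this, hug]; linear_combination e
  · right; right; right; right; right; right; right
    apply hc _ 4
    have : (u ^ 4 - 4 * u ^ 2 + 1) * g ^ 4 = (u * g) ^ 4 - 4 * (u * g) ^ 2 * g ^ 2 + g ^ 4 := by ring
    rw [this, hug]; linear_combination e

theorem list_36 (g g' : C) (h : g * g' = 1) (hn : g ^ 36 = 1) (u : C) (hu : u = g + g') :
    (u - 2 = 0) ∨ (u + 2 = 0) ∨ (u + 1 = 0) ∨ (u = 0) ∨ (u - 1 = 0) ∨ (u ^ 2 - 3 = 0) ∨ (u ^ 3 - 3 * u + 1 = 0) ∨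
      (u ^ 3 - 3 * u - 1 = 0) ∨ (u ^ 6 - 6 * u ^ 4 + 9 * u ^ 2 - 3 = 0) := by
  have hg : g ≠ 0 := by rintro rfl; rw [zero_mul] at h; exact zero_ne_one h
  have hug : u * g = g ^ 2 + 1 := by rw [hu]; linear_combination h
  have hc : ∀ x k, x * g ^ k = 0 → x = 0 := fun x k hx => (mul_eq_zero.mp hx).resolve_right (pow_ne_zero _ hg)
  have e : (g - 1) * ((g + 1) * ((g ^ 2 + g + 1) * ((g ^ 2 + 1) * ((g ^ 2 - g + 1) * ((g ^ 4 - g ^ 2 + 1) *
      ((g ^ 6 + g ^ 3 + 1) * ((g ^ 6 - g ^ 3 + 1) * (g ^ 12 - g ^ 6 + 1)))))))) = 0 := by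
    have : (g - 1) * ((g + 1) * ((g ^ 2 + g + 1) * ((g ^ 2 + 1) * ((g ^ 2 - g + 1) * ((g ^ 4 - g ^ 2 + 1) *
      ((g ^ 6 + g ^ 3 + 1) * ((g ^ 6 - g ^ 3 + 1) * (g ^ 12 - g ^ 6 + 1)))))))) = g ^ 36 - 1 := by ring
    rw [this, hn, sub_self]
  simp only [mul_eq_zero] at e
  rcases e with e | e | e | e | e | e | e | e | e
  · left
    apply hc _ 1
    have : (u - 2) * g ^ 1 = u * g - 2 * g := by ring
    rw [this, hug]; linear_combination (g - 1) * e
  · right; left
    apply hc _ 1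
    have : (u + 2) * g ^ 1 = u * g + 2 * g := by ring
    rw [this, hug]; linear_combination (g + 1) * e
  · right; right; left
    apply hc _ 1
    have : (u + 1) * g ^ 1 = u * g + g := by ring
    rw [this, hug]; linear_combination e
  · right; right; right; left
    apply hc _ 1
    have : u * g ^ 1 = u * g := by ring
    rw [this, hug]; exact e
  · right; right; right; right; left
    apply hc _ 1
    have : (u - 1) * g ^ 1 = u * g - g := by ring
    rw [this, hug]; linear_combination e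
  · right; right; right; right; right; left
    apply hc _ 2
    have : (u ^ 2 - 3) * g ^ 2 = (u * g) ^ 2 - 3 * g ^ 2 := by ring
    rw [this, hug]; linear_combination e
  · right; right; right; right; right; right; left
    apply hc _ 3
    have : (u ^ 3 - 3 * u + 1) * g ^ 3 = (u * g) ^ 3 - 3 * (u * g) * g ^ 2 + g ^ 3 := by ring
    rw [this, hug]; linear_combination e
  · right; right; right; right; right; right; right; left
    apply hc _ 3
    have : (u ^ 3 - 3 * u - 1) * g ^ 3 = (u * g) ^ 3 - 3 * (u * g) * g ^ 2 - g ^ 3 := by ring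
    rw [this, hug]; linear_combination e
  · right; right; right; right; right; right; right; right
    apply hc _ 6
    have : (u ^ 6 - 6 * u ^ 4 + 9 * u ^ 2 - 3) * g ^ 6 =
        (u * g) ^ 6 - 6 * (u * g) ^ 4 * g ^ 2 + 9 * (u * g) ^ 2 * g ^ 4 - 3 * g ^ 6 := by ring
    rw [this, hug]; linear_combination e

end comm

section

variable {D : Type u} [Ring D] [IsDomain D]

theorem list_24' (g g' : D) (h : g * g' = 1) (h' : g' * g = 1) (hn : g ^ 24 = 1) (u : D) (hu : u = g + g') :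
    (u - 2 = 0) ∨ (u + 2 = 0) ∨ (u + 1 = 0) ∨ (u = 0) ∨ (u - 1 = 0) ∨ (u ^ 2 - 2 = 0) ∨ (u ^ 2 - 3 = 0) ∨
      (u ^ 4 - 4 * u ^ 2 + 1 = 0) := by
  let T := Subring.closure ({g, g'} : Set D)
  have hT : ∀ a ∈ T, ∀ b ∈ T, a * b = b * a := by
    refine cl_comm _ ?_
    rintro x (rfl | rfl) y (rfl | rfl)
    · rfl
    · rw [h, h']
    · rw [h, h']
    · rfl
  letI : CommRing T := { (inferInstance : Ring T) with mul_comm := fun a b => Subtype.ext (hT a a.2 b b.2) }
  have hdT : IsDomain T := inferInstance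
  have hgT : g ∈ T := Subring.subset_closure (by simp)
  have hgT' : g' ∈ T := Subring.subset_closure (by simp)
  have := list_24 (C := T) ⟨g, hgT⟩ ⟨g', hgT'⟩ (Subtype.ext h) (Subtype.ext hn) ⟨u, by rw [hu]; exact T.add_mem hgT hgT'⟩
    (Subtype.ext hu)
  have h2 : ((2 : T) : D) = 2 := rfl
  have h3 : ((3 : T) : D) = 3 := rfl
  have h4 : ((4 : T) : D) = 4 := rfl
  simpa [Subtype.ext_iff, h2, h3, h4] using this

theorem list_36' (g g' : D) (h : g * g' = 1) (h' : g' * g = 1) (hn : g ^ 36 = 1) (u : D) (hu : u = g + g') :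
    (u - 2 = 0) ∨ (u + 2 = 0) ∨ (u + 1 = 0) ∨ (u = 0) ∨ (u - 1 = 0) ∨ (u ^ 2 - 3 = 0) ∨ (u ^ 3 - 3 * u + 1 = 0) ∨
      (u ^ 3 - 3 * u - 1 = 0) ∨ (u ^ 6 - 6 * u ^ 4 + 9 * u ^ 2 - 3 = 0) := by
  let T := Subring.closure ({g, g'} : Set D)
  have hT : ∀ a ∈ T, ∀ b ∈ T, a * b = b * a := by
    refine cl_comm _ ?_
    rintro x (rfl | rfl) y (rfl | rfl)
    · rfl
    · rw [h, h']
    · rw [h, h']
    · rfl
  letI : CommRing T := { (inferInstance : Ring T) with mul_comm := fun a b => Subtype.ext (hT a a.2 b b.2) }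
  have hdT : IsDomain T := inferInstance
  have hgT : g ∈ T := Subring.subset_closure (by simp)
  have hgT' : g' ∈ T := Subring.subset_closure (by simp)
  have := list_36 (C := T) ⟨g, hgT⟩ ⟨g', hgT'⟩ (Subtype.ext h) (Subtype.ext hn) ⟨u, by rw [hu]; exact T.add_mem hgT hgT'⟩
    (Subtype.ext hu)
  have h2 : ((2 : T) : D) = 2 := rfl
  have h3 : ((3 : T) : D) = 3 := rfl
  have h6 : ((6 : T) : D) = 6 := rfl
  have h9 : ((9 : T) : D) = 9 := rfl
  simpa [Subtype.ext_iff, h2, h3, h6, h9] using this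

/-- The trace condition. -/
def TrC (D : Type*) [Ring D] (n : ℕ) : Prop := ∀ g g' h h' : D, g * g' = 1 → g' * g = 1 → g ^ n = 1 →
  h * h' = 1 → h' * h = 1 → h ^ n = 1 → 1 - (g + g') = h + h' → g + g' = 2 ∨ g + g' = -1 ∨ g + g' = 0 ∨ g + g' = 1

theorem trc_24 [CharZero D] : TrC D 24 := by
  intro g g' h h' hg1 hg2 hg3 hh1 hh2 hh3 hu
  have e1 := list_24' g g' hg1 hg2 hg3 _ rfl
  have e2 := list_24' h h' hh1 hh2 hh3 _ rfl
  rw [← hu] at e2
  set u := g + g'
  let T := Subring.closure ({u} : Set D)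
  have hT : ∀ a ∈ T, ∀ b ∈ T, a * b = b * a := by
    refine cl_comm _ ?_
    rintro x hx y hy
    rw [Set.mem_singleton_iff.mp hx, Set.mem_singleton_iff.mp hy]
  letI : CommRing T := { (inferInstance : Ring T) with mul_comm := fun a b => Subtype.ext (hT a a.2 b b.2) }
  have huT : u ∈ T := Subring.subset_closure rfl
  have : CharZero T := ⟨fun a b hab => Nat.cast_injective (R := D) (by simpa using congrArg Subtype.val hab)⟩
  have h2 : ((2 : T) : D) = 2 := rfl
  have h3 : ((3 : T) : D) = 3 := rfl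
  have h4 : ((4 : T) : D) = 4 := rfl
  have := rel_24 (C := T) ⟨u, huT⟩ (by simpa [Subtype.ext_iff, h2, h3, h4] using e1)
    (by simpa [Subtype.ext_iff, h2, h3, h4] using e2)
  simpa [Subtype.ext_iff, h2] using this

theorem trc_36 [CharZero D] : TrC D 36 := by
  intro g g' h h' hg1 hg2 hg3 hh1 hh2 hh3 hu
  have e1 := list_36' g g' hg1 hg2 hg3 _ rfl
  have e2 := list_36' h h' hh1 hh2 hh3 _ rfl
  rw [← hu] at e2
  set u := g + g'
  let T := Subring.closure ({u} : Set D)
  have hT : ∀ a ∈ T, ∀ b ∈ T, a * b = b * a := by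
    refine cl_comm _ ?_
    rintro x hx y hy
    rw [Set.mem_singleton_iff.mp hx, Set.mem_singleton_iff.mp hy]
  letI : CommRing T := { (inferInstance : Ring T) with mul_comm := fun a b => Subtype.ext (hT a a.2 b b.2) }
  have huT : u ∈ T := Subring.subset_closure rfl
  have : CharZero T := ⟨fun a b hab => Nat.cast_injective (R := D) (by simpa using congrArg Subtype.val hab)⟩
  have h2 : ((2 : T) : D) = 2 := rfl
  have h3 : ((3 : T) : D) = 3 := rfl
  have h6 : ((6 : T) : D) = 6 := rfl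
  have h9 : ((9 : T) : D) = 9 := rfl
  have := rel_36 (C := T) ⟨u, huT⟩ (by simpa [Subtype.ext_iff, h2, h3, h6, h9] using e1)
    (by simpa [Subtype.ext_iff, h2, h3, h6, h9] using e2)
  simpa [Subtype.ext_iff, h2] using this

end

end Q23.UG
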