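import Pool.Agent.Q23.UG.Zero

/-!
# Groups of units of domains of characteristic zero: finiteness
-/

namespace Q23.UG

universe u v

section

variable {D : Type u} [Ring D] [IsDomain D]

theorem inv_of_quad (a : Dˣ) (ha : (a : D) * a + a + 1 = 0) : ((a⁻¹ : Dˣ) : D) = -1 - a := by
  apply Units.inv_eq_of_mul_eq_one_right
  have : (a : D) * (-1 - a) = 1 - ((a : D) * a + a + 1) := by noncomm_ring
  rw [this, ha, sub_zero]

theorem cube_of_quad (a : Dˣ) (ha : (a : D) * a + a + 1 = 0) : a ^ 3 = 1 := by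
  apply Units.ext
  rw [Units.val_pow_eq_pow_val, Units.val_one]
  have : (a : D) ^ 3 = ((a : D) - 1) * ((a : D) * a + a + 1) + 1 := by noncomm_ring
  rw [this, ha, mul_zero, zero_add]

theorem quad_of_cube (a : Dˣ) (ha : a ^ 3 = 1) : a = 1 ∨ (a : D) * a + a + 1 = 0 := by
  have h1 : ((a : D) - 1) * ((a : D) * a + a + 1) = 0 := by
    have : (a : D) ^ 3 = 1 := by rw [← Units.val_pow_eq_pow_val, ha, Units.val_one]
    have e : ((a : D) - 1) * ((a : D) * a + a + 1) = (a : D) ^ 3 - 1 := by noncomm_ring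
    rw [e, this, sub_self]
  rcases mul_eq_zero.mp h1 with h | h
  · exact Or.inl (Units.ext (by rw [Units.val_one]; exact sub_eq_zero.mp h))
  · exact Or.inr h

theorem X_fin (n : ℕ) (hTr : TrC D n) (H : Subgroup Dˣ) (hHn : ∀ x ∈ H, x ^ n = 1) :
    {x : Dˣ | x ∈ H ∧ (x : D) * x + x + 1 = 0}.Finite := by
  set X := {x : Dˣ | x ∈ H ∧ (x : D) * x + x + 1 = 0} with hX
  by_cases hcomm : ∀ a ∈ X, ∀ b ∈ X, (a : D) * b = b * a
  · rcases Set.eq_empty_or_nonempty X with h | ⟨a, ha⟩
    · rw [h]; exact Set.finite_empty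
    refine (Set.toFinite ({a, a⁻¹} : Set Dˣ)).subset ?_
    intro x hx
    have h1 : ((x : D) - a) * ((x : D) - (a⁻¹ : Dˣ)) = 0 := by
      rw [inv_of_quad a ha.2]
      have e : ((x : D) - a) * ((x : D) - (-1 - a)) = ((x : D) * x + x + 1) - ((a : D) * a + a + 1) + (x * a - a * x) := by
        noncomm_ring
      rw [e, hx.2, ha.2, hcomm x hx a ha]
      abel
    rcases mul_eq_zero.mp h1 with h | h
    · left; exact Units.ext (sub_eq_zero.mp h)
    · right; exact Units.ext (sub_eq_zero.mp h)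
  · push Not at hcomm
    obtain ⟨a, ha, b, hb, hab⟩ := hcomm
    -- traces
    let τ : Dˣ → Dˣ → D := fun x y => ((x * y⁻¹ : Dˣ) : D) + ((y * x⁻¹ : Dˣ) : D)
    have hτ : ∀ x ∈ X, ∀ y ∈ X, τ x y = 2 ∨ τ x y = -1 ∨ τ x y = 0 ∨ τ x y = 1 := by
      intro x hx y hy
      have hpow : ∀ z ∈ H, ((z : Dˣ) : D) ^ n = 1 := by
        intro z hz
        rw [← Units.val_pow_eq_pow_val, hHn z hz, Units.val_one]
      refine hTr ((x * y⁻¹ : Dˣ) : D) ((y * x⁻¹ : Dˣ) : D) ((x * y : Dˣ) : D) ((y⁻¹ * x⁻¹ : Dˣ) : D) ?_ ?_ ?_ ?_ ?_ ?_ ?_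
      · rw [← Units.val_mul]; simp
      · rw [← Units.val_mul]; simp
      · exact hpow _ (H.mul_mem hx.1 (H.inv_mem hy.1))
      · rw [← Units.val_mul]; simp [mul_assoc]
      · rw [← Units.val_mul]; simp [mul_assoc]
      · exact hpow _ (H.mul_mem hx.1 hy.1)
      · simp only [Units.val_mul, inv_of_quad x hx.2, inv_of_quad y hy.2]
        noncomm_ring
    have ha' : b * a * b⁻¹ ∈ X := by
      refine ⟨H.mul_mem (H.mul_mem hb.1 ha.1) (H.inv_mem hb.1), ?_⟩
      have e : ((b * a * b⁻¹ : Dˣ) : D) * ((b * a * b⁻¹ : Dˣ) : D) + ((b * a * b⁻¹ : Dˣ) : D) + 1 =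
          (b : D) * ((a : D) * a + a + 1) * (b⁻¹ : Dˣ) := by
        simp only [Units.val_mul]
        have h1 : (b : D) * a * (b⁻¹ : Dˣ) * (b * a * (b⁻¹ : Dˣ)) = b * a * (((b⁻¹ : Dˣ) : D) * b) * a * (b⁻¹ : Dˣ) := by
          noncomm_ring
        rw [h1, Units.inv_mul, mul_add, mul_add, add_mul, add_mul, mul_one, mul_one, Units.mul_inv]
        noncomm_ring
      rw [e, ha.2, mul_zero, zero_mul]
    have key : ∀ z ∈ X, ∀ c ∈ X, ∀ c' ∈ X, τ z c = τ z c' → (z : D) * ((c : D) - c') = ((c : D) - c') * (z⁻¹ : Dˣ) := by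
      intro z hz c hc c' hc' h
      simp only [τ, Units.val_mul, inv_of_quad z hz.2, inv_of_quad c hc.2, inv_of_quad c' hc'.2] at h
      rw [inv_of_quad z hz.2]
      have e : (z : D) * ((c : D) - c') - ((c : D) - c') * (-1 - z) =
          (z * (-1 - (c' : D)) + c' * (-1 - z)) - (z * (-1 - (c : D)) + c * (-1 - z)) := by noncomm_ring
      rw [← sub_eq_zero, e, h, sub_self]
    let F : Set D := {2, -1, 0, 1}
    have hF : F.Finite := Set.toFinite _
    have hmem : ∀ x ∈ X, ∀ y ∈ X, τ x y ∈ F := fun x hx y hy => by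
      rcases hτ x hx y hy with h | h | h | h <;> rw [h] <;> simp [F]
    refine Set.Finite.of_injOn (f := fun c : Dˣ => (τ a c, τ b c, τ (b * a * b⁻¹) c)) (t := F ×ˢ (F ×ˢ F)) ?_ ?_
      (hF.prod (hF.prod hF))
    · intro c hc
      exact ⟨hmem _ ha _ hc, hmem _ hb _ hc, hmem _ ha' _ hc⟩
    · intro c hc c' hc' h
      simp only [Prod.mk.injEq] at h
      have k1 := key a ha c hc c' hc' h.1
      have k2 := key b hb c hc c' hc' h.2.1
      have k3 := key _ ha' c hc c' hc' h.2.2
      set δ := (c : D) - c' with hδ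
      by_contra hne
      have hδ0 : δ ≠ 0 := fun h0 => hne (Units.ext (sub_eq_zero.mp h0))
      have k2' : δ * (b : D) = ((b⁻¹ : Dˣ) : D) * δ := by
        have : δ = ((b⁻¹ : Dˣ) : D) * δ * ((b⁻¹ : Dˣ) : D) := by
          rw [mul_assoc, ← k2, ← mul_assoc, Units.inv_mul, one_mul]
        calc δ * (b : D) = ((b⁻¹ : Dˣ) : D) * δ * ((b⁻¹ : Dˣ) : D) * b := by rw [← this]
          _ = ((b⁻¹ : Dˣ) : D) * δ := by rw [Units.inv_mul_cancel_right]
      have h1 : ((b * a * b⁻¹ : Dˣ) : D) * δ = δ * ((b⁻¹ * a⁻¹ * b : Dˣ) : D) := by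
        simp only [Units.val_mul]
        calc (b : D) * a * (b⁻¹ : Dˣ) * δ = (b : D) * a * ((b⁻¹ : Dˣ) * δ) := by rw [mul_assoc]
          _ = (b : D) * (a * δ) * b := by rw [← k2']; simp only [mul_assoc]
          _ = ((b : D) * δ) * (a⁻¹ : Dˣ) * b := by rw [k1]; simp only [mul_assoc]
          _ = δ * ((b⁻¹ : Dˣ) * (a⁻¹ : Dˣ) * b) := by rw [k2]; simp only [mul_assoc]
      rw [k3] at h1
      have h2 := mul_left_cancel₀ hδ0 h1
      have h3 : (b * a * b⁻¹)⁻¹ = b⁻¹ * a⁻¹ * b := Units.ext h2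
      have hb3 := cube_of_quad b hb.2
      have h4 : a * b = b * a := by
        have h5 : b * a⁻¹ * b⁻¹ = b⁻¹ * a⁻¹ * b := by
          rw [← h3, mul_inv_rev, mul_inv_rev, inv_inv, mul_assoc]
        have h6 : b ^ 2 * a⁻¹ = a⁻¹ * b ^ 2 := by
          calc b ^ 2 * a⁻¹ = b * (b * a⁻¹ * b⁻¹) * b := by simp only [pow_two, mul_assoc, inv_mul_cancel, mul_one]
            _ = b * (b⁻¹ * a⁻¹ * b) * b := by rw [h5]
            _ = a⁻¹ * b ^ 2 := by rw [pow_two, mul_assoc b⁻¹, mul_inv_cancel_left, mul_assoc]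
        have h7 : b ^ 2 = b⁻¹ := by rw [eq_inv_iff_mul_eq_one, ← pow_succ, hb3]
        rw [h7] at h6
        have h8 := congrArg (fun z => z⁻¹) h6
        simp only [mul_inv_rev, inv_inv] at h8
        exact h8
      exact hab (congrArg Units.val h4)

theorem Y_fin [CharZero D] (C : Subgroup Dˣ)
    (hC : ∀ i ∈ C, ∀ j ∈ C, (i : D) * i = -1 → (j : D) * j = -1 → (i * j) ^ 4 = 1) :
    {y : Dˣ | y ∈ C ∧ (y : D) * y = -1}.Finite := by
  set Y := {y : Dˣ | y ∈ C ∧ (y : D) * y = -1} with hY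
  -- products
  have hprod : ∀ i ∈ Y, ∀ j ∈ Y, ((i : D) * j = 1 ∧ (j : D) * i = 1) ∨ ((i : D) * j = -1 ∧ (j : D) * i = -1) ∨
      ((j : D) * i = -(i * j) ∧ (i : D) * j * (i * j) = -1) := by
    intro i hi j hj
    have h4 := hC i hi.1 j hj.1 hi.2 hj.2
    have h4' : (i : D) * j * (i * j) * (i * j * (i * j)) = 1 := by
      have := congrArg Units.val h4
      simp only [Units.val_pow_eq_pow_val, Units.val_mul, Units.val_one] at this
      rw [← this]
      noncomm_ring
    set g := (i : D) * j with hg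
    have hji : g * (j * i) = 1 := by
      rw [hg]
      calc (i : D) * j * (j * i) = i * (j * j) * i := by noncomm_ring
        _ = 1 := by rw [hj.2, mul_neg, mul_one, neg_mul, hi.2, neg_neg]
    have h5 : (g * g - 1) * (g * g + 1) = 0 := by
      have : (g * g - 1) * (g * g + 1) = g * g * (g * g) - 1 := by noncomm_ring
      rw [this, h4', sub_self]
    have hu : ∀ z : D, g * z = 1 → z = j * i := by
      intro z hz
      have hg0 : g ≠ 0 := by
        intro h0
        rw [h0, zero_mul] at hji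
        exact zero_ne_one hji
      exact mul_left_cancel₀ hg0 (by rw [hz, hji])
    rcases mul_eq_zero.mp h5 with h | h
    · have h6 : (g - 1) * (g + 1) = 0 := by
        have : (g - 1) * (g + 1) = g * g - 1 := by noncomm_ring
        rw [this, h]
      rcases mul_eq_zero.mp h6 with h7 | h7
      · left
        have h8 : g = 1 := sub_eq_zero.mp h7
        refine ⟨h8, (hu 1 (by rw [h8, mul_one])).symm⟩
      · right; left
        have h8 : g = -1 := eq_neg_of_add_eq_zero_left h7
        refine ⟨h8, (hu (-1) (by rw [h8]; noncomm_ring)).symm⟩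
    · right; right
      have h8 : g * g = -1 := eq_neg_of_add_eq_zero_left h
      exact ⟨(hu (-g) (by rw [mul_neg, h8, neg_neg])).symm, h8⟩
  by_cases hcomm : ∀ i ∈ Y, ∀ j ∈ Y, (i : D) * j = j * i
  · rcases Set.eq_empty_or_nonempty Y with h | ⟨i, hi⟩
    · rw [h]; exact Set.finite_empty
    refine (Set.toFinite ({i, -i} : Set Dˣ)).subset ?_
    intro y hy
    have h1 : ((y : D) - i) * ((y : D) + i) = 0 := by
      have e : ((y : D) - i) * ((y : D) + i) = (y : D) * y - (i : D) * i + (y * i - i * y) := by noncomm_ring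
      rw [e, hy.2, hi.2, hcomm y hy i hi]
      abel
    rcases mul_eq_zero.mp h1 with h | h
    · left; exact Units.ext (sub_eq_zero.mp h)
    · right
      apply Units.ext
      rw [Units.val_neg]
      exact eq_neg_of_add_eq_zero_left h
  · push Not at hcomm
    obtain ⟨i, hi, j, hj, hij⟩ := hcomm
    have hij' : (j : D) * i = -(i * j) ∧ (i : D) * j * (i * j) = -1 := by
      rcases hprod i hi j hj with h | h | h
      · exact absurd (h.1.trans h.2.symm) hij
      · exact absurd (h.1.trans h.2.symm) hij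
      · exact h
    have hk : i * j ∈ Y := ⟨C.mul_mem hi.1 hj.1, by rw [Units.val_mul]; exact hij'.2⟩
    let σ : Dˣ → Dˣ → D := fun x y => (x : D) * y + y * x
    let F : Set D := {2, -2, 0}
    have hF : F.Finite := Set.toFinite _
    have hmem : ∀ x ∈ Y, ∀ y ∈ Y, σ x y ∈ F := by
      intro x hx y hy
      simp only [σ, F, Set.mem_insert_iff, Set.mem_singleton_iff]
      rcases hprod x hx y hy with h | h | h
      · left; rw [h.1, h.2]; norm_num
      · right; left; rw [h.1, h.2]; norm_num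
      · right; right; rw [h.1, add_neg_cancel]
    have key : ∀ z ∈ Y, ∀ c ∈ Y, ∀ c' ∈ Y, σ z c = σ z c' → (z : D) * ((c : D) - c') = -(((c : D) - c') * z) := by
      intro z hz c hc c' hc' h
      simp only [σ] at h
      have e : (z : D) * ((c : D) - c') + ((c : D) - c') * z = (z * c + c * z) - (z * c' + c' * z) := by noncomm_ring
      rw [h, sub_self] at e
      exact eq_neg_of_add_eq_zero_left e
    refine Set.Finite.of_injOn (f := fun c : Dˣ => (σ i c, σ j c, σ (i * j) c)) (t := F ×ˢ (F ×ˢ F)) ?_ ?_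
      (hF.prod (hF.prod hF))
    · intro c hc
      exact ⟨hmem _ hi _ hc, hmem _ hj _ hc, hmem _ hk _ hc⟩
    · intro c hc c' hc' h
      simp only [Prod.mk.injEq] at h
      have k1 := key i hi c hc c' hc' h.1
      have k2 := key j hj c hc c' hc' h.2.1
      have k3 := key _ hk c hc c' hc' h.2.2
      set δ := (c : D) - c' with hδ
      have h1 : ((i * j : Dˣ) : D) * δ = δ * ((i * j : Dˣ) : D) := by
        rw [Units.val_mul, mul_assoc, k2, mul_neg, ← mul_assoc, k1, neg_mul, neg_neg, mul_assoc]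
      rw [k3] at h1
      have h2 : δ * ((i * j : Dˣ) : D) = 0 := by
        have h3 : (2 : D) * (δ * ((i * j : Dˣ) : D)) = 0 := by
          rw [two_mul]
          nth_rewrite 1 [← h1]
          exact neg_add_cancel _
        rcases mul_eq_zero.mp h3 with h | h
        · exact absurd h two_ne_zero
        · exact h
      rcases mul_eq_zero.mp h2 with h | h
      · exact Units.ext (sub_eq_zero.mp h)
      · exact absurd h (Units.ne_zero _)

end

end Q23.UG
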