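import Pool.Agent.Q23.UG.ZeroB

/-!
# Groups of units of domains of exponent dividing 24 or 36
-/

namespace Q23.UG

universe u v

/-- A finitely generated group with a finite normal subgroup whose quotient has an exponent in `𝓛`. -/
theorem fin_exp {C : Type u} [Group C] [Group.FG C] (m : ℕ) (hm : Q6.Deg.InL.{u} m) (Z : Subgroup C) [Z.Normal] [Finite Z]
    (h : ∀ x : C, x ^ m ∈ Z) : Finite C := by
  obtain ⟨S, hS⟩ := (inferInstance : Group.FG C).out
  have h1 := Q6.FreeAct.finite_of_quotient Z (S : Set C) (by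
    refine hm _ ?_ _ (S.finite_toSet.image _)
    intro q
    obtain ⟨g, rfl⟩ := QuotientGroup.mk'_surjective Z q
    rw [← map_pow]
    exact (QuotientGroup.eq_one_iff (g ^ m)).2 (h g))
  rw [hS] at h1
  exact Finite.of_equiv _ Subgroup.topEquiv.toEquiv

theorem inL_one : Q6.Deg.InL.{u} 1 := by
  intro K _ hK S hS
  have : Subsingleton K := ⟨fun a b => by rw [← pow_one a, ← pow_one b, hK, hK]⟩
  infer_instance

theorem inL_four : Q6.Deg.InL.{u} 4 := by
  intro K _ hK S hS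
  have hinj : Function.Injective (MonoidAlgebra.of ℚ K) := MonoidAlgebra.of_injective
  refine Q6.Deg.main_four (F := ℚ) hinj ?_ (k := 2) (m := 1) one_pos inL_one (by simpa using hK) S hS
  intro g
  refine ⟨Polynomial.X ^ 4 - 1, Polynomial.X_pow_sub_C_ne_zero (by norm_num) (1 : ℚ), ?_, ?_⟩
  · exact (Polynomial.natDegree_X_pow_sub_C (n := 4) (r := (1 : ℚ))).le
  · rw [map_sub, map_pow, Polynomial.aeval_X, map_one, ← map_pow, hK, map_one, sub_self]

section

variable {D : Type u} [Ring D] [IsDomain D]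

/-- A commutative set of elements of bounded order is finite. -/
theorem comm_finite (n : ℕ) (hn : 0 < n) (Y : Set Dˣ) (hYn : ∀ y ∈ Y, y ^ n = 1)
    (hYc : ∀ y ∈ Y, ∀ z ∈ Y, (y : D) * z = z * y) : Y.Finite := by
  classical
  let T := Subring.closure (Units.val '' Y)
  have hTc : ∀ a ∈ T, ∀ b ∈ T, a * b = b * a := by
    refine cl_comm _ ?_
    rintro _ ⟨y, hy, rfl⟩ _ ⟨z, hz, rfl⟩
    exact hYc y hy z hz
  letI : CommRing T := { (inferInstance : Ring T) with mul_comm := fun a b => Subtype.ext (hTc a a.2 b b.2) }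
  have hdT : IsDomain T := inferInstance
  have h1 : {b : T | b ^ n = 1}.Finite := by
    refine ((Polynomial.nthRoots n (1 : T)).toFinset.finite_toSet).subset ?_
    intro b hb
    rw [Finset.mem_coe, Multiset.mem_toFinset, Polynomial.mem_nthRoots hn]
    exact hb
  have h2 : (Units.val '' Y).Finite := by
    refine (h1.image (fun b : T => (b : D))).subset ?_
    rintro _ ⟨y, hy, rfl⟩
    refine ⟨⟨(y : D), Subring.subset_closure ⟨y, hy, rfl⟩⟩, ?_, rfl⟩
    apply Subtype.ext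
    show (y : D) ^ n = 1
    rw [← Units.val_pow_eq_pow_val, hYn y hy, Units.val_one]
  exact Set.Finite.of_finite_image h2 (Units.val_injective.injOn)

/-- Passing to the centralizer of a finite invariant set. -/
theorem cent_set {G : Type u} [Group G] (H : Subgroup G) (hH : H.FG) (Y : Set G) (hYfin : Y.Finite)
    (hYn : ∀ x ∈ H, ∀ y ∈ Y, x * y * x⁻¹ ∈ Y) :
    ∃ C : Subgroup G, C ≤ H ∧ C.FG ∧ (∀ x ∈ C, ∀ y ∈ Y, x * y = y * x) ∧ (Finite C → Finite H) := by
  classical
  have hYn' : ∀ x : H, ∀ y : Y, (x : G) * y * (x : G)⁻¹ ∈ Y := fun x y => hYn x x.2 y y.2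
  let ρ : H →* Equiv.Perm Y :=
    { toFun := fun x =>
        { toFun := fun y => ⟨(x : G) * y * (x : G)⁻¹, hYn' x y⟩
          invFun := fun y => ⟨((x⁻¹ : H) : G) * y * ((x⁻¹ : H) : G)⁻¹, hYn' x⁻¹ y⟩
          left_inv := fun y => Subtype.ext (by simp [mul_assoc])
          right_inv := fun y => Subtype.ext (by simp [mul_assoc]) }
      map_one' := by ext y; simp
      map_mul' := by intro a b; ext y; simp [mul_assoc] }
  have : Finite Y := hYfin
  have hker : ∀ x : H, x ∈ ρ.ker → ∀ y ∈ Y, (x : G) * y = y * x := by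
    intro x hx y hy
    have h1 : ρ x = 1 := hx
    have h2 := congrArg (fun f : Equiv.Perm Y => ((f ⟨y, hy⟩ : Y) : G)) h1
    have h3 : (x : G) * y * (x : G)⁻¹ = y := h2
    calc (x : G) * y = (x : G) * y * (x : G)⁻¹ * x := by rw [inv_mul_cancel_right]
      _ = y * x := by rw [h3]
  have hHG : Group.FG H := (Group.fg_iff_subgroup_fg H).mpr hH
  refine ⟨ρ.ker.map H.subtype, ?_, ?_, ?_, ?_⟩
  · rintro _ ⟨x, _, rfl⟩
    exact x.2
  · rw [← Group.fg_iff_subgroup_fg]
    exact Group.fg_of_surjective (f := (ρ.ker.equivMapOfInjective H.subtype (Subgroup.subtype_injective H)).toMonoidHom)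
      (ρ.ker.equivMapOfInjective H.subtype (Subgroup.subtype_injective H)).surjective
  · rintro _ ⟨x, hx, rfl⟩ y hy
    exact hker x hx y hy
  · intro hfin
    have h1 : Finite ρ.ker := Finite.of_equiv _ (ρ.ker.equivMapOfInjective H.subtype (Subgroup.subtype_injective H)).symm.toEquiv
    exact ρ.finite_iff_finite_ker_range.mpr ⟨h1, inferInstance⟩

/-- A finitely generated group of units of a domain whose elements have central `m`-th power, for `m ∈ 𝓛`. -/
theorem central_pow (n : ℕ) (hn : 0 < n) (m : ℕ) (hm : Q6.Deg.InL.{u} m) (C : Subgroup Dˣ) (hC : C.FG)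
    (hCn : ∀ x ∈ C, x ^ n = 1) (h : ∀ x ∈ C, ∀ y ∈ C, x ^ m * y = y * x ^ m) : Finite C := by
  have hCG : Group.FG C := (Group.fg_iff_subgroup_fg C).mpr hC
  have hZ : Finite (Subgroup.center C) := by
    have h1 : (C.subtype '' (Subgroup.center C : Set C)).Finite := by
      refine comm_finite n hn _ ?_ ?_
      · rintro _ ⟨x, _, rfl⟩
        exact hCn x x.2
      · rintro _ ⟨x, hx, rfl⟩ _ ⟨y, _, rfl⟩
        have h2 : y * x = x * y := (Subgroup.mem_center_iff.mp hx) y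
        have h3 := congrArg (fun z : C => ((z : Dˣ) : D)) h2
        exact h3.symm
    exact Set.Finite.of_finite_image h1 (Subtype.val_injective.injOn)
  refine fin_exp m hm (Subgroup.center C) ?_
  intro x
  rw [Subgroup.mem_center_iff]
  intro y
  exact Subtype.ext (h x x.2 y y.2).symm

theorem quad_conj (x y : Dˣ) (hy : (y : D) * y + y + 1 = 0) :
    ((x * y * x⁻¹ : Dˣ) : D) * ((x * y * x⁻¹ : Dˣ) : D) + ((x * y * x⁻¹ : Dˣ) : D) + 1 = 0 := by
  have e : ((x * y * x⁻¹ : Dˣ) : D) * ((x * y * x⁻¹ : Dˣ) : D) + ((x * y * x⁻¹ : Dˣ) : D) + 1 =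
      (x : D) * ((y : D) * y + y + 1) * (x⁻¹ : Dˣ) := by
    simp only [Units.val_mul]
    have h1 : (x : D) * y * (x⁻¹ : Dˣ) * (x * y * (x⁻¹ : Dˣ)) = x * y * (((x⁻¹ : Dˣ) : D) * x) * y * (x⁻¹ : Dˣ) := by
      noncomm_ring
    rw [h1, Units.inv_mul, mul_add, mul_add, add_mul, add_mul, mul_one, mul_one, Units.mul_inv]
    noncomm_ring
  rw [e, hy, mul_zero, zero_mul]

theorem pm_one (x : Dˣ) (hx : x ^ 2 = 1) (y : Dˣ) : x * y = y * x := by
  have h1 : ((x : D) - 1) * ((x : D) + 1) = 0 := by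
    have e : ((x : D) - 1) * ((x : D) + 1) = (x : D) ^ 2 - 1 := by noncomm_ring
    rw [e, ← Units.val_pow_eq_pow_val, hx, Units.val_one, sub_self]
  rcases mul_eq_zero.mp h1 with h | h
  · have : x = 1 := Units.ext (by rw [Units.val_one]; exact sub_eq_zero.mp h)
    rw [this, one_mul, mul_one]
  · have h2 : (x : D) = -1 := eq_neg_of_add_eq_zero_left h
    apply Units.ext
    rw [Units.val_mul, Units.val_mul, h2]
    noncomm_ring

/-- The centralizer of the elements of order three. -/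
theorem cent_three (n : ℕ) (hTr : TrC D n) (H : Subgroup Dˣ) (hH : H.FG) (hHn : ∀ x ∈ H, x ^ n = 1) :
    ∃ C : Subgroup Dˣ, C ≤ H ∧ C.FG ∧ (∀ x ∈ C, x ^ 3 = 1 → ∀ y ∈ C, x * y = y * x) ∧ (Finite C → Finite H) := by
  obtain ⟨C, hCH, hC, hCX, hfin⟩ := cent_set H hH {x : Dˣ | x ∈ H ∧ (x : D) * x + x + 1 = 0} (X_fin n hTr H hHn) (by
    rintro x hx y ⟨hy, hy1⟩
    exact ⟨H.mul_mem (H.mul_mem hx hy) (H.inv_mem hx), quad_conj x y hy1⟩)
  refine ⟨C, hCH, hC, ?_, hfin⟩
  intro x hx hx3 y hy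
  rcases quad_of_cube x hx3 with rfl | h
  · rw [one_mul, mul_one]
  · exact (hCX y hy x ⟨hCH hx, h⟩).symm

theorem dom_24 [CharZero D] (H : Subgroup Dˣ) (hH : H.FG) (hHn : ∀ x ∈ H, x ^ 24 = 1) : Finite H := by
  obtain ⟨C, hCH, hC, hCX, hfin⟩ := cent_three 24 trc_24 H hH hHn
  apply hfin
  refine central_pow 24 (by norm_num) 4 inL_four C hC (fun x hx => hHn x (hCH hx)) ?_
  intro x hx y hy
  have h1 : (x ^ 8) * y = y * x ^ 8 := hCX _ (C.pow_mem hx 8) (by rw [← pow_mul]; exact hHn x (hCH hx)) y hy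
  have h2 : (x ^ 12) * y = y * x ^ 12 := pm_one _ (by rw [← pow_mul]; exact hHn x (hCH hx)) y
  have h3 : x ^ 4 = x ^ 12 * (x ^ 8)⁻¹ := by
    rw [eq_mul_inv_iff_mul_eq, ← pow_add]
  rw [h3]
  exact ((show Commute (x ^ 12) y from h2).mul_left (show Commute (x ^ 8) y from h1).inv_left).eq

theorem dom_36 [CharZero D] (H : Subgroup Dˣ) (hH : H.FG) (hHn : ∀ x ∈ H, x ^ 36 = 1) : Finite H := by
  obtain ⟨C, hCH, hC, hCX, hfin⟩ := cent_three 36 trc_36 H hH hHn
  apply hfin
  have hCn : ∀ x ∈ C, x ^ 36 = 1 := fun x hx => hHn x (hCH hx)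
  have h12 : ∀ x ∈ C, ∀ y ∈ C, x ^ 12 * y = y * x ^ 12 := fun x hx y hy =>
    hCX _ (C.pow_mem hx 12) (by rw [← pow_mul]; exact hCn x hx) y hy
  -- products of elements of order four
  have hY : ∀ i ∈ C, ∀ j ∈ C, (i : D) * i = -1 → (j : D) * j = -1 → (i * j) ^ 4 = 1 := by
    intro i hi j hj hi2 hj2
    set g := i * j with hg
    have hgC : g ∈ C := C.mul_mem hi hj
    have hinv : ∀ k : ℕ, i * g ^ k * i⁻¹ = (g⁻¹) ^ k := by
      have h1 : i * g * i⁻¹ = g⁻¹ := by
        rw [mul_inv_eq_iff_eq_mul]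
        apply Units.ext
        have hi' : ((i⁻¹ : Dˣ) : D) = -i := by
          apply Units.inv_eq_of_mul_eq_one_right
          rw [mul_neg, hi2, neg_neg]
        have hj' : ((j⁻¹ : Dˣ) : D) = -j := by
          apply Units.inv_eq_of_mul_eq_one_right
          rw [mul_neg, hj2, neg_neg]
        simp only [hg, Units.val_mul, mul_inv_rev, hi', hj']
        have e1 : (i : D) * (i * j) = -j := by rw [← mul_assoc, hi2, neg_one_mul]
        have e2 : -(j : D) * -i * i = -j := by rw [neg_mul_neg, mul_assoc, hi2, mul_neg_one]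
        rw [e1, e2]
      intro k
      rw [← h1, conj_pow]
    have h1 : g ^ 24 = 1 := by
      have e1 := hinv 12
      have e2 : i * g ^ 12 * i⁻¹ = g ^ 12 := by
        rw [← h12 g hgC i hi, mul_inv_cancel_right]
      rw [e2, inv_pow] at e1
      have e3 : g ^ 12 * g ^ 12 = 1 := by
        nth_rewrite 1 [e1]
        exact inv_mul_cancel _
      rw [← pow_add] at e3
      exact e3
    have h2 : g ^ 12 = 1 := by
      have e1 : g ^ 36 = g ^ 24 * g ^ 12 := by rw [← pow_add]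
      rw [hCn g hgC, h1, one_mul] at e1
      exact e1.symm
    have h3 : g ^ 4 * i = i * g ^ 4 := hCX _ (C.pow_mem hgC 4) (by rw [← pow_mul]; exact h2) i hi
    have h4 : g ^ 8 = 1 := by
      have e1 := hinv 4
      have e2 : i * g ^ 4 * i⁻¹ = g ^ 4 := by
        rw [← h3, mul_inv_cancel_right]
      rw [e2, inv_pow] at e1
      have e3 : g ^ 4 * g ^ 4 = 1 := by
        nth_rewrite 1 [e1]
        exact inv_mul_cancel _
      rw [← pow_add] at e3
      exact e3
    have e1 : g ^ 12 = g ^ 8 * g ^ 4 := by rw [← pow_add]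
    rw [h2, h4, one_mul] at e1
    exact e1.symm
  obtain ⟨C', hCC, hC', hCY, hfin'⟩ := cent_set C hC {y : Dˣ | y ∈ C ∧ (y : D) * y = -1} (Y_fin C hY) (by
    rintro x hx y ⟨hy, hy1⟩
    refine ⟨C.mul_mem (C.mul_mem hx hy) (C.inv_mem hx), ?_⟩
    have e : (x * y * x⁻¹) * (x * y * x⁻¹) = x * (y * y) * x⁻¹ := by
      simp only [mul_assoc, inv_mul_cancel_left]
    rw [← Units.val_mul, e, Units.val_mul, Units.val_mul, Units.val_mul, hy1, mul_neg_one, neg_mul, Units.mul_inv])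
  apply hfin'
  refine central_pow 36 (by norm_num) 3 Q6.Deg.inL_three C' hC' (fun x hx => hCn x (hCC hx)) ?_
  intro x hx y hy
  have h1 : (x ^ 12) * y = y * x ^ 12 := h12 x (hCC hx) y (hCC hy)
  have h2 : (x ^ 9) * y = y * x ^ 9 := by
    have e4 : (x ^ 18) ^ 2 = 1 := by rw [← pow_mul]; exact hCn x (hCC hx)
    have e5 : ((x ^ 18 : Dˣ) : D) = 1 ∨ ((x ^ 18 : Dˣ) : D) = -1 := by
      have h1 : (((x ^ 18 : Dˣ) : D) - 1) * (((x ^ 18 : Dˣ) : D) + 1) = 0 := by
        have e : (((x ^ 18 : Dˣ) : D) - 1) * (((x ^ 18 : Dˣ) : D) + 1) = ((x ^ 18 : Dˣ) : D) ^ 2 - 1 := by noncomm_ring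
        rw [e, ← Units.val_pow_eq_pow_val, e4, Units.val_one, sub_self]
      rcases mul_eq_zero.mp h1 with h | h
      · exact Or.inl (sub_eq_zero.mp h)
      · exact Or.inr (eq_neg_of_add_eq_zero_left h)
    rcases e5 with h | h
    · refine pm_one _ ?_ y
      rw [← pow_mul]
      exact Units.ext h
    · refine (hCY y hy (x ^ 9) ⟨C.pow_mem (hCC hx) 9, ?_⟩).symm
      rw [← Units.val_mul, ← pow_add]
      exact h
  have h3 : x ^ 3 = x ^ 12 * (x ^ 9)⁻¹ := by
    rw [eq_mul_inv_iff_mul_eq, ← pow_add]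
  rw [h3]
  exact ((show Commute (x ^ 12) y from h1).mul_left (show Commute (x ^ 9) y from h2).inv_left).eq

end

end Q23.UG
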